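import Pool.Agent.TH701.Fold

set_option autoImplicit false

/-!
# The algorithm

Matrices are lists of rows.  All matrices occurring in the Newton iteration have integer entries.
A product of two integer matrices is computed with `O(n²)` multiplications and `O(n² L)`
comparisons: the rows of the second factor are packed into single real numbers.
-/

noncomputable section

namespace Pool.Agent.TH701

/-- one step of the computation of the integer part: the state is `(r, c, p)` -/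
def floStep (s : ℝ × ℝ × ℝ) : ℝ × ℝ × ℝ :=
  if 0 ≤ s.1 - s.2.2 then (s.1 - s.2.2, s.2.1 + s.2.2, s.2.2 / 2) else (s.1, s.2.1, s.2.2 / 2)

/-- four steps -/
def floStep4 (s : ℝ × ℝ × ℝ) : ℝ × ℝ × ℝ := floStep (floStep (floStep (floStep s)))

/-- the integer part of `z`, provided `|z| ≤ B` and `B = 2 ^ (4 * L + 4)` -/
def flo (L : ℕ) (B z : ℝ) : ℝ := (floStep (floStep4 (floStep4^[L] (z + B, 0 - B, B)))).2.1

/-- `∑_j row_j B^j` -/
def pack (n : ℕ) (B : ℝ) (row : List ℝ) : ℝ :=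
  (foldN n (fun (q : ℝ × ℝ) x => (q.1 + x * q.2, q.2 * B)) (0, 1) row).1

/-- `B ^ n` -/
def powN (n : ℕ) (B : ℝ) : ℝ := (fun x => x * B)^[n] 1

/-- one step of unpacking: the state is `(r, w, acc)` -/
def unBody (L : ℕ) (B : ℝ) (q : ℝ × ℝ × List ℝ) : ℝ × ℝ × List ℝ :=
  (q.1 - flo L B (q.1 / q.2.1 + 1 / 2) * q.2.1, q.2.1 / B,
    flo L B (q.1 / q.2.1 + 1 / 2) :: q.2.2)

/-- the `n` digits of `y` in base `B` -/
def unpack (n L : ℕ) (B w y : ℝ) : List ℝ := ((unBody L B)^[n] (y, w, [])).2.2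

/-- the product of two integer matrices -/
def mulI (n L : ℕ) (B : ℝ) (P Q : List (List ℝ)) : List (List ℝ) :=
  mapN n (fun row => unpack n L B (powN n B / B) (dotN n row (mapN n (fun r => pack n B r) Q))) P

/-- one Newton step: `X ↦ ⌊2 X - X A X / U²⌋` -/
def newt (n L : ℕ) (U B : ℝ) (A X : List (List ℝ)) : List (List ℝ) :=
  zipN n (fun u v => zipN n (fun x y => flo L B (x + x - y / (U * U))) u v) X
    (mulI n L B (mulI n L B X A) X)

/-- five Newton steps -/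
def newt5 (n L : ℕ) (U B : ℝ) (A X : List (List ℝ)) : List (List ℝ) :=
  newt n L U B A (newt n L U B A (newt n L U B A (newt n L U B A (newt n L U B A X))))

/-- the natural number `n` as a real number -/
def natR (n : ℕ) : ℝ := (fun x : ℝ => x + 1)^[n] 0

/-- the list `[0, 1, ..., n - 1]` -/
def idxN (n : ℕ) : List ℝ :=
  ((fun q : ℝ × List ℝ => (q.1 - 1, (q.1 - 1) :: q.2))^[n] (natR n, [])).2

/-- the identity matrix -/
def eyeN (n : ℕ) : List (List ℝ) :=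
  mapN n (fun i => mapN n (fun j => if i ≤ j then (if j ≤ i then (1 : ℝ) else 0) else 0)
    (idxN n)) (idxN n)

/-- head of a list -/
def hd (l : List ℝ) : ℝ := cList l 0 fun x _ => x

/-- tail of a list -/
def tl (l : List ℝ) : List ℝ := cList l [] fun _ t => t

/-- transpose -/
def trN (n : ℕ) (A : List (List ℝ)) : List (List ℝ) :=
  revN n ((fun q : List (List ℝ) × List (List ℝ) => (mapN n tl q.1, mapN n hd q.1 :: q.2))^[n]
    (A, [])).2

/-- `max s |x|` -/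
def maxB (s x : ℝ) : ℝ :=
  if (if s ≤ x then x else s) ≤ 0 - x then 0 - x else (if s ≤ x then x else s)

/-- maximum of the absolute values of the entries -/
def maxN (n : ℕ) (A : List (List ℝ)) : ℝ :=
  foldN n (fun s row => foldN n (fun t x => maxB t x) s row) 0 A

/-- `s + |x|` -/
def addB (s x : ℝ) : ℝ := if 0 ≤ x then s + x else s - x

/-- sum of the absolute values of the entries -/
def sumN (n : ℕ) (A : List (List ℝ)) : ℝ :=
  foldN n (fun s row => foldN n (fun t x => addB t x) s row) 0 A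

/-- constants of the main loop: `ε`, the matrix, twice the sum of the absolute values of its
entries, `8n` as a real number, the identity matrix -/
abbrev Cst := ℝ × List (List ℝ) × ℝ × ℝ × List (List ℝ)

/-- the rounded matrix `⌊U a / s⌋` -/
def roundA (n L : ℕ) (U B s : ℝ) (A : List (List ℝ)) : List (List ℝ) :=
  mapN n (fun row => mapN n (fun a => flo L B (U * a / s)) row) A

/-- the approximate inverse of level `L` -/
def inv (n L : ℕ) (U B : ℝ) (A2 : List (List ℝ)) : List (List ℝ) :=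
  (newt5 n L U B A2)^[L] (trN n A2)

/-- the residual `U² I - X A2` -/
def resid (n L : ℕ) (U B : ℝ) (I X A2 : List (List ℝ)) : List (List ℝ) :=
  zipN n (fun u v => zipN n (fun x y => U * U * x - y) u v) I (mulI n L B X A2)

/-- `-1` if the approximate inverse passes the test, `1` otherwise -/
def test (n : ℕ) (ε U N : ℝ) (R X : List (List ℝ)) : ℝ :=
  if maxN n R * N ≤ ε * (U * U) then
    (if maxN n X * (N * N) ≤ ε * (U * U) then 0 - 1 else 1) else 1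

/-- result of level `L`: the approximate inverse and the result of the test -/
def level (n L : ℕ) (c : Cst) (U B : ℝ) : List (List ℝ) × ℝ :=
  (inv n L U B (roundA n L U B c.2.2.1 c.2.1),
    test n c.1 U c.2.2.2.1
      (resid n L U B c.2.2.2.2 (inv n L U B (roundA n L U B c.2.2.1 c.2.1))
        (roundA n L U B c.2.2.1 c.2.1))
      (inv n L U B (roundA n L U B c.2.2.1 c.2.1)))

/-- the base used at level `L` -/
def base (U : ℝ) : ℝ := 16 * ((U * U) * (U * U))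

/-- state of the main loop -/
abbrev St := Cst × ℝ × List (List ℝ) × ℝ

/-- body of the main loop (the counter `L` is increased separately) -/
def bodyF (n L : ℕ) (q : St) : St :=
  (q.1, q.2.1 + q.2.1, level n (L + 1) q.1 (q.2.1 + q.2.1) (base (q.2.1 + q.2.1)))

namespace PC

variable {α β γ δ ε σ : Type} {a b : ℕ}

theorem half {f : ℕ × ℕ × α → ℝ} (hf : PC a b f) : PC a b (fun p => f p / 2) := hf.div two

theorem pc_floStep {f : ℕ × ℕ × α → ℝ × ℝ × ℝ} (hf : PC a b f) :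
    PC a b (fun p => floStep (f p)) :=
  branch (h := fun p => (f p).1 - (f p).2.2)
    (f := fun p => ((f p).1 - (f p).2.2, (f p).2.1 + (f p).2.2, (f p).2.2 / 2))
    (g := fun p => ((f p).1, (f p).2.1, (f p).2.2 / 2))
    (hf.fst.sub hf.snd.snd)
    ((hf.fst.sub hf.snd.snd).pair ((hf.snd.fst.add hf.snd.snd).pair hf.snd.snd.half))
    (hf.fst.pair (hf.snd.fst.pair hf.snd.snd.half))

theorem pc_floStep4 {f : ℕ × ℕ × α → ℝ × ℝ × ℝ} (hf : PC a b f) :
    PC a b (fun p => floStep4 (f p)) :=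
  pc_floStep (pc_floStep (pc_floStep (pc_floStep hf)))

theorem pc_flo {B z : ℕ × ℕ × α → ℝ} (hB : PC a (b + 1) B) (hz : PC a (b + 1) z) :
    PC a (b + 1) (fun p => flo p.2.1 (B p) (z p)) := by
  have h1 : PC a b (fun p : ℕ × ℕ × (ℕ × (ℝ × ℝ × ℝ)) => floStep4 p.2.2.2) := pc_floStep4 arg.snd
  have h2 := loopL (γ := α) (e := fun _ => 0) (x := fun p => (z p + B p, 0 - B p, B p)) h1 natZero
    ((hz.add hB).pair ((zero.sub hB).pair hB))
  exact (pc_floStep (pc_floStep4 h2)).snd.fst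

theorem pc_pack {B : ℕ × ℕ × α → ℝ} {row : ℕ × ℕ × α → List ℝ} (hB : PC (a + 1) b B)
    (hrow : PC (a + 1) b row) : PC (a + 1) b (fun p => pack p.1 (B p) (row p)) :=
  (fold (f := fun p : ℕ × ℕ × (ℝ × ((ℝ × ℝ) × ℝ)) =>
      (p.2.2.2.1.1 + p.2.2.2.2 * p.2.2.2.1.2, p.2.2.2.1.2 * p.2.2.1)) (e := B)
      (s := fun _ => (0, 1)) (l := row)
    ((arg.snd.fst.fst.add (arg.snd.snd.mul arg.snd.fst.snd)).pair (arg.snd.fst.snd.mul arg.fst))
    hB (zero.pair one) hrow).fst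

theorem pc_powN {B : ℕ × ℕ × α → ℝ} (hB : PC (a + 1) b B) :
    PC (a + 1) b (fun p => powN p.1 (B p)) := by
  have h1 : PC a b (fun p : ℕ × ℕ × (ℝ × ℝ) => p.2.2.2 * p.2.2.1) := arg.snd.mul arg.fst
  exact loopN (e := B) (x := fun _ => 1) h1 hB one

theorem pc_unBody {B : ℕ × ℕ × α → ℝ} {q : ℕ × ℕ × α → ℝ × ℝ × List ℝ} (hB : PC a (b + 1) B)
    (hq : PC a (b + 1) q) : PC a (b + 1) (fun p => unBody p.2.1 (B p) (q p)) := by
  have h1 : PC a (b + 1) (fun p => flo p.2.1 (B p) ((q p).1 / (q p).2.1 + 1 / 2)) :=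
    pc_flo hB ((hq.fst.div hq.snd.fst).add (one.div two))
  exact (hq.fst.sub (h1.mul hq.snd.fst)).pair ((hq.snd.fst.div hB).pair (h1.cons hq.snd.snd))

theorem pc_unpack {B w y : ℕ × ℕ × α → ℝ} (hB : PC (a + 1) (b + 1) B)
    (hw : PC (a + 1) (b + 1) w) (hy : PC (a + 1) (b + 1) y) :
    PC (a + 1) (b + 1) (fun p => unpack p.1 p.2.1 (B p) (w p) (y p)) := by
  have h1 : PC a (b + 1) (fun p : ℕ × ℕ × (ℝ × (ℝ × ℝ × List ℝ)) =>
      unBody p.2.1 p.2.2.1 p.2.2.2) := pc_unBody arg.fst arg.snd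
  exact (loopN (e := B) (x := fun p => (y p, w p, [])) h1 hB (hy.pair (hw.pair nil))).snd.snd

theorem pc_mulI {B : ℕ × ℕ × α → ℝ} {P Q : ℕ × ℕ × α → List (List ℝ)}
    (hB : PC (a + 2) (b + 1) B) (hP : PC (a + 2) (b + 1) P) (hQ : PC (a + 2) (b + 1) Q) :
    PC (a + 2) (b + 1) (fun p => mulI p.1 p.2.1 (B p) (P p) (Q p)) := by
  have h1 : PC (a + 2) (b + 1) (fun p => mapN p.1 (fun r => pack p.1 (B p) r) (Q p)) :=
    mapP (f := fun p : ℕ × ℕ × (ℝ × List ℝ) => pack p.1 p.2.2.1 p.2.2.2) (e := B) (l := Q)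
      (pc_pack arg.fst arg.snd) hB hQ
  have h2 : PC (a + 2) (b + 1) (fun p => powN p.1 (B p) / B p) := (pc_powN hB).div hB
  exact mapP (f := fun p : ℕ × ℕ × ((ℝ × ℝ × List ℝ) × List ℝ) =>
      unpack p.1 p.2.1 p.2.2.1.1 p.2.2.1.2.1 (dotN p.1 p.2.2.2 p.2.2.1.2.2))
    (e := fun p => (B p, powN p.1 (B p) / B p, mapN p.1 (fun r => pack p.1 (B p) r) (Q p)))
    (l := P) (pc_unpack arg.fst.fst arg.fst.snd.fst (dotP arg.snd arg.fst.snd.snd))
    (hB.pair (h2.pair h1)) hP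

theorem pc_newt {U B : ℕ × ℕ × α → ℝ} {A X : ℕ × ℕ × α → List (List ℝ)}
    (hU : PC (a + 2) (b + 1) U) (hB : PC (a + 2) (b + 1) B) (hA : PC (a + 2) (b + 1) A)
    (hX : PC (a + 2) (b + 1) X) :
    PC (a + 2) (b + 1) (fun p => newt p.1 p.2.1 (U p) (B p) (A p) (X p)) := by
  have h0 : PC (a + 1) (b + 1) (fun p : ℕ × ℕ × ((ℝ × ℝ) × (List ℝ × List ℝ)) =>
      zipN p.1 (fun x y => flo p.2.1 p.2.2.1.2 (x + x - y / (p.2.2.1.1 * p.2.2.1.1)))
        p.2.2.2.1 p.2.2.2.2) := by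
    have h00 : PC a (b + 1) (fun p : ℕ × ℕ × ((ℝ × ℝ) × (ℝ × ℝ)) =>
        flo p.2.1 p.2.2.1.2 (p.2.2.2.1 + p.2.2.2.1 - p.2.2.2.2 / (p.2.2.1.1 * p.2.2.1.1))) :=
      pc_flo arg.fst.snd ((arg.snd.fst.add arg.snd.fst).sub
        (arg.snd.snd.div (arg.fst.fst.mul arg.fst.fst)))
    have h01 := zipP (u := fun p : ℕ × ℕ × ((ℝ × ℝ) × (List ℝ × List ℝ)) => p.2.2.2.1)
      (v := fun p => p.2.2.2.2) (e := fun p => p.2.2.1) h00 arg.fst arg.snd.fst arg.snd.snd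
    exact h01
  have h02 := zipP (e := fun p => (U p, B p)) (u := X)
      (v := fun p => mulI p.1 p.2.1 (B p) (mulI p.1 p.2.1 (B p) (X p) (A p)) (X p))
      h0 (hU.pair hB) hX (pc_mulI hB (pc_mulI hB hX hA) hX)
  exact h02

theorem pc_newt5 {U B : ℕ × ℕ × α → ℝ} {A X : ℕ × ℕ × α → List (List ℝ)}
    (hU : PC (a + 2) (b + 1) U) (hB : PC (a + 2) (b + 1) B) (hA : PC (a + 2) (b + 1) A)
    (hX : PC (a + 2) (b + 1) X) :
    PC (a + 2) (b + 1) (fun p => newt5 p.1 p.2.1 (U p) (B p) (A p) (X p)) :=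
  pc_newt hU hB hA (pc_newt hU hB hA (pc_newt hU hB hA (pc_newt hU hB hA (pc_newt hU hB hA hX))))

theorem pc_natR : PC (a + 1) b (fun p : ℕ × ℕ × α => natR p.1) := by
  have h1 : PC a b (fun p : ℕ × ℕ × (ℕ × ℝ) => p.2.2.2 + 1) := arg.snd.add one
  exact loopN (e := fun _ => 0) (x := fun _ => 0) h1 natZero zero

theorem pc_idxN : PC (a + 1) b (fun p : ℕ × ℕ × α => idxN p.1) := by
  have h1 : PC a b (fun p : ℕ × ℕ × (ℕ × (ℝ × List ℝ)) =>
      (p.2.2.2.1 - 1, (p.2.2.2.1 - 1) :: p.2.2.2.2)) :=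
    (arg.snd.fst.sub one).pair ((arg.snd.fst.sub one).cons arg.snd.snd)
  exact (loopN (e := fun _ => 0) (x := fun p => (natR p.1, [])) h1 natZero (pc_natR.pair nil)).snd

theorem pc_eyeN : PC (a + 2) b (fun p : ℕ × ℕ × α => eyeN p.1) := by
  have h1 : PC a b (fun p : ℕ × ℕ × (ℝ × ℝ) => if p.2.2.1 ≤ p.2.2.2 then
      (if p.2.2.2 ≤ p.2.2.1 then (1 : ℝ) else 0) else 0) :=
    ifLe arg.fst arg.snd (ifLe arg.snd arg.fst one zero) zero
  have h2 : PC (a + 1) b (fun p : ℕ × ℕ × (List ℝ × ℝ) =>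
      mapN p.1 (fun j => if p.2.2.2 ≤ j then (if j ≤ p.2.2.2 then (1 : ℝ) else 0) else 0)
        p.2.2.1) := by
    have h3 := mapP (e := fun p : ℕ × ℕ × (List ℝ × ℝ) => p.2.2.2) (l := fun p => p.2.2.1) h1
      arg.snd arg.fst
    exact h3
  have h4 := mapP (e := fun p : ℕ × ℕ × α => idxN p.1) (l := fun p => idxN p.1) h2 pc_idxN pc_idxN
  exact h4

theorem pc_hd {f : ℕ × ℕ × α → List ℝ} (hf : PC a b f) : PC a b (fun p => hd (f p)) :=
  caseL (h := fun q : ℕ × ℕ × (α × ℝ × List ℝ) => q.2.2.2.1) hf zero arg.snd.fst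

theorem pc_tl {f : ℕ × ℕ × α → List ℝ} (hf : PC a b f) : PC a b (fun p => tl (f p)) :=
  caseL (h := fun q : ℕ × ℕ × (α × ℝ × List ℝ) => q.2.2.2.2) hf nil arg.snd.snd

theorem pc_trN {A : ℕ × ℕ × α → List (List ℝ)} (hA : PC (a + 2) b A) :
    PC (a + 2) b (fun p => trN p.1 (A p)) := by
  have h0 : PC a b (fun p : ℕ × ℕ × (ℕ × List ℝ) => tl p.2.2.2) := pc_tl arg.snd
  have h0' : PC a b (fun p : ℕ × ℕ × (ℕ × List ℝ) => hd p.2.2.2) := pc_hd arg.snd
  have h1 : PC (a + 1) b (fun p : ℕ × ℕ × (ℕ × (List (List ℝ) × List (List ℝ))) =>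
      (mapN p.1 tl p.2.2.2.1, mapN p.1 hd p.2.2.2.1 :: p.2.2.2.2)) :=
    (mapP (e := fun _ => 0) (l := fun p => p.2.2.2.1) h0 natZero arg.snd.fst).pair
      ((mapP (e := fun _ => 0) (l := fun p => p.2.2.2.1) h0' natZero arg.snd.fst).cons
        arg.snd.snd)
  exact rev (loopN (e := fun _ => 0) (x := fun p => (A p, [])) h1 natZero (hA.pair nil)).snd

theorem pc_maxB {s x : ℕ × ℕ × α → ℝ} (hs : PC a b s) (hx : PC a b x) :
    PC a b (fun p => maxB (s p) (x p)) :=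
  ifLe (ifLe hs hx hx hs) (zero.sub hx) (zero.sub hx) (ifLe hs hx hx hs)

theorem pc_maxN {A : ℕ × ℕ × α → List (List ℝ)} (hA : PC (a + 2) b A) :
    PC (a + 2) b (fun p => maxN p.1 (A p)) := by
  have h1 : PC (a + 1) b (fun p : ℕ × ℕ × (ℕ × (ℝ × List ℝ)) =>
      foldN p.1 (fun t x => maxB t x) p.2.2.2.1 p.2.2.2.2) :=
    fold (ε := ℕ) (f := fun p : ℕ × ℕ × (ℕ × (ℝ × ℝ)) => maxB p.2.2.2.1 p.2.2.2.2)
      (e := fun _ => 0) (pc_maxB arg.snd.fst arg.snd.snd) natZero arg.snd.fst arg.snd.snd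
  exact fold (e := fun _ => 0) (s := fun _ => 0) (l := A) h1 natZero zero hA

theorem pc_addB {s x : ℕ × ℕ × α → ℝ} (hs : PC a b s) (hx : PC a b x) :
    PC a b (fun p => addB (s p) (x p)) :=
  branch hx (hs.add hx) (hs.sub hx)

theorem pc_sumN {A : ℕ × ℕ × α → List (List ℝ)} (hA : PC (a + 2) b A) :
    PC (a + 2) b (fun p => sumN p.1 (A p)) := by
  have h1 : PC (a + 1) b (fun p : ℕ × ℕ × (ℕ × (ℝ × List ℝ)) =>
      foldN p.1 (fun t x => addB t x) p.2.2.2.1 p.2.2.2.2) :=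
    fold (ε := ℕ) (f := fun p : ℕ × ℕ × (ℕ × (ℝ × ℝ)) => addB p.2.2.2.1 p.2.2.2.2)
      (e := fun _ => 0) (pc_addB arg.snd.fst arg.snd.snd) natZero arg.snd.fst arg.snd.snd
  exact fold (e := fun _ => 0) (s := fun _ => 0) (l := A) h1 natZero zero hA

theorem pc_roundA {U B s : ℕ × ℕ × α → ℝ} {A : ℕ × ℕ × α → List (List ℝ)}
    (hU : PC (a + 2) (b + 1) U) (hB : PC (a + 2) (b + 1) B) (hs : PC (a + 2) (b + 1) s)
    (hA : PC (a + 2) (b + 1) A) :
    PC (a + 2) (b + 1) (fun p => roundA p.1 p.2.1 (U p) (B p) (s p) (A p)) := by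
  have h0 : PC (a + 1) (b + 1) (fun p : ℕ × ℕ × ((ℝ × ℝ × ℝ) × List ℝ) =>
      mapN p.1 (fun x => flo p.2.1 p.2.2.1.2.1 (p.2.2.1.1 * x / p.2.2.1.2.2)) p.2.2.2) := by
    have h00 : PC a (b + 1) (fun p : ℕ × ℕ × ((ℝ × ℝ × ℝ) × ℝ) =>
        flo p.2.1 p.2.2.1.2.1 (p.2.2.1.1 * p.2.2.2 / p.2.2.1.2.2)) :=
      pc_flo arg.fst.snd.fst ((arg.fst.fst.mul arg.snd).div arg.fst.snd.snd)
    have h01 := mapP (e := fun p : ℕ × ℕ × ((ℝ × ℝ × ℝ) × List ℝ) => p.2.2.1)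
      (l := fun p => p.2.2.2) h00 arg.fst arg.snd
    exact h01
  have h02 := mapP (e := fun p => (U p, B p, s p)) (l := A) h0 (hU.pair (hB.pair hs)) hA
  exact h02

theorem pc_inv {U B : ℕ × ℕ × α → ℝ} {A : ℕ × ℕ × α → List (List ℝ)}
    (hU : PC (a + 2) (b + 2) U) (hB : PC (a + 2) (b + 2) B) (hA : PC (a + 2) (b + 2) A) :
    PC (a + 2) (b + 2) (fun p => inv p.1 p.2.1 (U p) (B p) (A p)) := by
  have h1 : PC (a + 2) (b + 1)
      (fun p : ℕ × ℕ × ((ℝ × ℝ × List (List ℝ)) × List (List ℝ)) =>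
      newt5 p.1 p.2.1 p.2.2.1.1 p.2.2.1.2.1 p.2.2.1.2.2 p.2.2.2) :=
    pc_newt5 arg.fst.fst arg.fst.snd.fst arg.fst.snd.snd arg.snd
  exact loopL (e := fun p => (U p, B p, A p)) (x := fun p => trN p.1 (A p)) h1
    (hU.pair (hB.pair hA)) (pc_trN hA)

theorem pc_resid {U B : ℕ × ℕ × α → ℝ} {I X A : ℕ × ℕ × α → List (List ℝ)}
    (hU : PC (a + 2) (b + 1) U) (hB : PC (a + 2) (b + 1) B) (hI : PC (a + 2) (b + 1) I)
    (hX : PC (a + 2) (b + 1) X) (hA : PC (a + 2) (b + 1) A) :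
    PC (a + 2) (b + 1) (fun p => resid p.1 p.2.1 (U p) (B p) (I p) (X p) (A p)) := by
  have h0 : PC (a + 1) (b + 1) (fun p : ℕ × ℕ × (ℝ × (List ℝ × List ℝ)) =>
      zipN p.1 (fun x y => p.2.2.1 * p.2.2.1 * x - y) p.2.2.2.1 p.2.2.2.2) := by
    have h00 : PC a (b + 1) (fun p : ℕ × ℕ × (ℝ × (ℝ × ℝ)) =>
        p.2.2.1 * p.2.2.1 * p.2.2.2.1 - p.2.2.2.2) :=
      ((arg.fst.mul arg.fst).mul arg.snd.fst).sub arg.snd.snd
    have h01 := zipP (u := fun p : ℕ × ℕ × (ℝ × (List ℝ × List ℝ)) => p.2.2.2.1)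
      (v := fun p => p.2.2.2.2) (e := fun p => p.2.2.1) h00 arg.fst arg.snd.fst arg.snd.snd
    exact h01
  have h02 := zipP (e := U) (u := I) (v := fun p => mulI p.1 p.2.1 (B p) (X p) (A p)) h0 hU hI
    (pc_mulI hB hX hA)
  exact h02

theorem pc_test {e U N : ℕ × ℕ × α → ℝ} {R X : ℕ × ℕ × α → List (List ℝ)}
    (he : PC (a + 2) b e) (hU : PC (a + 2) b U) (hN : PC (a + 2) b N) (hR : PC (a + 2) b R)
    (hX : PC (a + 2) b X) :
    PC (a + 2) b (fun p => test p.1 (e p) (U p) (N p) (R p) (X p)) :=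
  ifLe ((pc_maxN hR).mul hN) (he.mul (hU.mul hU))
    (ifLe ((pc_maxN hX).mul (hN.mul hN)) (he.mul (hU.mul hU)) (zero.sub one) one) one

theorem pc_level {c : ℕ × ℕ × α → Cst} {U B : ℕ × ℕ × α → ℝ}
    (hc : PC (a + 2) (b + 2) c) (hU : PC (a + 2) (b + 2) U) (hB : PC (a + 2) (b + 2) B) :
    PC (a + 2) (b + 2) (fun p => level p.1 p.2.1 (c p) (U p) (B p)) := by
  have h1 : PC (a + 2) (b + 2)
      (fun p => roundA p.1 p.2.1 (U p) (B p) (c p).2.2.1 (c p).2.1) :=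
    pc_roundA (b := b + 1) hU hB hc.snd.snd.fst hc.snd.fst
  have h2 := pc_inv hU hB h1
  exact h2.pair (pc_test hc.fst hU hc.snd.snd.snd.fst
    (pc_resid (b := b + 1) hU hB hc.snd.snd.snd.snd h2 h1) h2)

end PC

end Pool.Agent.TH701
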