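import Pool.Agent.TH701.Cnt3

set_option autoImplicit false

noncomputable section

namespace Pool.Agent.TH701

open Finset Filter Topology

theorem central (k : ℕ) : (Nat.centralBinom k) ^ 2 * (3 * k + 1) ≤ 16 ^ k := by
  induction k with
  | zero => simp
  | succ k ih =>
    have h1 := Nat.succ_mul_centralBinom_succ k
    have h2 : (k + 1) ^ 2 * (Nat.centralBinom (k + 1) ^ 2 * (3 * (k + 1) + 1))
        = 4 * (2 * k + 1) ^ 2 * (3 * k + 4) * Nat.centralBinom k ^ 2 := by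
      calc (k + 1) ^ 2 * (Nat.centralBinom (k + 1) ^ 2 * (3 * (k + 1) + 1))
          = ((k + 1) * Nat.centralBinom (k + 1)) ^ 2 * (3 * k + 4) := by ring
        _ = _ := by rw [h1]; ring
    have h3 : 4 * (2 * k + 1) ^ 2 * (3 * k + 4) ≤ 16 * (k + 1) ^ 2 * (3 * k + 1) := by
      nlinarith [Nat.zero_le k]
    have h4 : (k + 1) ^ 2 * (Nat.centralBinom (k + 1) ^ 2 * (3 * (k + 1) + 1))
        ≤ (k + 1) ^ 2 * 16 ^ (k + 1) := by
      rw [h2]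
      calc _ ≤ 16 * (k + 1) ^ 2 * (3 * k + 1) * Nat.centralBinom k ^ 2 :=
            Nat.mul_le_mul_right _ h3
        _ = 16 * (k + 1) ^ 2 * (Nat.centralBinom k ^ 2 * (3 * k + 1)) := by ring
        _ ≤ 16 * (k + 1) ^ 2 * 16 ^ k := Nat.mul_le_mul_left _ ih
        _ = _ := by ring
    exact Nat.le_of_mul_le_mul_left h4 (by positivity)

theorem tendsto_natSqrt : Tendsto Nat.sqrt atTop atTop :=
  tendsto_atTop_atTop.2 fun b => ⟨b * b, fun _ ha => Nat.le_sqrt.2 ha⟩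

/-- the fourth root -/
def root4 (n : ℕ) : ℕ := Nat.sqrt (Nat.sqrt n)

theorem tendsto_root4 : Tendsto root4 atTop atTop := tendsto_natSqrt.comp tendsto_natSqrt

theorem root4_le (n : ℕ) : root4 n ^ 4 ≤ n := by
  have h1 := Nat.sqrt_le' (Nat.sqrt n)
  have h2 := Nat.sqrt_le' n
  calc root4 n ^ 4 = (Nat.sqrt (Nat.sqrt n) ^ 2) ^ 2 := by unfold root4; ring
    _ ≤ Nat.sqrt n ^ 2 := Nat.pow_le_pow_left h1 2
    _ ≤ n := h2

theorem le_root4 (n : ℕ) : n ≤ (root4 n + 1) ^ 4 := by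
  have h1 := Nat.succ_le_succ_sqrt' (Nat.sqrt n)
  have h2 := Nat.succ_le_succ_sqrt' n
  calc n ≤ (Nat.sqrt n + 1) ^ 2 := (Nat.le_succ n).trans h2
    _ ≤ ((Nat.sqrt (Nat.sqrt n) + 1) ^ 2) ^ 2 := Nat.pow_le_pow_left h1 2
    _ = (root4 n + 1) ^ 4 := by unfold root4; ring

theorem eventually_exp : ∀ᶠ q : ℕ in atTop, (17 * ((q : ℝ) + 1) ^ 8) ^ 4 ≤ 2 ^ q := by
  have h1 := tendsto_pow_const_div_const_pow_of_one_lt 32 (one_lt_two (α := ℝ))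
  have h2 : ∀ᶠ q : ℕ in atTop, ((q : ℝ) ^ 32 / 2 ^ q) < 1 / (17 ^ 4 * 2 ^ 32) :=
    h1.eventually (gt_mem_nhds (by positivity))
  filter_upwards [h2, eventually_ge_atTop 1] with q hq hq1
  have hq1' : (1 : ℝ) ≤ q := by exact_mod_cast hq1
  rw [div_lt_div_iff₀ (by positivity) (by positivity)] at hq
  calc (17 * ((q : ℝ) + 1) ^ 8) ^ 4 ≤ (17 * (2 * (q : ℝ)) ^ 8) ^ 4 := by
        gcongr
        linarith
    _ = (q : ℝ) ^ 32 * (17 ^ 4 * 2 ^ 32) := by ring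
    _ ≤ 2 ^ q := by linarith

theorem bound_A {n q : ℕ} (hq2 : 2 ≤ q) (h1 : q ^ 4 ≤ n) (h2 : n ≤ (q + 1) ^ 4)
    (h3 : (17 * ((q : ℝ) + 1) ^ 8) ^ 4 ≤ 2 ^ q) :
    3 * n * (17 * (n : ℝ) ^ 2) ^ (2 * q ^ 3) / 2 ^ n ≤ 1 / Real.sqrt q := by
  have hq0 : (0 : ℝ) < q := by exact_mod_cast (by omega : 0 < q)
  have hn1 : (n : ℝ) ≤ ((q : ℝ) + 1) ^ 4 := by exact_mod_cast h2
  set R : ℝ := ((q : ℝ) + 1) ^ 4 with hR
  have hR1 : 1 ≤ R := one_le_pow₀ (by linarith)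
  set Z : ℝ := 17 * ((q : ℝ) + 1) ^ 8 with hZ
  have hZR : Z = 17 * R ^ 2 := by rw [hZ, hR]; ring
  have hZ1 : 1 ≤ Z := by rw [hZR]; nlinarith
  have hA : 3 * n * (17 * (n : ℝ) ^ 2) ^ (2 * q ^ 3) / 2 ^ n ≤ Z * Z ^ (2 * q ^ 3) / 2 ^ (q ^ 4) := by
    have h5 : 3 * (n : ℝ) ≤ Z := by rw [hZR]; nlinarith
    have h6 : 17 * (n : ℝ) ^ 2 ≤ Z := by
      rw [hZR]
      have : (n : ℝ) ^ 2 ≤ R ^ 2 := pow_le_pow_left₀ (Nat.cast_nonneg n) hn1 2
      linarith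
    apply div_le_div₀ (by positivity) _ (by positivity)
    · exact pow_le_pow_right₀ (by norm_num) h1
    · exact mul_le_mul h5 (pow_le_pow_left₀ (by positivity) h6 _) (by positivity) (by positivity)
  refine hA.trans ?_
  -- square
  rw [one_div, ← Real.sqrt_inv]
  apply Real.le_sqrt_of_sq_le
  have h7 : (Z * Z ^ (2 * q ^ 3) / 2 ^ (q ^ 4)) ^ 2 = Z ^ 2 * (Z ^ 4) ^ (q ^ 3) / 2 ^ (2 * q ^ 4) := by
    rw [div_pow, mul_pow, ← pow_mul, ← pow_mul, ← pow_mul]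
    ring_nf
  rw [h7]
  have h8 : Z ^ 2 ≤ 2 ^ q := (pow_le_pow_right₀ hZ1 (by norm_num)).trans h3
  have h9 : (Z ^ 4) ^ (q ^ 3) ≤ 2 ^ (q ^ 4) := by
    calc (Z ^ 4) ^ (q ^ 3) ≤ ((2 : ℝ) ^ q) ^ (q ^ 3) := pow_le_pow_left₀ (by positivity) h3 _
      _ = 2 ^ (q ^ 4) := by rw [← pow_mul]; congr 1; ring
  have h10 : 2 * q ≤ q ^ 4 := by
    have : 2 ≤ q ^ 3 := by
      calc 2 ≤ 2 ^ 3 := by norm_num
        _ ≤ q ^ 3 := Nat.pow_le_pow_left hq2 3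
    calc 2 * q ≤ q ^ 3 * q := Nat.mul_le_mul_right _ this
      _ = q ^ 4 := by ring
  have h11 : ((q : ℝ)) ≤ 2 ^ q := by exact_mod_cast (Nat.lt_two_pow_self (n := q)).le
  calc Z ^ 2 * (Z ^ 4) ^ (q ^ 3) / 2 ^ (2 * q ^ 4)
      ≤ 2 ^ q * 2 ^ (q ^ 4) / 2 ^ (2 * q ^ 4) := by gcongr
    _ = 2 ^ q / 2 ^ (q ^ 4) := by
        rw [show 2 * q ^ 4 = q ^ 4 + q ^ 4 by ring, pow_add]
        field_simp
    _ ≤ 2 ^ q / 2 ^ (2 * q) := by
        apply div_le_div_of_nonneg_left (by positivity) (by positivity)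
        exact pow_le_pow_right₀ (by norm_num) h10
    _ = 1 / 2 ^ q := by
        rw [two_mul, pow_add]
        field_simp
    _ ≤ (q : ℝ)⁻¹ := by
        rw [one_div]
        exact inv_anti₀ hq0 h11

theorem bound_B {n q : ℕ} (hq1 : 1 ≤ q) (h2 : n ≤ (q + 1) ^ 4) :
    ((n : ℝ) / ((2 * q ^ 3 : ℕ) : ℝ)) * (((2 * q ^ 3).choose ((2 * q ^ 3) / 2) : ℝ)
      / 2 ^ (2 * q ^ 3)) ≤ 5 / Real.sqrt q := by
  have hq1' : (1 : ℝ) ≤ q := by exact_mod_cast hq1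
  have hq0 : (0 : ℝ) < q := by linarith
  have hn1 : (n : ℝ) ≤ ((q : ℝ) + 1) ^ 4 := by exact_mod_cast h2
  have hn2 : (n : ℝ) ≤ 16 * (q : ℝ) ^ 4 := by
    calc (n : ℝ) ≤ ((q : ℝ) + 1) ^ 4 := hn1
      _ ≤ (2 * (q : ℝ)) ^ 4 := by gcongr; linarith
      _ = _ := by ring
  have hdiv : (2 * q ^ 3) / 2 = q ^ 3 := by omega
  have hch : (2 * q ^ 3).choose ((2 * q ^ 3) / 2) = Nat.centralBinom (q ^ 3) := by
    rw [hdiv]; rfl
  rw [hch]
  set k := q ^ 3 with hk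
  have hcen : ((Nat.centralBinom k : ℝ)) ^ 2 * (3 * k + 1) ≤ 16 ^ k := by
    exact_mod_cast central k
  have hkr : (k : ℝ) = (q : ℝ) ^ 3 := by rw [hk]; push_cast; ring
  have hk0 : (0 : ℝ) < k := by rw [hkr]; positivity
  have h5 : (5 : ℝ) / Real.sqrt q = Real.sqrt (25 / q) := by
    rw [Real.sqrt_div (by norm_num), show (25 : ℝ) = 5 ^ 2 by norm_num, Real.sqrt_sq (by norm_num)]
  rw [h5]
  apply Real.le_sqrt_of_sq_le
  have h6 : (((n : ℝ) / ((2 * k : ℕ) : ℝ)) * ((Nat.centralBinom k : ℝ) / 2 ^ (2 * k))) ^ 2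
      = ((n : ℝ) ^ 2 / (4 * k ^ 2)) * ((Nat.centralBinom k : ℝ) ^ 2 / 16 ^ k) := by
    push_cast
    rw [mul_pow, div_pow, div_pow, ← pow_mul, show 2 * k * 2 = 4 * k by ring, pow_mul,
      show (2 : ℝ) ^ 4 = 16 by norm_num]
    ring
  rw [h6]
  have h7 : (Nat.centralBinom k : ℝ) ^ 2 / 16 ^ k ≤ 1 / (3 * k) := by
    rw [div_le_div_iff₀ (by positivity) (by positivity)]
    nlinarith [sq_nonneg (Nat.centralBinom k : ℝ)]
  have h8 : (n : ℝ) ^ 2 / (4 * k ^ 2) ≤ 64 * (q : ℝ) ^ 2 := by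
    rw [div_le_iff₀ (by positivity), hkr]
    calc (n : ℝ) ^ 2 ≤ (16 * (q : ℝ) ^ 4) ^ 2 := pow_le_pow_left₀ (Nat.cast_nonneg n) hn2 2
      _ = _ := by ring
  calc _ ≤ 64 * (q : ℝ) ^ 2 * (1 / (3 * k)) := mul_le_mul h8 h7 (by positivity) (by positivity)
    _ = (64 / 3) / q := by rw [hkr]; field_simp
    _ ≤ 25 / q := by
        apply div_le_div_of_nonneg_right _ hq0.le
        norm_num

open Classical in
/-- **Sign matrices are well conditioned with high probability** (counting form). -/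
theorem tendsto_bad {e : Bool → ℝ} (he : 1 ≤ e true - e false) (he1 : ∀ b, |e b| ≤ 1) :
    Tendsto (fun n : ℕ => (#{w : Fin n → Fin n → Bool | Bad n e (1 / (n : ℝ) ^ 5) w} : ℝ)
      / (2 ^ n) ^ n) atTop (𝓝 0) := by
  have hlim : Tendsto (fun n : ℕ => 6 / Real.sqrt (root4 n : ℝ)) atTop (𝓝 0) := by
    apply Tendsto.div_atTop tendsto_const_nhds
    exact Real.tendsto_sqrt_atTop.comp (tendsto_natCast_atTop_atTop.comp tendsto_root4)
  apply squeeze_zero' _ _ hlim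
  · exact Eventually.of_forall fun n => by positivity
  · filter_upwards [tendsto_root4.eventually eventually_exp,
      tendsto_root4.eventually (eventually_ge_atTop 2), eventually_ge_atTop 12] with n h1 h2 h3
    set q := root4 n with hq
    have hq4 : q ^ 4 ≤ n := root4_le n
    have hn4 : n ≤ (q + 1) ^ 4 := le_root4 n
    have hm1 : 1 ≤ 2 * q ^ 3 := by
      have : 1 ≤ q ^ 3 := Nat.one_le_pow _ _ (by omega)
      omega
    have hmn : 2 * q ^ 3 ≤ n := by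
      calc 2 * q ^ 3 ≤ q * q ^ 3 := Nat.mul_le_mul_right _ h2
        _ = q ^ 4 := by ring
        _ ≤ n := hq4
    have h3' : (12 : ℝ) ≤ n := by exact_mod_cast h3
    have hτ : 128 * (n : ℝ) ^ 3 * (1 / (n : ℝ) ^ 5) < 1 := by
      have h5 : 128 * (n : ℝ) ^ 3 * (1 / (n : ℝ) ^ 5) = 128 / (n : ℝ) ^ 2 := by
        field_simp
      rw [h5, div_lt_one (by positivity)]
      nlinarith
    have h4 := count_bad (n := n) (m := 2 * q ^ 3) (by omega) hm1 hmn he he1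
      (τ := 1 / (n : ℝ) ^ 5) (by positivity) hτ
    have h5 := bound_A h2 hq4 hn4 h1
    have h6 := bound_B (n := n) (q := q) (by omega) hn4
    calc _ ≤ _ := h4
      _ ≤ 1 / Real.sqrt q + 5 / Real.sqrt q := add_le_add h5 h6
      _ = 6 / Real.sqrt q := by ring

end Pool.Agent.TH701
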