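import Mathlib

set_option autoImplicit false

noncomputable section

namespace Pool.Agent.TH701

open Finset

/-- scalar product of a row (coded by coin tosses) with a vector -/
def rs {n : ℕ} (e : Bool → ℝ) (r : Fin n → Bool) (y : Fin n → ℝ) : ℝ := ∑ i, e (r i) * y i

/-- change the coin toss `j` -/
def flipAt {n : ℕ} (j : Fin n) (r : Fin n → Bool) : Fin n → Bool := Function.update r j (!r j)

theorem flipAt_inv {n : ℕ} (j : Fin n) : Function.Involutive (flipAt j) := by
  intro r
  unfold flipAt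
  simp

theorem one_le_abs_sub {e : Bool → ℝ} (he : 1 ≤ e true - e false) (b : Bool) :
    1 ≤ |e (!b) - e b| := by
  cases b
  · simpa using he.trans (le_abs_self _)
  · rw [abs_sub_comm]
    simpa using he.trans (le_abs_self _)

theorem half {n : ℕ} {e : Bool → ℝ} (he : 1 ≤ e true - e false) (y : Fin n → ℝ) (j : Fin n)
    (hj : 1 / 2 ≤ |y j|) {η : ℝ} (hη : η < 1 / 4) :
    2 * #{r : Fin n → Bool | |rs e r y| ≤ η} ≤ 2 ^ n := by
  classical
  set S : Finset (Fin n → Bool) := {r | |rs e r y| ≤ η} with hS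
  have hinj : Function.Injective (flipAt j) := (flipAt_inv j).injective
  have hdis : Disjoint S (S.image (flipAt j)) := by
    rw [Finset.disjoint_left]
    intro r hr hr'
    obtain ⟨r0, hr0, rfl⟩ := Finset.mem_image.1 hr'
    have h1 : |rs e r0 y| ≤ η := (mem_filter.1 hr0).2
    have h2 : |rs e (flipAt j r0) y| ≤ η := (mem_filter.1 hr).2
    have h3 : rs e (flipAt j r0) y - rs e r0 y = (e (!r0 j) - e (r0 j)) * y j := by
      unfold rs
      rw [← sum_sub_distrib, Finset.sum_eq_single j]
      · simp [flipAt]; ring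
      · intro i _ hi; simp [flipAt, Function.update_of_ne hi]
      · simp
    have h4 := one_le_abs_sub he (r0 j)
    have h5 : 1 / 2 ≤ |rs e (flipAt j r0) y - rs e r0 y| := by
      rw [h3, abs_mul]
      nlinarith [abs_nonneg (y j)]
    have h6 := abs_sub (rs e (flipAt j r0) y) (rs e r0 y)
    linarith
  calc 2 * #S = #S + #(S.image (flipAt j)) := by rw [card_image_of_injective _ hinj]; ring
    _ = #(S ∪ S.image (flipAt j)) := (card_union_of_disjoint hdis).symm
    _ ≤ Fintype.card (Fin n → Bool) := card_le_univ _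
    _ = 2 ^ n := by simp

theorem blocks {ι : Type} [Fintype ι] [DecidableEq ι] {n : ℕ} {e : Bool → ℝ}
    (he : 1 ≤ e true - e false) (y : Fin n → ℝ) (j : Fin n)
    (hj : 1 / 2 ≤ |y j|) {η : ℝ} (hη : η < 1 / 4) :
    2 ^ Fintype.card ι * #{w : ι → Fin n → Bool | ∀ k, |rs e (w k) y| ≤ η}
      ≤ (2 ^ n) ^ Fintype.card ι := by
  classical
  set S : Finset (Fin n → Bool) := {r | |rs e r y| ≤ η} with hS
  have : ({w : ι → Fin n → Bool | ∀ k, |rs e (w k) y| ≤ η} : Finset _)
      = Fintype.piFinset (fun _ : ι => S) := by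
    ext w; simp [hS, Fintype.mem_piFinset]
  rw [this, Fintype.card_piFinset, prod_const, card_univ, ← mul_pow]
  exact Nat.pow_le_pow_left (half he y j hj hη) _

/-- the points of the net -/
def netV {n m N : ℕ} (q : (Fin m → Fin n) × (Fin m → Fin (2 * N + 1))) : Fin n → ℝ :=
  open Classical in
  fun i => if h : ∃ k, q.1 k = i then ((q.2 h.choose : ℕ) : ℝ) / N - 1 else 0

theorem exists_cover {n m : ℕ} (hn : 1 ≤ n) (T : Finset (Fin n)) (hT : #T ≤ m) :
    ∃ f : Fin m → Fin n, ∀ i ∈ T, ∃ k, f k = i := by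
  classical
  refine ⟨fun k => if h : (k : ℕ) < #T then (T.equivFin.symm ⟨k, h⟩ : Fin n) else ⟨0, hn⟩, ?_⟩
  intro i hi
  refine ⟨⟨T.equivFin ⟨i, hi⟩, (T.equivFin ⟨i, hi⟩).2.trans_le hT⟩, ?_⟩
  simp

theorem exists_net {n m N : ℕ} (hn : 1 ≤ n) (hN : 1 ≤ N) (y : Fin n → ℝ) (hy : ‖y‖ = 1)
    (hm : #{i | 1 / (N : ℝ) ≤ |y i|} ≤ m) :
    ∃ q : (Fin m → Fin n) × (Fin m → Fin (2 * N + 1)),
      (∀ i, |netV q i - y i| ≤ 1 / (N : ℝ)) ∧ ∃ j, 1 / 2 ≤ |netV q j| := by
  classical
  have hN' : (1 : ℝ) ≤ N := by exact_mod_cast hN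
  have hN0 : (0 : ℝ) < N := by linarith
  have hy1 : ∀ i, |y i| ≤ 1 := by
    intro i
    have := norm_le_pi_norm y i
    rwa [hy, Real.norm_eq_abs] at this
  obtain ⟨f, hf⟩ := exists_cover hn _ hm
  have hround : ∀ t : ℝ, |t| ≤ 1 → (0 : ℤ) ≤ round ((N : ℝ) * t) + N ∧
      round ((N : ℝ) * t) + N ≤ 2 * N := by
    intro t ht
    have h1 := abs_le.1 ht
    constructor
    · have : (-(N : ℤ)) ≤ round ((N : ℝ) * t) := by
        rw [round_eq, Int.le_floor]
        push_cast
        nlinarith
      linarith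
    · have : round ((N : ℝ) * t) < (N : ℤ) + 1 := by
        rw [round_eq, Int.floor_lt]
        push_cast
        nlinarith
      omega
  let v : Fin m → Fin (2 * N + 1) := fun k =>
    ⟨(round ((N : ℝ) * y (f k)) + N).toNat, by
      have := hround (y (f k)) (hy1 _)
      omega⟩
  have hval : ∀ i, (∃ k, f k = i) → netV (f, v) i = round ((N : ℝ) * y i) / N := by
    intro i hi
    unfold netV
    have hi' : ∃ k, (f, v).1 k = i := hi
    rw [dif_pos hi']
    have h1 : f hi'.choose = i := hi'.choose_spec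
    have h2 : ((v hi'.choose : ℕ) : ℝ) = ((round ((N : ℝ) * y i) + N : ℤ) : ℝ) := by
      have h3 : ((v hi'.choose : ℕ) : ℤ) = round ((N : ℝ) * y i) + N := by
        simp only [v]
        rw [h1]
        exact Int.toNat_of_nonneg (hround _ (hy1 _)).1
      exact_mod_cast h3
    show ((v hi'.choose : ℕ) : ℝ) / N - 1 = _
    rw [h2]
    push_cast
    field_simp
    ring
  refine ⟨(f, v), ?_, ?_⟩
  · intro i
    by_cases hi : ∃ k, f k = i
    · rw [hval i hi]
      have h1 := abs_sub_round ((N : ℝ) * y i)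
      have h2 : (round ((N : ℝ) * y i) : ℝ) / N - y i = -((N : ℝ) * y i - round ((N : ℝ) * y i)) / N := by
        field_simp
        ring
      rw [h2, abs_div, abs_neg, abs_of_pos hN0]
      apply div_le_div_of_nonneg_right _ hN0.le
      linarith
    · have h1 : netV (f, v) i = 0 := by
        unfold netV
        rw [dif_neg hi]
      rw [h1, zero_sub, abs_neg]
      by_contra hlt
      apply hi
      apply hf
      rw [mem_filter]
      exact ⟨mem_univ _, (not_le.1 hlt).le⟩
  · -- the largest coordinate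
    obtain ⟨j, hj⟩ : ∃ j, |y j| = 1 := by
      by_contra hno
      have hlt : ‖y‖ < 1 := by
        rw [pi_norm_lt_iff zero_lt_one]
        intro i
        rw [Real.norm_eq_abs]
        exact lt_of_le_of_ne (hy1 i) fun h => hno ⟨i, h⟩
      linarith
    refine ⟨j, ?_⟩
    have hjc : ∃ k, f k = j := by
      apply hf
      rw [mem_filter]
      refine ⟨mem_univ _, ?_⟩
      rw [hj, div_le_one hN0]
      exact hN'
    rw [hval j hjc]
    have h1 : |(round ((N : ℝ) * y j) : ℝ) / N| = 1 := by
      rcases (abs_eq zero_le_one).1 hj with h | h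
      · rw [h, mul_one]
        have : round (N : ℝ) = (N : ℤ) := round_natCast N
        rw [this]
        simp [hN0.ne']
      · rw [h]
        have : round ((N : ℝ) * -1) = -(N : ℤ) := by
          rw [show ((N : ℝ) * -1) = ((-(N : ℤ) : ℤ) : ℝ) by push_cast; ring, round_intCast]
        rw [this]
        push_cast
        rw [neg_div, abs_neg, div_self hN0.ne', abs_one]
    rw [h1]
    norm_num

end Pool.Agent.TH701
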