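import Pool.Agent.TH701.Cnt

set_option autoImplicit false

noncomputable section

namespace Pool.Agent.TH701

open Finset

open Classical in
/-- Union bound over the net: vectors with few large coordinates. -/
theorem net_count {ι : Type} [Fintype ι] [DecidableEq ι] {n m N : ℕ} (hn : 1 ≤ n) (hN : 1 ≤ N)
    {e : Bool → ℝ} (he : 1 ≤ e true - e false) (he1 : ∀ b, |e b| ≤ 1) {τ : ℝ}
    (hτ : τ + n / N < 1 / 4) :
    2 ^ Fintype.card ι * #{w : ι → Fin n → Bool | ∃ y : Fin n → ℝ, ‖y‖ = 1 ∧
        #{i | 1 / (N : ℝ) ≤ |y i|} ≤ m ∧ ∀ k, |rs e (w k) y| ≤ τ}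
      ≤ (n * (2 * N + 1)) ^ m * (2 ^ n) ^ Fintype.card ι := by
  set Q : Finset ((Fin m → Fin n) × (Fin m → Fin (2 * N + 1))) :=
    univ.filter fun q => ∃ j, 1 / 2 ≤ |netV q j| with hQ
  have hQc : #Q ≤ (n * (2 * N + 1)) ^ m := by
    refine (card_le_univ _).trans ?_
    rw [Fintype.card_prod, Fintype.card_fun, Fintype.card_fun, Fintype.card_fin, Fintype.card_fin,
      Fintype.card_fin, mul_pow]
  have hsub : ({w : ι → Fin n → Bool | ∃ y : Fin n → ℝ, ‖y‖ = 1 ∧
        #{i | 1 / (N : ℝ) ≤ |y i|} ≤ m ∧ ∀ k, |rs e (w k) y| ≤ τ} : Finset _)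
      ⊆ Q.biUnion fun q => {w : ι → Fin n → Bool | ∀ k, |rs e (w k) (netV q)| ≤ τ + n / N} := by
    intro w hw
    obtain ⟨y, hy1, hy2, hy3⟩ := (mem_filter.1 hw).2
    obtain ⟨q, hq1, hq2⟩ := exists_net hn hN y hy1 hy2
    rw [mem_biUnion]
    refine ⟨q, mem_filter.2 ⟨mem_univ _, hq2⟩, mem_filter.2 ⟨mem_univ _, fun k => ?_⟩⟩
    have h1 : rs e (w k) (netV q) = rs e (w k) y + ∑ i, e (w k i) * (netV q i - y i) := by
      unfold rs
      rw [← sum_add_distrib]
      exact sum_congr rfl fun i _ => by ring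
    have h2 : |∑ i, e (w k i) * (netV q i - y i)| ≤ n / N := by
      calc |∑ i, e (w k i) * (netV q i - y i)| ≤ ∑ i, |e (w k i) * (netV q i - y i)| :=
            abs_sum_le_sum_abs _ _
        _ ≤ ∑ _i : Fin n, 1 / (N : ℝ) := by
            apply sum_le_sum
            intro i _
            rw [abs_mul]
            have h3 := he1 (w k i)
            have h4 := hq1 i
            calc _ ≤ 1 * (1 / (N : ℝ)) := mul_le_mul h3 h4 (abs_nonneg _) zero_le_one
              _ = _ := one_mul _
        _ = n / N := by simp; ring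
    rw [h1]
    exact (abs_add_le _ _).trans (add_le_add (hy3 k) h2)
  calc _ ≤ 2 ^ Fintype.card ι * ∑ q ∈ Q, #{w : ι → Fin n → Bool |
          ∀ k, |rs e (w k) (netV q)| ≤ τ + n / N} :=
        Nat.mul_le_mul_left _ ((card_le_card hsub).trans card_biUnion_le)
    _ = ∑ q ∈ Q, 2 ^ Fintype.card ι * #{w : ι → Fin n → Bool |
          ∀ k, |rs e (w k) (netV q)| ≤ τ + n / N} := by rw [mul_sum]
    _ ≤ ∑ q ∈ Q, (2 ^ n) ^ Fintype.card ι := by
        apply sum_le_sum
        intro q hq
        obtain ⟨j, hj⟩ := (mem_filter.1 hq).2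
        exact blocks he (netV q) j hj hτ
    _ = #Q * (2 ^ n) ^ Fintype.card ι := by rw [sum_const, smul_eq_mul]
    _ ≤ _ := Nat.mul_le_mul_right _ hQc

/-- count in a product by slices -/
theorem card_filter_prod {α β : Type} [Fintype α] [Fintype β] (P : α × β → Prop)
    [DecidablePred P] : #{x : α × β | P x} = ∑ b : β, #{a : α | P (a, b)} := by
  rw [card_filter, Fintype.sum_prod_type_right]
  exact sum_congr rfl fun b _ => (card_filter _ _).symm

/-- the tosses built from a set `F ⊆ T` and the tosses outside `T` -/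
def build {n : ℕ} (u : Fin n → ℝ) (T : Finset (Fin n))
    (x : Finset {i // i ∈ T} × ({i // ¬ i ∈ T} → Bool)) : Fin n → Bool :=
  open Classical in
  fun i => if h : i ∈ T then (if (⟨i, h⟩ : {i // i ∈ T}) ∈ x.1 then decide (0 < u i)
    else !decide (0 < u i)) else x.2 ⟨i, h⟩

theorem build_surj {n : ℕ} (u : Fin n → ℝ) (T : Finset (Fin n)) :
    Function.Surjective (build u T) := by
  classical
  intro r
  refine ⟨(univ.filter fun i => r i = decide (0 < u i), fun i => r i), ?_⟩
  funext i
  unfold build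
  by_cases h : i ∈ T
  · simp only [h, dif_pos, mem_filter, mem_univ, true_and]
    split_ifs with h1
    · exact h1.symm
    · cases hr : r i <;> cases hd : decide (0 < u i) <;> simp_all
  · simp [h]

theorem pos_term {e : Bool → ℝ} (he : 1 ≤ e true - e false) (t : ℝ) :
    |t| ≤ e (decide (0 < t)) * t - e (!decide (0 < t)) * t := by
  by_cases h : 0 < t
  · simp only [h, decide_true, Bool.not_true]
    rw [abs_of_pos h]
    nlinarith
  · simp only [h, decide_false, Bool.not_false]
    rw [abs_of_nonpos (not_lt.1 h)]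
    nlinarith [not_lt.1 h]

/-- **Erdős–Littlewood–Offord** (via Sperner's theorem). -/
theorem littlewood_offord {n : ℕ} {e : Bool → ℝ} (he : 1 ≤ e true - e false) (u : Fin n → ℝ)
    {ρ η : ℝ} (hη : 2 * η < ρ) (T : Finset (Fin n)) (hT : ∀ i ∈ T, ρ ≤ |u i|) :
    #{r : Fin n → Bool | |rs e r u| ≤ η} ≤ (#T).choose (#T / 2) * 2 ^ (n - #T) := by
  classical
  set S : Finset (Fin n → Bool) := {r | |rs e r u| ≤ η} with hS
  have h1 : #S ≤ #{x : Finset {i // i ∈ T} × ({i // ¬ i ∈ T} → Bool) | build u T x ∈ S} := by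
    have h2 : S ⊆ (univ.filter fun x : Finset {i // i ∈ T} × ({i // ¬ i ∈ T} → Bool) =>
        build u T x ∈ S).image (build u T) := by
      intro r hr
      obtain ⟨x, rfl⟩ := build_surj u T r
      exact mem_image_of_mem _ (mem_filter.2 ⟨mem_univ _, hr⟩)
    exact (card_le_card h2).trans card_image_le
  rw [card_filter_prod] at h1
  refine h1.trans ?_
  have h3 : ∀ q : {i // ¬ i ∈ T} → Bool,
      #{F : Finset {i // i ∈ T} | build u T (F, q) ∈ S} ≤ (#T).choose (#T / 2) := by
    intro q
    have h4 : IsAntichain (· ⊆ ·)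
        ((({F : Finset {i // i ∈ T} | build u T (F, q) ∈ S} : Finset _)) :
          Set (Finset {i // i ∈ T})) := by
      intro F hF F' hF' hne hsub
      have hF1 : |rs e (build u T (F, q)) u| ≤ η := (mem_filter.1 (mem_filter.1 hF).2).2
      have hF2 : |rs e (build u T (F', q)) u| ≤ η := (mem_filter.1 (mem_filter.1 hF').2).2
      obtain ⟨i, hi, hi'⟩ : ∃ i, i ∈ F' ∧ i ∉ F := by
        by_contra hno
        push Not at hno
        exact hne (Finset.Subset.antisymm hsub hno)
      have h5 : ρ ≤ rs e (build u T (F', q)) u - rs e (build u T (F, q)) u := by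
        unfold rs
        rw [← sum_sub_distrib]
        have h6 : ∀ j : Fin n, 0 ≤ e (build u T (F', q) j) * u j - e (build u T (F, q) j) * u j := by
          intro j
          unfold build
          by_cases hj : j ∈ T
          · simp only [hj, dif_pos]
            by_cases hjF : (⟨j, hj⟩ : {i // i ∈ T}) ∈ F
            · have hjF' := hsub hjF
              simp [hjF, hjF']
            · by_cases hjF' : (⟨j, hj⟩ : {i // i ∈ T}) ∈ F'
              · simp only [hjF, hjF', if_true, if_false]
                exact (abs_nonneg _).trans (pos_term he (u j))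
              · simp [hjF, hjF']
          · simp [hj]
        have h7 : ρ ≤ e (build u T (F', q) i) * u i - e (build u T (F, q) i) * u i := by
          unfold build
          have hiT : (i : Fin n) ∈ T := i.2
          simp only [hiT, dif_pos, Subtype.coe_eta, hi, hi', if_true, if_false]
          exact (hT i hiT).trans (pos_term he (u i))
        exact h7.trans (single_le_sum (f := fun j => e (build u T (F', q) j) * u j
          - e (build u T (F, q) j) * u j) (fun j _ => h6 j) (mem_univ (i : Fin n)))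
      have h8 := (abs_le.1 hF1).1
      have h9 := (abs_le.1 hF2).2
      linarith
    have h10 := h4.sperner
    rwa [Fintype.card_coe] at h10
  calc _ ≤ ∑ _q : {i // ¬ i ∈ T} → Bool, (#T).choose (#T / 2) := sum_le_sum fun q _ => h3 q
    _ = 2 ^ (n - #T) * (#T).choose (#T / 2) := by
        rw [sum_const, card_univ, smul_eq_mul, Fintype.card_fun, Fintype.card_bool]
        congr 2
        rw [Fintype.card_subtype_compl]
        simp
    _ = _ := mul_comm _ _

end Pool.Agent.TH701
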