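import Pool.Agent.TH701.Cnt2

set_option autoImplicit false

noncomputable section

namespace Pool.Agent.TH701

open Finset

/-- a unit vector orthogonal to all rows but one -/
theorem exists_normal {n : ℕ} (i : Fin n) (M : {k : Fin n // k ≠ i} → Fin n → ℝ) :
    ∃ u : Fin n → ℝ, ‖u‖ = 1 ∧ ∀ k, ∑ j, M k j * u j = 0 := by
  classical
  let A : Matrix (Fin n) (Fin n) ℝ := fun a j => if h : a ≠ i then M ⟨a, h⟩ j else 0
  have hdet : A.det = 0 := Matrix.det_eq_zero_of_row_eq_zero i fun j => by simp [A]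
  obtain ⟨v, hv0, hv⟩ := Matrix.exists_mulVec_eq_zero_iff.2 hdet
  refine ⟨‖v‖⁻¹ • v, ?_, fun k => ?_⟩
  · rw [norm_smul, norm_inv, norm_norm, inv_mul_cancel₀ (norm_ne_zero_iff.2 hv0)]
  · have h1 : (A.mulVec v) k = 0 := by rw [hv]; rfl
    have h2 : (A.mulVec v) k = ∑ j, M k j * v j := by
      simp only [Matrix.mulVec, dotProduct, A]
      apply sum_congr rfl
      intro j _
      rw [dif_pos k.2]
    rw [h2] at h1
    calc ∑ j, M k j * (‖v‖⁻¹ • v) j = ‖v‖⁻¹ * ∑ j, M k j * v j := by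
          rw [mul_sum]
          exact sum_congr rfl fun j _ => by simp; ring
      _ = 0 := by rw [h1, mul_zero]

theorem key_identity {n : ℕ} (A : Fin n → Fin n → ℝ) (x u : Fin n → ℝ) (i : Fin n) {τ : ℝ}
    (hτ : ∀ j, |∑ k, x k * A k j| ≤ τ) (hu : ‖u‖ = 1)
    (hort : ∀ k, k ≠ i → ∑ j, A k j * u j = 0) :
    |x i| * |∑ j, A i j * u j| ≤ n * τ := by
  have h1 : x i * ∑ j, A i j * u j = ∑ j, (∑ k, x k * A k j) * u j := by
    calc x i * ∑ j, A i j * u j = ∑ k, x k * ∑ j, A k j * u j := by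
          exact (Finset.sum_eq_single (f := fun k => x k * ∑ j, A k j * u j) i
            (fun k _ hk => by rw [hort k hk, mul_zero]) (by simp)).symm
      _ = ∑ k, ∑ j, x k * (A k j * u j) := by simp_rw [mul_sum]
      _ = ∑ j, ∑ k, x k * (A k j * u j) := sum_comm
      _ = ∑ j, (∑ k, x k * A k j) * u j := by
          apply sum_congr rfl
          intro j _
          rw [sum_mul]
          exact sum_congr rfl fun k _ => by ring
  rw [← abs_mul, h1]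
  calc |∑ j, (∑ k, x k * A k j) * u j| ≤ ∑ j, |(∑ k, x k * A k j) * u j| :=
        abs_sum_le_sum_abs _ _
    _ ≤ ∑ _j : Fin n, τ := by
        apply sum_le_sum
        intro j _
        rw [abs_mul]
        have h2 : |u j| ≤ 1 := by
          have := norm_le_pi_norm u j
          rwa [hu, Real.norm_eq_abs] at this
        have h3 := hτ j
        calc _ ≤ |∑ k, x k * A k j| * 1 := mul_le_mul_of_nonneg_left h2 (abs_nonneg _)
          _ ≤ τ := by linarith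
    _ = n * τ := by simp

open Classical in
theorem count_E {n m N : ℕ} {e : Bool → ℝ} (he : 1 ≤ e true - e false) (i : Fin n)
    (U : ({k : Fin n // k ≠ i} → Fin n → Bool) → Fin n → ℝ) (hU1 : ∀ q, ‖U q‖ = 1)
    (hU2 : ∀ q k, rs e (q k) (U q) = 0) {η : ℝ} (hη : 2 * η < 1 / (N : ℝ)) :
    #{w : Fin n → Fin n → Bool | |rs e (w i) (U fun k => w k)| ≤ η}
      ≤ #{q : {k : Fin n // k ≠ i} → Fin n → Bool | ∃ y : Fin n → ℝ, ‖y‖ = 1 ∧
        #{a | 1 / (N : ℝ) ≤ |y a|} ≤ m ∧ ∀ k, |rs e (q k) y| ≤ 0} * 2 ^ n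
        + (2 ^ n) ^ (n - 1) * (m.choose (m / 2) * 2 ^ (n - m)) := by
  have h1 : #{w : Fin n → Fin n → Bool | |rs e (w i) (U fun k => w k)| ≤ η}
      ≤ #{x : (Fin n → Bool) × ({k : Fin n // k ≠ i} → Fin n → Bool) |
        |rs e x.1 (U x.2)| ≤ η} := by
    apply card_le_card_of_injOn (Equiv.funSplitAt i (Fin n → Bool))
    · intro w hw
      have hw' := (mem_filter.1 hw).2
      exact mem_filter.2 ⟨mem_univ _, hw'⟩
    · exact (Equiv.injective _).injOn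
  refine h1.trans ?_
  rw [card_filter_prod]
  have h2 : ∀ q : {k : Fin n // k ≠ i} → Fin n → Bool,
      #{r : Fin n → Bool | |rs e r (U q)| ≤ η} ≤
        (if (∃ y : Fin n → ℝ, ‖y‖ = 1 ∧
          #{a | 1 / (N : ℝ) ≤ |y a|} ≤ m ∧ ∀ k, |rs e (q k) y| ≤ 0) then 2 ^ n else 0)
        + m.choose (m / 2) * 2 ^ (n - m) := by
    intro q
    split_ifs with hq
    · refine (card_le_univ _).trans ?_
      rw [Fintype.card_fun, Fintype.card_bool, Fintype.card_fin]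
      exact Nat.le_add_right _ _
    · have h3 : m ≤ #{a | 1 / (N : ℝ) ≤ |U q a|} := by
        by_contra hlt
        exact hq ⟨U q, hU1 q, (not_le.1 hlt).le, fun k => by rw [hU2 q k, abs_zero]⟩
      obtain ⟨T, hT1, hT2⟩ := exists_subset_card_eq h3
      have h4 := littlewood_offord he (U q) hη T (fun a ha => (mem_filter.1 (hT1 ha)).2)
      rw [hT2] at h4
      rw [zero_add]
      convert h4
  calc _ ≤ ∑ q : {k : Fin n // k ≠ i} → Fin n → Bool, ((if (∃ y : Fin n → ℝ, ‖y‖ = 1 ∧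
          #{a | 1 / (N : ℝ) ≤ |y a|} ≤ m ∧ ∀ k, |rs e (q k) y| ≤ 0) then 2 ^ n else 0)
        + m.choose (m / 2) * 2 ^ (n - m)) := sum_le_sum fun q _ => h2 q
    _ = _ := by
        rw [sum_add_distrib, ← sum_filter, sum_const, sum_const, smul_eq_mul, smul_eq_mul,
          card_univ, Fintype.card_fun, Fintype.card_fun, Fintype.card_bool, Fintype.card_fin]
        congr 3
        simp

/-- the matrices which nearly kill a unit vector from the left -/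
def Bad (n : ℕ) (e : Bool → ℝ) (τ : ℝ) (w : Fin n → Fin n → Bool) : Prop :=
  ∃ x : Fin n → ℝ, ‖x‖ = 1 ∧ ∀ j, |∑ i, x i * e (w i j)| ≤ τ

open Classical in
theorem count_bad1 {n m N : ℕ} (hn : 1 ≤ n) (hN : 1 ≤ N)
    {e : Bool → ℝ} (he : 1 ≤ e true - e false) (he1 : ∀ b, |e b| ≤ 1) {τ : ℝ}
    (hτ : τ + n / N < 1 / 4) :
    2 ^ n * #{w : Fin n → Fin n → Bool | ∃ x : Fin n → ℝ, ‖x‖ = 1 ∧
        #{i | 1 / (N : ℝ) ≤ |x i|} ≤ m ∧ ∀ j, |∑ i, x i * e (w i j)| ≤ τ}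
      ≤ (n * (2 * N + 1)) ^ m * (2 ^ n) ^ n := by
  have h1 := net_count (ι := Fin n) (m := m) hn hN he he1 hτ
  rw [Fintype.card_fin] at h1
  refine le_trans (Nat.mul_le_mul_left _ ?_) h1
  apply card_le_card_of_injOn (fun (w : Fin n → Fin n → Bool) (j i : Fin n) => w i j)
  · intro w hw
    obtain ⟨x, hx1, hx2, hx3⟩ := (mem_filter.1 hw).2
    refine mem_filter.2 ⟨mem_univ _, x, hx1, hx2, fun j => ?_⟩
    have h2 : rs e (fun i => w i j) x = ∑ i, x i * e (w i j) := by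
      unfold rs
      exact sum_congr rfl fun i _ => mul_comm _ _
    show |rs e (fun i => w i j) x| ≤ τ
    rw [h2]
    exact hx3 j
  · intro w _ w' _ h
    funext i j
    exact congrFun (congrFun h j) i

open Classical in
theorem count_bad2 {n m N : ℕ} (hN : 1 ≤ N)
    {e : Bool → ℝ} (he : 1 ≤ e true - e false) {τ : ℝ}
    (hτ : 2 * (n * τ * N) < 1 / (N : ℝ)) :
    m * #{w : Fin n → Fin n → Bool | ∃ x : Fin n → ℝ, ‖x‖ = 1 ∧
        m ≤ #{i | 1 / (N : ℝ) ≤ |x i|} ∧ ∀ j, |∑ i, x i * e (w i j)| ≤ τ}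
      ≤ ∑ i : Fin n, (#{q : {k : Fin n // k ≠ i} → Fin n → Bool | ∃ y : Fin n → ℝ, ‖y‖ = 1 ∧
        #{a | 1 / (N : ℝ) ≤ |y a|} ≤ m ∧ ∀ k, |rs e (q k) y| ≤ 0} * 2 ^ n
        + (2 ^ n) ^ (n - 1) * (m.choose (m / 2) * 2 ^ (n - m))) := by
  have hN0 : (0 : ℝ) < N := by exact_mod_cast hN
  have hU : ∀ (i : Fin n) (q : {k : Fin n // k ≠ i} → Fin n → Bool), ∃ u : Fin n → ℝ,
      ‖u‖ = 1 ∧ ∀ k, rs e (q k) u = 0 := fun i q => exists_normal i fun k j => e (q k j)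
  choose U hU1 hU2 using hU
  set E : Fin n → Finset (Fin n → Fin n → Bool) := fun i =>
    {w : Fin n → Fin n → Bool | |rs e (w i) (U i fun k => w k)| ≤ n * τ * N} with hE
  set B : Finset (Fin n → Fin n → Bool) := {w : Fin n → Fin n → Bool | ∃ x : Fin n → ℝ, ‖x‖ = 1 ∧
        m ≤ #{i | 1 / (N : ℝ) ≤ |x i|} ∧ ∀ j, |∑ i, x i * e (w i j)| ≤ τ} with hB
  have h1 : ∀ w ∈ B, m ≤ #{i | w ∈ E i} := by
    intro w hw
    obtain ⟨x, hx1, hx2, hx3⟩ := (mem_filter.1 hw).2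
    refine hx2.trans (card_le_card ?_)
    intro i hi
    have hi' : 1 / (N : ℝ) ≤ |x i| := (mem_filter.1 hi).2
    refine mem_filter.2 ⟨mem_univ _, mem_filter.2 ⟨mem_univ _, ?_⟩⟩
    have h2 := key_identity (fun a b => e (w a b)) x (U i fun k => w k) i hx3 (hU1 i _)
      (fun k hk => hU2 i (fun k => w k) ⟨k, hk⟩)
    have h3 : 1 / (N : ℝ) * |rs e (w i) (U i fun k => w k)| ≤ n * τ :=
      (mul_le_mul_of_nonneg_right hi' (abs_nonneg _)).trans h2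
    rw [one_div, inv_mul_le_iff₀ hN0] at h3
    linarith
  calc m * #B = ∑ _w ∈ B, m := by rw [sum_const, smul_eq_mul, mul_comm]
    _ ≤ ∑ w ∈ B, #{i | w ∈ E i} := sum_le_sum h1
    _ ≤ ∑ w : Fin n → Fin n → Bool, #{i | w ∈ E i} :=
        sum_le_sum_of_subset (subset_univ _)
    _ = ∑ i : Fin n, #(E i) := by
        simp_rw [card_filter]
        rw [sum_comm]
        apply sum_congr rfl
        intro i _
        rw [← card_filter]
        congr 1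
        ext w
        simp
    _ ≤ _ := sum_le_sum fun i _ => count_E he i (U i) (hU1 i) (hU2 i) hτ

open Classical in
/-- **The least singular value of sign matrices, counting form.** -/
theorem count_bad {n m : ℕ} (hn : 1 ≤ n) (hm : 1 ≤ m) (hmn : m ≤ n)
    {e : Bool → ℝ} (he : 1 ≤ e true - e false) (he1 : ∀ b, |e b| ≤ 1) {τ : ℝ}
    (hτ0 : 0 ≤ τ) (hτ : 128 * (n : ℝ) ^ 3 * τ < 1) :
    (#{w : Fin n → Fin n → Bool | Bad n e τ w} : ℝ) / (2 ^ n) ^ n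
      ≤ 3 * n * (17 * (n : ℝ) ^ 2) ^ m / 2 ^ n + (n / m) * ((m.choose (m / 2) : ℝ) / 2 ^ m) := by
  have hn' : (1 : ℝ) ≤ n := by exact_mod_cast hn
  have hn0 : (0 : ℝ) < n := by linarith
  have hm' : (1 : ℝ) ≤ m := by exact_mod_cast hm
  have hm0 : (0 : ℝ) < m := by linarith
  have hN : 1 ≤ 8 * n := by omega
  have hNr : ((8 * n : ℕ) : ℝ) = 8 * n := by push_cast; ring
  have hτ1 : τ < 1 / 128 := by
    have : (1 : ℝ) ≤ (n : ℝ) ^ 3 := one_le_pow₀ hn'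
    nlinarith
  have hτa : τ + n / ((8 * n : ℕ) : ℝ) < 1 / 4 := by
    rw [hNr]
    have : (n : ℝ) / (8 * n) = 1 / 8 := by field_simp
    rw [this]
    linarith
  have hτb : 2 * (n * τ * ((8 * n : ℕ) : ℝ)) < 1 / ((8 * n : ℕ) : ℝ) := by
    rw [hNr, lt_div_iff₀ (by positivity)]
    calc 2 * (n * τ * (8 * n)) * (8 * (n : ℝ)) = 128 * (n : ℝ) ^ 3 * τ := by ring
      _ < 1 := hτ
  set B : Finset (Fin n → Fin n → Bool) := {w : Fin n → Fin n → Bool | Bad n e τ w} with hB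
  set B1 : Finset (Fin n → Fin n → Bool) := {w : Fin n → Fin n → Bool | ∃ x : Fin n → ℝ, ‖x‖ = 1 ∧
        #{i | 1 / ((8 * n : ℕ) : ℝ) ≤ |x i|} ≤ m ∧ ∀ j, |∑ i, x i * e (w i j)| ≤ τ} with hB1
  set B2 : Finset (Fin n → Fin n → Bool) := {w : Fin n → Fin n → Bool | ∃ x : Fin n → ℝ, ‖x‖ = 1 ∧
        m ≤ #{i | 1 / ((8 * n : ℕ) : ℝ) ≤ |x i|} ∧ ∀ j, |∑ i, x i * e (w i j)| ≤ τ} with hB2
  have hsub : B ⊆ B1 ∪ B2 := by
    intro w hw
    obtain ⟨x, hx1, hx2⟩ := (mem_filter.1 hw).2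
    rcases le_total (#{i | 1 / ((8 * n : ℕ) : ℝ) ≤ |x i|}) m with h | h
    · exact mem_union_left _ (mem_filter.2 ⟨mem_univ _, x, hx1, h, hx2⟩)
    · exact mem_union_right _ (mem_filter.2 ⟨mem_univ _, x, hx1, h, hx2⟩)
  have hBle : (#B : ℝ) ≤ #B1 + #B2 := by
    have := (card_le_card hsub).trans (card_union_le _ _)
    exact_mod_cast this
  have h1 := count_bad1 (m := m) hn hN he he1 hτa
  have h2 := count_bad2 (m := m) hN he hτb
  set G : ℕ := (n * (2 * (8 * n) + 1)) ^ m with hG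
  have hGr : (G : ℝ) ≤ (17 * (n : ℝ) ^ 2) ^ m := by
    rw [hG]
    push_cast
    apply pow_le_pow_left₀ (by positivity)
    nlinarith
  set X : ℝ := (17 * (n : ℝ) ^ 2) ^ m with hX
  obtain ⟨c, hc⟩ : ∃ c : ℝ, c = (m.choose (m / 2) : ℝ) := ⟨_, rfl⟩
  rw [← hc]
  have hc0 : 0 ≤ c := by rw [hc]; exact Nat.cast_nonneg _
  -- first part
  have h1r : (2 : ℝ) ^ n * #B1 ≤ X * (2 ^ n) ^ n := by
    have h3 : (2 : ℝ) ^ n * #B1 ≤ G * (2 ^ n) ^ n := by exact_mod_cast h1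
    exact h3.trans (mul_le_mul_of_nonneg_right hGr (by positivity))
  -- second part
  have h4 : ∀ i : Fin n, (2 : ℝ) ^ (n - 1) * #{q : {k : Fin n // k ≠ i} → Fin n → Bool |
      ∃ y : Fin n → ℝ, ‖y‖ = 1 ∧ #{a | 1 / ((8 * n : ℕ) : ℝ) ≤ |y a|} ≤ m ∧
        ∀ k, |rs e (q k) y| ≤ 0} ≤ X * (2 ^ n) ^ (n - 1) := by
    intro i
    have h5 := net_count (ι := {k : Fin n // k ≠ i}) (m := m) hn hN he he1 (τ := 0)
      (lt_of_le_of_lt (by linarith) hτa)
    have h6 : Fintype.card {k : Fin n // k ≠ i} = n - 1 := by simp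
    rw [h6] at h5
    have h7 : (2 : ℝ) ^ (n - 1) * #{q : {k : Fin n // k ≠ i} → Fin n → Bool |
      ∃ y : Fin n → ℝ, ‖y‖ = 1 ∧ #{a | 1 / ((8 * n : ℕ) : ℝ) ≤ |y a|} ≤ m ∧
        ∀ k, |rs e (q k) y| ≤ 0} ≤ G * (2 ^ n) ^ (n - 1) := by exact_mod_cast h5
    exact h7.trans (mul_le_mul_of_nonneg_right hGr (by positivity))
  have hpn : (2 : ℝ) ^ n = 2 * 2 ^ (n - 1) := by
    rw [← pow_succ']
    congr 1
    omega
  have hpn2 : ((2 : ℝ) ^ n) ^ n = (2 ^ n) ^ (n - 1) * 2 ^ n := by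
    rw [← pow_succ]
    congr 1
    omega
  have hpm : (2 : ℝ) ^ n = 2 ^ (n - m) * 2 ^ m := by
    rw [← pow_add]
    congr 1
    omega
  have h2r : (m : ℝ) * #B2 ≤ n * (2 * X * (2 ^ n) ^ (n - 1) + (2 ^ n) ^ (n - 1) * (c * 2 ^ (n - m))) := by
    have h5 : (m : ℝ) * #B2 ≤ ∑ i : Fin n, ((#{q : {k : Fin n // k ≠ i} → Fin n → Bool |
      ∃ y : Fin n → ℝ, ‖y‖ = 1 ∧ #{a | 1 / ((8 * n : ℕ) : ℝ) ≤ |y a|} ≤ m ∧
        ∀ k, |rs e (q k) y| ≤ 0} : ℝ) * 2 ^ n + (2 ^ n) ^ (n - 1) * (c * 2 ^ (n - m))) := by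
      rw [hc]
      have h2' := (Nat.cast_le (α := ℝ)).2 h2
      rw [Nat.cast_mul, Nat.cast_sum] at h2'
      refine h2'.trans (le_of_eq ?_)
      apply sum_congr rfl
      intro i _
      push_cast
      ring
    refine h5.trans ?_
    calc _ ≤ ∑ _i : Fin n, (2 * X * (2 ^ n) ^ (n - 1) + (2 ^ n) ^ (n - 1) * (c * 2 ^ (n - m))) := by
          apply sum_le_sum
          intro i _
          have h6 := h4 i
          rw [hpn]
          rw [hpn] at h6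
          nlinarith
      _ = _ := by rw [sum_const, card_univ, Fintype.card_fin, nsmul_eq_mul]
  -- conclusion
  set D : ℝ := (2 ^ n) ^ n with hD
  have hD0 : 0 < D := by positivity
  have hp0 : (0 : ℝ) < 2 ^ n := by positivity
  have hb1 : (#B1 : ℝ) / D ≤ X / 2 ^ n := by
    rw [div_le_div_iff₀ hD0 hp0]
    linarith
  have hb2 : (#B2 : ℝ) / D ≤ (n / m) * (2 * X / 2 ^ n + c / 2 ^ m) := by
    rw [div_le_iff₀ hD0]
    have h7 : (n / m : ℝ) * (2 * X / 2 ^ n + c / 2 ^ m) * D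
        = (n * (2 * X * (2 ^ n) ^ (n - 1) + (2 ^ n) ^ (n - 1) * (c * 2 ^ (n - m)))) / m := by
      rw [hpn2]
      have h8 : c / 2 ^ m * ((2 ^ n) ^ (n - 1) * 2 ^ n) = (2 ^ n) ^ (n - 1) * (c * 2 ^ (n - m)) := by
        nth_rewrite 2 [hpm]
        field_simp
      have h9 : 2 * X / 2 ^ n * ((2 ^ n) ^ (n - 1) * 2 ^ n) = 2 * X * (2 ^ n) ^ (n - 1) := by
        field_simp
      calc (n / m : ℝ) * (2 * X / 2 ^ n + c / 2 ^ m) * ((2 ^ n) ^ (n - 1) * 2 ^ n)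
          = (n / m : ℝ) * (2 * X / 2 ^ n * ((2 ^ n) ^ (n - 1) * 2 ^ n)
            + c / 2 ^ m * ((2 ^ n) ^ (n - 1) * 2 ^ n)) := by ring
        _ = _ := by rw [h8, h9]; ring
    rw [h7, le_div_iff₀ hm0]
    linarith
  calc (#B : ℝ) / D ≤ (#B1 + #B2) / D := div_le_div_of_nonneg_right hBle hD0.le
    _ = #B1 / D + #B2 / D := add_div _ _ _
    _ ≤ X / 2 ^ n + (n / m) * (2 * X / 2 ^ n + c / 2 ^ m) := add_le_add hb1 hb2
    _ ≤ n * X / 2 ^ n + n * (2 * X / 2 ^ n) + (n / m) * (c / 2 ^ m) := by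
        have h10 : (n / m : ℝ) ≤ n := div_le_self hn0.le hm'
        have h11 : X / 2 ^ n ≤ n * X / 2 ^ n := by
          rw [mul_div_assoc]
          exact le_mul_of_one_le_left (by positivity) hn'
        have h12 : (n / m : ℝ) * (2 * X / 2 ^ n) ≤ n * (2 * X / 2 ^ n) :=
          mul_le_mul_of_nonneg_right h10 (by positivity)
        rw [mul_add]
        linarith
    _ = 3 * n * X / 2 ^ n + (n / m) * (c / 2 ^ m) := by ring

end Pool.Agent.TH701
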