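import Pool.Agent.TH701.Model

set_option autoImplicit false

namespace Pool.Agent.TH701

/-- Case distinction on a list (empty or not). -/
def cList {β γ : Type} (l : List β) (g : γ) (h : β → List β → γ) : γ :=
  match l with
  | [] => g
  | b :: t => h b t

@[simp] theorem cList_nil {β γ : Type} (g : γ) (h : β → List β → γ) :
    cList [] g h = g := rfl

@[simp] theorem cList_cons {β γ : Type} (b : β) (t : List β) (g : γ) (h : β → List β → γ) :
    cList (b :: t) g h = h b t := rfl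

/-- the function `f` is computed by a program with cost at most `c` -/
def Comp {α β : Type} (f : α → β) (c : α → ℕ) : Prop :=
  ∃ p : Prog α β, ∀ x, ∃ t, t ≤ c x ∧ Run p x (f x) t

namespace Comp

variable {α β γ : Type}

theorem le {f : α → β} {c d : α → ℕ} (h : Comp f c) (hcd : ∀ x, c x ≤ d x) : Comp f d := by
  obtain ⟨p, hp⟩ := h
  refine ⟨p, fun x => ?_⟩
  obtain ⟨t, ht, hr⟩ := hp x
  exact ⟨t, ht.trans (hcd x), hr⟩

theorem id : Comp (fun x : α => x) (fun _ => 1) :=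
  ⟨Prog.skip α, fun x => ⟨1, le_rfl, Run.skip x⟩⟩

theorem comp {f : α → β} {g : β → γ} {c : α → ℕ} {d : β → ℕ} (hf : Comp f c) (hg : Comp g d) :
    Comp (fun x => g (f x)) (fun x => c x + d (f x)) := by
  obtain ⟨p, hp⟩ := hf
  obtain ⟨q, hq⟩ := hg
  refine ⟨Prog.seq p q, fun x => ?_⟩
  obtain ⟨s, hs, h1⟩ := hp x
  obtain ⟨t, ht, h2⟩ := hq (f x)
  exact ⟨s + t, Nat.add_le_add hs ht, Run.seq h1 h2⟩

theorem pair {f : α → β} {g : α → γ} {c d : α → ℕ} (hf : Comp f c) (hg : Comp g d) :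
    Comp (fun x => (f x, g x)) (fun x => c x + d x + 1) := by
  obtain ⟨p, hp⟩ := hf
  obtain ⟨q, hq⟩ := hg
  refine ⟨Prog.pair p q, fun x => ?_⟩
  obtain ⟨s, hs, h1⟩ := hp x
  obtain ⟨t, ht, h2⟩ := hq x
  exact ⟨s + t + 1, by dsimp only; omega, Run.pair h1 h2⟩

theorem fst : Comp (fun p : α × β => p.1) (fun _ => 1) :=
  ⟨Prog.fst α β, fun x => ⟨1, le_rfl, Run.fst x.1 x.2⟩⟩

theorem snd : Comp (fun p : α × β => p.2) (fun _ => 1) :=
  ⟨Prog.snd α β, fun x => ⟨1, le_rfl, Run.snd x.1 x.2⟩⟩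

theorem zero : Comp (fun _ : α => (0 : ℕ)) (fun _ => 1) :=
  ⟨Prog.zero α, fun x => ⟨1, le_rfl, Run.zero x⟩⟩

theorem succ : Comp (fun k : ℕ => k + 1) (fun _ => 1) :=
  ⟨Prog.succ, fun x => ⟨1, le_rfl, Run.succ x⟩⟩

theorem one : Comp (fun _ : α => (1 : ℝ)) (fun _ => 1) :=
  ⟨Prog.one α, fun x => ⟨1, le_rfl, Run.one x⟩⟩

theorem add : Comp (fun p : ℝ × ℝ => p.1 + p.2) (fun _ => 1) :=
  ⟨Prog.add, fun x => ⟨1, le_rfl, Run.add x.1 x.2⟩⟩

theorem sub : Comp (fun p : ℝ × ℝ => p.1 - p.2) (fun _ => 1) :=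
  ⟨Prog.sub, fun x => ⟨1, le_rfl, Run.sub x.1 x.2⟩⟩

theorem mul : Comp (fun p : ℝ × ℝ => p.1 * p.2) (fun _ => 1) :=
  ⟨Prog.mul, fun x => ⟨1, le_rfl, Run.mul x.1 x.2⟩⟩

theorem branch {h : α → ℝ} {f g : α → β} {c : α → ℕ} {d e : α → ℕ}
    (hh : Comp h c) (hf : Comp f d) (hg : Comp g e) :
    Comp (fun x => if 0 ≤ h x then f x else g x)
      (fun x => c x + 1 + if 0 ≤ h x then d x else e x) := by
  obtain ⟨p, hp⟩ := hh
  obtain ⟨q, hq⟩ := hf
  obtain ⟨r, hr⟩ := hg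
  refine ⟨Prog.branch p q r, fun x => ?_⟩
  obtain ⟨s, hs, h1⟩ := hp x
  by_cases h0 : 0 ≤ h x
  · obtain ⟨t, ht, h2⟩ := hq x
    refine ⟨s + t + 1, ?_, ?_⟩
    · simp only [h0, if_true]
      omega
    · simp only [h0, if_true]
      exact Run.branchTrue h1 h0 h2
  · obtain ⟨t, ht, h2⟩ := hr x
    refine ⟨s + t + 1, ?_, ?_⟩
    · simp only [h0, if_false]
      omega
    · simp only [h0, if_false]
      exact Run.branchFalse h1 (not_le.1 h0) h2

/-- division when the divisor never vanishes -/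
theorem divPos {f g : α → ℝ} {c d : α → ℕ} (hf : Comp f c) (hg : Comp g d)
    (h0 : ∀ x, g x ≠ 0) : Comp (fun x => f x / g x) (fun x => c x + d x + 2) := by
  obtain ⟨p, hp⟩ := hf
  obtain ⟨q, hq⟩ := hg
  refine ⟨Prog.seq (Prog.pair p q) Prog.div, fun x => ?_⟩
  obtain ⟨s, hs, h1⟩ := hp x
  obtain ⟨t, ht, h2⟩ := hq x
  exact ⟨s + t + 1 + 1, by dsimp only; omega, Run.seq (Run.pair h1 h2) (Run.div _ _ (h0 x))⟩

theorem nil : Comp (fun _ : α => ([] : List β)) (fun _ => 1) :=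
  ⟨Prog.nil α β, fun x => ⟨1, le_rfl, Run.nil x⟩⟩

theorem cons : Comp (fun p : β × List β => p.1 :: p.2) (fun _ => 1) :=
  ⟨Prog.cons β, fun x => ⟨1, le_rfl, Run.cons x.1 x.2⟩⟩

theorem caseL {g : α → γ} {h : α × β × List β → γ} {c : α → ℕ} {d : α × β × List β → ℕ}
    (hg : Comp g c) (hh : Comp h d) :
    Comp (fun p : α × List β => cList p.2 (g p.1) (fun b t => h (p.1, b, t)))
        (fun p => 1 + cList p.2 (c p.1) (fun b t => d (p.1, b, t))) := by
  obtain ⟨p, hp⟩ := hg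
  obtain ⟨q, hq⟩ := hh
  refine ⟨Prog.caseList p q, fun x => ?_⟩
  obtain ⟨x, l⟩ := x
  cases l with
  | nil =>
    obtain ⟨s, hs, h1⟩ := hp x
    exact ⟨s + 1, by simp only [cList_nil]; omega, Run.caseNil h1⟩
  | cons b t =>
    obtain ⟨s, hs, h1⟩ := hq (x, b, t)
    exact ⟨s + 1, by simp only [cList_cons]; omega, Run.caseCons h1⟩

theorem loop {s : α → α} {c : α → ℕ} (hs : Comp s c) :
    Comp (fun p : ℕ × α => s^[p.1] p.2)
        (fun p => 1 + ∑ i ∈ Finset.range p.1, (c (s^[i] p.2) + 1)) := by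
  obtain ⟨p, hp⟩ := hs
  refine ⟨Prog.forLoop p, fun x => ?_⟩
  obtain ⟨k, x⟩ := x
  simp only
  induction k generalizing x with
  | zero => exact ⟨1, by simp, Run.forZero x⟩
  | succ k ih =>
    obtain ⟨t, ht, h1⟩ := hp x
    obtain ⟨u, hu, h2⟩ := ih (s x)
    refine ⟨t + u + 1, ?_, Run.forSucc h1 h2⟩
    rw [Finset.sum_range_succ']
    simp only [Function.iterate_succ_apply, Function.iterate_zero_apply]
    omega

end Comp

/-- while loops -/
theorem Run.whileIter {α : Type} {h : Prog α ℝ} {p : Prog α α} {H : α → ℝ} {S : α → α}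
    {c : α → ℕ} (hh : ∀ x, ∃ t, t ≤ c x ∧ Run h x (H x) t)
    (hp : ∀ x, ∃ t, t ≤ c x ∧ Run p x (S x) t) (k : ℕ) (x : α)
    (h1 : ∀ i < k, 0 ≤ H (S^[i] x)) (h2 : H (S^[k] x) < 0) :
    ∃ t, t ≤ ∑ i ∈ Finset.range (k + 1), (2 * c (S^[i] x) + 1) ∧
      Run (Prog.whileLoop h p) x (S^[k] x) t := by
  induction k generalizing x with
  | zero =>
    obtain ⟨t, ht, hr⟩ := hh x
    refine ⟨t + 1, ?_, Run.whileStop hr h2⟩
    simp only [zero_add, Finset.range_one, Finset.sum_singleton, Function.iterate_zero_apply]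
    omega
  | succ k ih =>
    obtain ⟨t, ht, hr⟩ := hh x
    obtain ⟨u, hu, hr'⟩ := hp x
    obtain ⟨v, hv, hr''⟩ := ih (S x) (fun i hi => by
      have := h1 (i + 1) (by omega)
      rwa [Function.iterate_succ_apply] at this) (by
      rwa [Function.iterate_succ_apply] at h2)
    refine ⟨t + u + v + 1, ?_, ?_⟩
    · rw [Finset.sum_range_succ']
      simp only [Function.iterate_succ_apply, Function.iterate_zero_apply]
      omega
    · rw [Function.iterate_succ_apply]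
      refine Run.whileStep hr ?_ hr' hr''
      have := h1 0 (by omega)
      simpa using this

end Pool.Agent.TH701
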