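import Pool.Agent.TH701.PC

set_option autoImplicit false

namespace Pool.Agent.TH701

/-! ### Loops over lists -/

/-- one step of a loop over a list -/
def foldBody {σ β : Type} (f : σ → β → σ) (q : List β × σ) : List β × σ :=
  cList q.1 q fun x t => (t, f q.2 x)

/-- `n` steps of a loop over a list -/
def foldN {σ β : Type} (n : ℕ) (f : σ → β → σ) (s : σ) (l : List β) : σ :=
  ((foldBody f)^[n] (l, s)).2

theorem foldBody_nil {σ β : Type} (f : σ → β → σ) (n : ℕ) (s : σ) :
    (foldBody f)^[n] ([], s) = ([], s) := by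
  induction n with
  | zero => rfl
  | succ n ih => rw [Function.iterate_succ_apply]; exact ih

theorem foldN_eq {σ β : Type} (n : ℕ) (f : σ → β → σ) (s : σ) (l : List β) (h : l.length ≤ n) :
    foldN n f s l = l.foldl f s := by
  unfold foldN
  induction n generalizing s l with
  | zero =>
    have : l = [] := List.length_eq_zero_iff.1 (by omega)
    subst this; rfl
  | succ n ih =>
    cases l with
    | nil => rw [foldBody_nil]; rfl
    | cons x t =>
      rw [Function.iterate_succ_apply]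
      exact ih (f s x) t (by simpa using h)

/-- reverse a list of length at most `n` -/
def revN {β : Type} (n : ℕ) (l : List β) : List β := foldN n (fun acc x => x :: acc) [] l

theorem foldl_cons_eq {β : Type} (l acc : List β) :
    l.foldl (fun acc x => x :: acc) acc = l.reverse ++ acc := by
  induction l generalizing acc with
  | nil => rfl
  | cons x t ih => simp [ih]

theorem revN_eq {β : Type} (n : ℕ) (l : List β) (h : l.length ≤ n) : revN n l = l.reverse := by
  rw [revN, foldN_eq _ _ _ _ h, foldl_cons_eq, List.append_nil]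

/-- map over a list of length at most `n` -/
def mapN {β γ : Type} (n : ℕ) (f : β → γ) (l : List β) : List γ :=
  revN n (foldN n (fun acc x => f x :: acc) [] l)

theorem foldl_map_eq {β γ : Type} (f : β → γ) (l : List β) (acc : List γ) :
    l.foldl (fun acc x => f x :: acc) acc = (l.map f).reverse ++ acc := by
  induction l generalizing acc with
  | nil => rfl
  | cons x t ih => simp [ih]

theorem mapN_eq {β γ : Type} (n : ℕ) (f : β → γ) (l : List β) (h : l.length ≤ n) :
    mapN n f l = l.map f := by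
  rw [mapN, foldN_eq _ _ _ _ h, foldl_map_eq, List.append_nil, revN_eq _ _ (by simpa using h),
    List.reverse_reverse]

/-- one step of a loop over two lists -/
def zipBody {β γ δ : Type} (f : β → γ → δ) (q : List γ × List δ) (x : β) : List γ × List δ :=
  cList q.1 q fun y t => (t, f x y :: q.2)

/-- combine two lists of length at most `n` -/
def zipN {β γ δ : Type} (n : ℕ) (f : β → γ → δ) (u : List β) (v : List γ) : List δ :=
  revN n (foldN n (zipBody f) (v, []) u).2

theorem foldl_zip_eq {β γ δ : Type} (f : β → γ → δ) (u : List β) (v : List γ) (acc : List δ) :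
    (u.foldl (zipBody f) (v, acc)).2 = (List.zipWith f u v).reverse ++ acc := by
  induction u generalizing v acc with
  | nil => simp
  | cons x t ih =>
    cases v with
    | nil =>
      have : ∀ (w : List β), w.foldl (zipBody f) ([], acc) = ([], acc) := by
        intro w
        induction w with
        | nil => rfl
        | cons y w ih2 => simpa [zipBody] using ih2
      rw [this]; simp
    | cons y v =>
      simp only [List.foldl_cons, List.zipWith_cons_cons, List.reverse_cons, List.append_assoc,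
        List.singleton_append]
      exact ih v _

theorem zipN_eq {β γ δ : Type} (n : ℕ) (f : β → γ → δ) (u : List β) (v : List γ)
    (hu : u.length ≤ n) : zipN n f u v = List.zipWith f u v := by
  rw [zipN, foldN_eq _ _ _ _ hu, foldl_zip_eq, List.append_nil, revN_eq, List.reverse_reverse]
  simp only [List.length_reverse, List.length_zipWith]
  omega

/-- one step of the scalar product -/
noncomputable def dotBody (q : List ℝ × ℝ) (x : ℝ) : List ℝ × ℝ :=
  cList q.1 q fun y t => (t, q.2 + x * y)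

/-- scalar product of two lists of length at most `n` -/
noncomputable def dotN (n : ℕ) (u v : List ℝ) : ℝ := (foldN n dotBody (v, 0) u).2

theorem foldl_dot_eq (u v : List ℝ) (s : ℝ) :
    (u.foldl dotBody (v, s)).2 = s + (List.zipWith (· * ·) u v).sum := by
  induction u generalizing v s with
  | nil => simp
  | cons x t ih =>
    cases v with
    | nil =>
      have : ∀ (w : List ℝ), w.foldl dotBody ([], s) = ([], s) := by
        intro w
        induction w with
        | nil => rfl
        | cons y w ih2 => simpa [dotBody] using ih2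
      rw [this]; simp
    | cons y v =>
      have h1 : ((x :: t).foldl dotBody (y :: v, s)).2 = (t.foldl dotBody (v, s + x * y)).2 := rfl
      rw [h1, ih]
      simp only [List.zipWith_cons_cons, List.sum_cons]
      ring

theorem dotN_eq (n : ℕ) (u v : List ℝ) (hu : u.length ≤ n) :
    dotN n u v = (List.zipWith (· * ·) u v).sum := by
  rw [dotN, foldN_eq _ _ _ _ hu, foldl_dot_eq, zero_add]

/-! ### Cost -/

namespace PC

variable {α β γ δ ε σ : Type} {a b : ℕ}

theorem fold {f : ℕ × ℕ × (ε × (σ × β)) → σ} {e : ℕ × ℕ × γ → ε} {s : ℕ × ℕ × γ → σ}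
    {l : ℕ × ℕ × γ → List β} (hf : PC a b f) (he : PC (a + 1) b e) (hs : PC (a + 1) b s)
    (hl : PC (a + 1) b l) :
    PC (a + 1) b
      (fun p => foldN p.1 (fun t x => f (p.1, p.2.1, (e p, (t, x)))) (s p) (l p)) := by
  have h1 : PC a b (fun p : ℕ × ℕ × (ε × (List β × σ)) =>
      cList p.2.2.2.1 p.2.2.2 (fun x t => (t, f (p.1, p.2.1, (p.2.2.1, (p.2.2.2.2, x)))))) :=
    caseL (f := fun p : ℕ × ℕ × (ε × (List β × σ)) => p.2.2.2.1)
      (g := fun p : ℕ × ℕ × (ε × (List β × σ)) => p.2.2.2)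
      (h := fun q : ℕ × ℕ × ((ε × (List β × σ)) × β × List β) =>
        (q.2.2.2.2, f (q.1, q.2.1, (q.2.2.1.1, (q.2.2.1.2.2, q.2.2.2.1)))))
      arg.snd.fst arg.snd
      (arg.snd.snd.pair (comp (f := fun q : ℕ × ℕ × ((ε × (List β × σ)) × β × List β) =>
        (q.2.2.1.1, (q.2.2.1.2.2, q.2.2.2.1)))
        (arg.fst.fst.pair (arg.fst.snd.snd.pair arg.snd.fst)) hf))
  exact (loopN (e := e) (x := fun p => (l p, s p)) h1 he (hl.pair hs)).snd

theorem rev {l : ℕ × ℕ × γ → List β} (hl : PC (a + 1) b l) :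
    PC (a + 1) b (fun p => revN p.1 (l p)) :=
  fold (ε := ℕ) (f := fun p : ℕ × ℕ × (ℕ × (List β × β)) => p.2.2.2.2 :: p.2.2.2.1)
    (e := fun _ => 0) (s := fun _ => []) (arg.snd.snd.cons arg.snd.fst) natZero nil hl

theorem mapP {f : ℕ × ℕ × (ε × β) → γ} {e : ℕ × ℕ × δ → ε} {l : ℕ × ℕ × δ → List β}
    (hf : PC a b f) (he : PC (a + 1) b e) (hl : PC (a + 1) b l) :
    PC (a + 1) b (fun p => mapN p.1 (fun x => f (p.1, p.2.1, (e p, x))) (l p)) :=
  rev (fold (f := fun p : ℕ × ℕ × (ε × (List γ × β)) =>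
      f (p.1, p.2.1, (p.2.2.1, p.2.2.2.2)) :: p.2.2.2.1) (e := e) (s := fun _ => [])
    ((comp (f := fun p : ℕ × ℕ × (ε × (List γ × β)) => (p.2.2.1, p.2.2.2.2))
      (arg.fst.pair arg.snd.snd) hf).cons arg.snd.fst) he nil hl)

theorem zipP {f : ℕ × ℕ × (ε × (β × γ)) → σ} {e : ℕ × ℕ × δ → ε} {u : ℕ × ℕ × δ → List β}
    {v : ℕ × ℕ × δ → List γ}
    (hf : PC a b f) (he : PC (a + 1) b e) (hu : PC (a + 1) b u) (hv : PC (a + 1) b v) :
    PC (a + 1) b (fun p => zipN p.1 (fun x y => f (p.1, p.2.1, (e p, (x, y)))) (u p) (v p)) := by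
  have h1 : PC a b (fun p : ℕ × ℕ × (ε × ((List γ × List σ) × β)) =>
      zipBody (fun x y => f (p.1, p.2.1, (p.2.2.1, (x, y)))) p.2.2.2.1 p.2.2.2.2) :=
    caseL (f := fun p : ℕ × ℕ × (ε × ((List γ × List σ) × β)) => p.2.2.2.1.1)
      (g := fun p : ℕ × ℕ × (ε × ((List γ × List σ) × β)) => p.2.2.2.1)
      (h := fun q : ℕ × ℕ × ((ε × ((List γ × List σ) × β)) × γ × List γ) =>
        (q.2.2.2.2, f (q.1, q.2.1, (q.2.2.1.1, (q.2.2.1.2.2, q.2.2.2.1))) :: q.2.2.1.2.1.2))
      arg.snd.fst.fst arg.snd.fst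
      (arg.snd.snd.pair ((comp (f := fun q : ℕ × ℕ ×
        ((ε × ((List γ × List σ) × β)) × γ × List γ) =>
        (q.2.2.1.1, (q.2.2.1.2.2, q.2.2.2.1)))
        (arg.fst.fst.pair (arg.fst.snd.snd.pair arg.snd.fst)) hf).cons arg.fst.snd.fst.snd))
  exact rev (fold (f := fun p : ℕ × ℕ × (ε × ((List γ × List σ) × β)) =>
      zipBody (fun x y => f (p.1, p.2.1, (p.2.2.1, (x, y)))) p.2.2.2.1 p.2.2.2.2)
    (e := e) (s := fun p => (v p, [])) h1 he (hv.pair nil) hu).snd

theorem dotP {u v : ℕ × ℕ × δ → List ℝ} (hu : PC (a + 1) b u) (hv : PC (a + 1) b v) :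
    PC (a + 1) b (fun p => dotN p.1 (u p) (v p)) := by
  have h1 : PC a b (fun p : ℕ × ℕ × (ℕ × ((List ℝ × ℝ) × ℝ)) =>
      dotBody p.2.2.2.1 p.2.2.2.2) :=
    caseL (f := fun p : ℕ × ℕ × (ℕ × ((List ℝ × ℝ) × ℝ)) => p.2.2.2.1.1)
      (g := fun p : ℕ × ℕ × (ℕ × ((List ℝ × ℝ) × ℝ)) => p.2.2.2.1)
      (h := fun q : ℕ × ℕ × ((ℕ × ((List ℝ × ℝ) × ℝ)) × ℝ × List ℝ) =>
        (q.2.2.2.2, q.2.2.1.2.1.2 + q.2.2.1.2.2 * q.2.2.2.1))
      arg.snd.fst.fst arg.snd.fst
      (arg.snd.snd.pair (arg.fst.snd.fst.snd.add (arg.fst.snd.snd.mul arg.snd.fst)))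
  exact (fold (f := fun p : ℕ × ℕ × (ℕ × ((List ℝ × ℝ) × ℝ)) =>
      dotBody p.2.2.2.1 p.2.2.2.2) (e := fun _ => 0) (s := fun p => (v p, 0)) h1 natZero
      (hv.pair zero) hu).snd

end PC

end Pool.Agent.TH701
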