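import Pool.Agent.TH701.Law

set_option autoImplicit false

noncomputable section

namespace Pool.Agent.TH701

open Finset Filter Topology MeasureTheory ProbabilityTheory
open scoped ENNReal

/-- Fubini: bound the measure by the measures of the slices. -/
theorem pi_slice_le {X : Type} [MeasurableSpace X] (ν : Measure X) [IsProbabilityMeasure ν] {n : ℕ}
    (i : Fin (n + 1)) (B : Set (Fin (n + 1) → X)) (hB : MeasurableSet B) (p : ℝ≥0∞)
    (h : ∀ r : Fin n → X, ν {a | i.insertNth (α := fun _ => X) a r ∈ B} ≤ p) :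
    Measure.pi (fun _ : Fin (n + 1) => ν) B ≤ p := by
  have h1 := measurePreserving_piFinSuccAbove (fun _ : Fin (n + 1) => ν) i
  set e := MeasurableEquiv.piFinSuccAbove (fun _ : Fin (n + 1) => X) i with he
  have h2 : Measure.pi (fun _ : Fin (n + 1) => ν) B
      = (ν.prod (Measure.pi fun _ : Fin n => ν)) (e.symm ⁻¹' B) := by
    have h3 := h1.measure_preimage_equiv (e.symm ⁻¹' B)
    rw [← h3]
    congr 1
    ext x
    simp
  rw [h2, Measure.prod_apply_symm (e.symm.measurable hB)]
  calc _ ≤ ∫⁻ _r : Fin n → X, p ∂(Measure.pi fun _ : Fin n => ν) := by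
        apply lintegral_mono
        intro r
        exact h r
    _ = p := by simp

/-- the standard Gaussian law -/
abbrev gauss : Measure ℝ := gaussianReal 0 1

theorem gauss_closedBall (c η : ℝ) : gauss (Metric.closedBall c η) ≤ ENNReal.ofReal η := by
  rw [gaussianReal_apply 0 one_ne_zero]
  have h1 : ∀ x, gaussianPDF 0 1 x ≤ ENNReal.ofReal (1 / 2) := by
    intro x
    unfold gaussianPDF gaussianPDFReal
    apply ENNReal.ofReal_le_ofReal
    have h2 : (2 : ℝ) ≤ Real.sqrt (2 * Real.pi * ((1 : NNReal) : ℝ)) := by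
      apply Real.le_sqrt_of_sq_le
      have := Real.pi_gt_three
      push_cast
      linarith
    have h3 : Real.exp (-(x - 0) ^ 2 / (2 * ((1 : NNReal) : ℝ))) ≤ 1 := by
      rw [Real.exp_le_one_iff]
      have : 0 ≤ (x - 0) ^ 2 := sq_nonneg _
      push_cast
      linarith
    have h4 : (Real.sqrt (2 * Real.pi * ((1 : NNReal) : ℝ)))⁻¹ ≤ 1 / 2 := by
      rw [one_div]
      exact inv_anti₀ (by norm_num) h2
    calc _ ≤ (1 / 2 : ℝ) * 1 := mul_le_mul h4 h3 (Real.exp_pos _).le (by norm_num)
      _ = 1 / 2 := by norm_num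
  calc ∫⁻ x in Metric.closedBall c η, gaussianPDF 0 1 x
      ≤ ∫⁻ _x in Metric.closedBall c η, ENNReal.ofReal (1 / 2) :=
        lintegral_mono fun x => h1 x
    _ = ENNReal.ofReal (1 / 2) * ENNReal.ofReal (2 * η) := by
        rw [setLIntegral_const, Real.volume_closedBall]
    _ = ENNReal.ofReal η := by
        rw [← ENNReal.ofReal_mul (by norm_num)]
        congr 1
        ring

theorem exists_abs_eq_one {n : ℕ} {u : Fin n → ℝ} (hu : ‖u‖ = 1) : ∃ i, |u i| = 1 := by
  by_contra hno
  have hlt : ‖u‖ < 1 := by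
    rw [pi_norm_lt_iff zero_lt_one]
    intro i
    rw [Real.norm_eq_abs]
    have h1 : |u i| ≤ 1 := by
      have := norm_le_pi_norm u i
      rwa [hu, Real.norm_eq_abs] at this
    exact lt_of_le_of_ne h1 fun h => hno ⟨i, h⟩
  linarith

/-- anticoncentration of a linear form of a Gaussian vector -/
theorem gauss_slab {n : ℕ} (u : Fin (n + 1) → ℝ) (hu : ‖u‖ = 1) (η : ℝ) :
    Measure.pi (fun _ : Fin (n + 1) => gauss) {a | |∑ j, a j * u j| ≤ η} ≤ ENNReal.ofReal η := by
  obtain ⟨i, hi⟩ := exists_abs_eq_one hu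
  apply pi_slice_le gauss i
  · apply IsClosed.measurableSet
    apply isClosed_le _ continuous_const
    fun_prop
  · intro r
    have hi0 : u i ≠ 0 := by
      intro h
      rw [h, abs_zero] at hi
      norm_num at hi
    set c : ℝ := ∑ j, r j * u (i.succAbove j) with hc
    refine le_trans (measure_mono ?_) (gauss_closedBall (-(c / u i)) η)
    intro a ha
    have ha' : |∑ j, i.insertNth (α := fun _ => ℝ) a r j * u j| ≤ η := ha
    rw [Fin.sum_univ_succAbove _ i] at ha'
    simp only [Fin.insertNth_apply_same, Fin.insertNth_apply_succAbove] at ha'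
    rw [Metric.mem_closedBall, Real.dist_eq]
    have h1 : a - -(c / u i) = (a * u i + c) / u i := by
      field_simp
      ring
    rw [h1, abs_div, hi, div_one]
    exact ha'

/-- the matrices for which a vector with maximal coordinate `i` is nearly killed -/
def BadAt (n : ℕ) (τ : ℝ) (i : Fin n) : Set (Fin n → Fin n → ℝ) :=
  {A | ∃ x : Fin n → ℝ, ‖x‖ ≤ 1 ∧ |x i| = 1 ∧ ∀ j, |∑ k, x k * A k j| ≤ τ}

theorem isClosed_badAt (n : ℕ) (τ : ℝ) (i : Fin n) : IsClosed (BadAt n τ i) := by
  set K : Set (Fin n → ℝ) := Metric.closedBall 0 1 ∩ {x | |x i| = 1} with hK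
  have hKc : IsCompact K := by
    apply (isCompact_closedBall _ _).inter_right
    exact isClosed_eq (continuous_apply i).abs continuous_const
  have : CompactSpace K := isCompact_iff_compactSpace.1 hKc
  have h1 : BadAt n τ i = Prod.snd '' {p : K × (Fin n → Fin n → ℝ) |
      ∀ j, |∑ k, p.1.1 k * p.2 k j| ≤ τ} := by
    ext A
    constructor
    · rintro ⟨x, hx1, hx2, hx3⟩
      exact ⟨(⟨x, by simpa [hK] using ⟨hx1, hx2⟩⟩, A), hx3, rfl⟩
    · rintro ⟨⟨⟨x, hx⟩, A'⟩, hx3, rfl⟩
      have hx' : ‖x‖ ≤ 1 ∧ |x i| = 1 := by simpa [hK] using hx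
      exact ⟨x, hx'.1, hx'.2, hx3⟩
  rw [h1]
  apply isClosedMap_snd_of_compactSpace
  rw [Set.ofPred_forall]
  apply isClosed_iInter
  intro j
  apply isClosed_le _ continuous_const
  apply Continuous.abs
  apply continuous_finsetSum
  intro k _
  apply Continuous.mul
  · exact (continuous_apply k).comp (continuous_subtype_val.comp continuous_fst)
  · exact (continuous_apply_apply k j).comp continuous_snd

theorem badAt_le (n : ℕ) (τ : ℝ) (i : Fin (n + 1)) :
    matLaw gauss (n + 1) (BadAt (n + 1) τ i) ≤ ENNReal.ofReal (((n + 1 : ℕ) : ℝ) * τ) := by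
  unfold matLaw
  apply pi_slice_le _ i _ (isClosed_badAt _ _ _).measurableSet
  intro r
  obtain ⟨u, hu1, hu2⟩ := exists_normal i (fun k : {k : Fin (n + 1) // k ≠ i} =>
    (i.insertNth (α := fun _ => Fin (n + 1) → ℝ) 0 r) k)
  refine le_trans (measure_mono ?_) (gauss_slab u hu1 _)
  intro a ha
  obtain ⟨x, hx1, hx2, hx3⟩ := ha
  have h1 := key_identity (i.insertNth (α := fun _ => Fin (n + 1) → ℝ) a r) x u i hx3 hu1
    (by
      intro k hk
      obtain ⟨j, rfl⟩ := Fin.exists_succAbove_eq hk
      have h2 := hu2 ⟨i.succAbove j, hk⟩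
      simp only [Fin.insertNth_apply_succAbove] at h2 ⊢
      exact h2)
  rw [hx2, one_mul] at h1
  simp only [Fin.insertNth_apply_same] at h1
  exact h1

theorem gauss_large (c : ℝ) (hc : 0 < c) : gauss {x | c ≤ |x|} ≤ ENNReal.ofReal (1 / c ^ 2) := by
  have h1 := meas_ge_le_variance_div_sq (μ := gauss) (X := id)
    (memLp_id_gaussianReal' 2 (by norm_num)) hc
  rw [variance_id_gaussianReal] at h1
  have h2 : ∫ x, id x ∂gauss = 0 := by
    simp [integral_id_gaussianReal]
  rw [h2] at h1
  simpa using h1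

theorem entry_large (n : ℕ) (i j : Fin n) (c : ℝ) (hc : 0 < c) :
    matLaw gauss n {A | c ≤ |A i j|} ≤ ENNReal.ofReal (1 / c ^ 2) := by
  refine le_trans (le_of_eq ?_) (gauss_large c hc)
  unfold matLaw
  have hs : MeasurableSet {x : ℝ | c ≤ |x|} :=
    (isClosed_le continuous_const continuous_abs).measurableSet
  have h1 := (measurePreserving_eval (fun _ : Fin n => Measure.pi fun _ : Fin n => gauss) i)
  have h2 := (measurePreserving_eval (fun _ : Fin n => gauss) j)
  exact (h2.comp h1).measure_preimage hs.nullMeasurableSet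

/-- **Gaussian matrices are good with high probability.** -/
theorem tendsto_good_gauss :
    Tendsto (fun n => matLaw gauss n {A | Good n A}ᶜ) atTop (𝓝 0) := by
  have h1 : ∀ n : ℕ, 1 ≤ n → matLaw gauss n {A | Good n A}ᶜ ≤ ENNReal.ofReal (2 / n) := by
    intro n hn
    obtain ⟨m, rfl⟩ : ∃ m, n = m + 1 := ⟨n - 1, by omega⟩
    have hsub : {A : Fin (m + 1) → Fin (m + 1) → ℝ | Good (m + 1) A}ᶜ ⊆
        (⋃ i : Fin (m + 1), ⋃ j : Fin (m + 1),
          {A | (((m + 1 : ℕ) : ℝ)) ^ 2 ≤ |A i j|}) ∪
        ⋃ i : Fin (m + 1), BadAt (m + 1) (1 / ((m + 1 : ℕ) : ℝ) ^ 5) i := by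
      intro A hA
      rcases not_good hn hA with ⟨i, j, h2⟩ | ⟨x, hx1, hx2⟩
      · left
        rw [Set.mem_iUnion]
        refine ⟨i, ?_⟩
        rw [Set.mem_iUnion]
        exact ⟨j, h2.le⟩
      · right
        rw [Set.mem_iUnion]
        obtain ⟨i, hi⟩ := exists_abs_eq_one hx1
        exact ⟨i, x, hx1.le, hi, hx2⟩
    set N : ℝ := ((m + 1 : ℕ) : ℝ) with hN
    have hN1 : 1 ≤ N := by rw [hN]; exact_mod_cast hn
    have hN0 : 0 < N := by linarith
    refine (measure_mono hsub).trans ((measure_union_le _ _).trans ?_)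
    have h3 : matLaw gauss (m + 1) (⋃ i : Fin (m + 1), ⋃ j : Fin (m + 1), {A | N ^ 2 ≤ |A i j|})
        ≤ ENNReal.ofReal (1 / N) := by
      calc _ ≤ ∑ _i : Fin (m + 1), ∑ _j : Fin (m + 1), ENNReal.ofReal (1 / (N ^ 2) ^ 2) := by
            refine (measure_iUnion_fintype_le _ _).trans (sum_le_sum fun i _ => ?_)
            refine (measure_iUnion_fintype_le _ _).trans (sum_le_sum fun j _ => ?_)
            exact entry_large _ i j _ (by positivity)
        _ = ENNReal.ofReal (N * (N * (1 / (N ^ 2) ^ 2))) := by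
            rw [sum_const, sum_const, card_univ, Fintype.card_fin, nsmul_eq_mul, nsmul_eq_mul,
              ENNReal.ofReal_mul hN0.le, ENNReal.ofReal_mul hN0.le, hN, ENNReal.ofReal_natCast]
        _ ≤ ENNReal.ofReal (1 / N) := by
            apply ENNReal.ofReal_le_ofReal
            have : N * (N * (1 / (N ^ 2) ^ 2)) = 1 / N ^ 2 := by field_simp
            rw [this]
            apply one_div_le_one_div_of_le hN0
            nlinarith
    have h4 : matLaw gauss (m + 1) (⋃ i : Fin (m + 1), BadAt (m + 1) (1 / N ^ 5) i)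
        ≤ ENNReal.ofReal (1 / N) := by
      calc _ ≤ ∑ _i : Fin (m + 1), ENNReal.ofReal (N * (1 / N ^ 5)) := by
            refine (measure_iUnion_fintype_le _ _).trans (sum_le_sum fun i _ => ?_)
            exact badAt_le m _ i
        _ = ENNReal.ofReal (N * (N * (1 / N ^ 5))) := by
            rw [sum_const, card_univ, Fintype.card_fin, nsmul_eq_mul,
              ENNReal.ofReal_mul hN0.le (q := N * (1 / N ^ 5)), hN, ENNReal.ofReal_natCast]
        _ ≤ ENNReal.ofReal (1 / N) := by
            apply ENNReal.ofReal_le_ofReal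
            have : N * (N * (1 / N ^ 5)) = 1 / N ^ 3 := by field_simp
            rw [this]
            apply one_div_le_one_div_of_le hN0
            exact le_self_pow₀ hN1 (by norm_num)
    calc _ ≤ ENNReal.ofReal (1 / N) + ENNReal.ofReal (1 / N) := add_le_add h3 h4
      _ = ENNReal.ofReal (2 / N) := by
          rw [← ENNReal.ofReal_add (by positivity) (by positivity)]
          congr 1
          ring
  have h2 : Tendsto (fun n : ℕ => ENNReal.ofReal (2 / (n : ℝ))) atTop (𝓝 0) := by
    have := ENNReal.tendsto_ofReal (tendsto_const_div_atTop_nhds_zero_nat (2 : ℝ))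
    rwa [ENNReal.ofReal_zero] at this
  apply tendsto_of_tendsto_of_tendsto_of_le_of_le' tendsto_const_nhds h2
  · exact Eventually.of_forall fun _ => bot_le
  · filter_upwards [eventually_ge_atTop 1] with n hn
    exact h1 n hn

end Pool.Agent.TH701
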