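import Pool.Agent.TH580.LM.Fn

set_option autoImplicit false

/-!
# The function of a free sum (job LM-WL)
-/

noncomputable section

namespace Pool.Agent.TH701.WL

open MeasureTheory Set Pool.Agent.TH580.LM

/-- numerator -/
def Nn (s : ℝ) : ℝ := (1 + s) * Real.log (1 + s) - (1 - s) * Real.log (1 - s)

/-- the function `Lam` -/
def La (s : ℝ) : ℝ := Nn s / s - 2

/-- the difference `kap - lam` -/
def et (s : ℝ) : ℝ := La s + 2 - Real.log 2 - Real.log (1 + s)

theorem kap_sub {s : ℝ} (h0 : 0 < s) (h1 : s ≤ 1) :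
    kap ((1 - s) / s) = La s + 2 - Real.log s - 2 * Real.log 2 := by
  have e1 : 2 + (1 - s) / s = (1 + s) / s := by field_simp; ring
  have e2 : 1 + (1 - s) / s = 1 / s := by field_simp; ring
  have e3 : (1 - s) / s * Real.log ((1 - s) / s) = (1 - s) / s * (Real.log (1 - s) - Real.log s) := by
    rcases eq_or_lt_of_le h1 with h | h
    · simp [h]
    · rw [Real.log_div (by linarith) h0.ne']
  unfold kap La Nn
  rw [e1, e2, e3, Real.log_div (by linarith) h0.ne', Real.log_div one_ne_zero h0.ne', Real.log_one]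
  field_simp
  ring

theorem lam_sub {s : ℝ} (h0 : 0 < s) :
    lam ((1 - s) / s) = Real.log (1 + s) - Real.log 2 - Real.log s := by
  have e1 : 1 + (1 - s) / s / 2 = (1 + s) / (2 * s) := by field_simp; ring
  unfold lam
  rw [e1, Real.log_div (by linarith) (by positivity), Real.log_mul two_ne_zero h0.ne']
  ring

theorem continuous_Nn : Continuous Nn := by
  have h1 : Continuous fun s : ℝ => (1 + s) * Real.log (1 + s) :=
    Real.continuous_mul_log.comp (continuous_const.add continuous_id)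
  have h2 : Continuous fun s : ℝ => (1 - s) * Real.log (1 - s) :=
    Real.continuous_mul_log.comp (continuous_const.sub continuous_id)
  exact h1.sub h2

theorem hasDerivAt_Nn {s : ℝ} (h0 : -1 < s) (h1 : s < 1) :
    HasDerivAt Nn (Real.log (1 + s) + Real.log (1 - s) + 2) s := by
  have a1 : HasDerivAt (fun s : ℝ => 1 + s) 1 s := (hasDerivAt_id s).const_add 1
  have a2 : HasDerivAt (fun s : ℝ => 1 - s) (-1) s := (hasDerivAt_id s).const_sub 1
  have b1 := a1.mul (a1.log (by linarith))
  have b2 := a2.mul (a2.log (by linarith))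
  have := b1.sub b2
  refine this.congr_deriv ?_
  have : (1 + s) ≠ 0 := by linarith
  have : (1 - s) ≠ 0 := by linarith
  field_simp
  ring

theorem Nn_zero : Nn 0 = 0 := by simp [Nn]

theorem log_add_nonpos {s : ℝ} (h0 : 0 < s) (h1 : s < 1) :
    Real.log (1 + s) + Real.log (1 - s) ≤ 0 := by
  rw [← Real.log_mul (by linarith) (by linarith)]
  exact Real.log_nonpos (by nlinarith) (by nlinarith)

theorem Nn_le {s : ℝ} (h0 : 0 ≤ s) (h1 : s ≤ 1) : Nn s ≤ 2 * s := by
  have hanti : AntitoneOn (fun s => Nn s - 2 * s) (Icc 0 1) := by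
    refine antitoneOn_of_deriv_nonpos (convex_Icc 0 1)
      (continuous_Nn.sub (continuous_const.mul continuous_id)).continuousOn ?_ ?_
    · rw [interior_Icc]
      intro x hx
      exact ((hasDerivAt_Nn (by linarith [hx.1]) hx.2).sub
        ((hasDerivAt_id x).const_mul 2)).differentiableAt.differentiableWithinAt
    · rw [interior_Icc]
      intro x hx
      have := ((hasDerivAt_Nn (by linarith [hx.1]) hx.2).sub ((hasDerivAt_id x).const_mul 2)).deriv
      have e : deriv (fun s => Nn s - 2 * s) x = _ := this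
      rw [e]
      have := log_add_nonpos hx.1 hx.2
      linarith
  have := hanti (left_mem_Icc.2 zero_le_one) ⟨h0, h1⟩ h0
  simp only [Nn_zero] at this
  linarith

theorem La_nonpos {s : ℝ} (h0 : 0 < s) (h1 : s ≤ 1) : La s ≤ 0 := by
  unfold La
  have := Nn_le h0.le h1
  rw [sub_nonpos, div_le_iff₀ h0]
  exact this

theorem et_nonneg {s : ℝ} (h0 : 0 < s) (h1 : s ≤ 1) : 0 ≤ et s := by
  have e : et s * s = Real.log (1 + s) - (1 - s) * Real.log (1 - s) - s * Real.log 2 := by
    unfold et La Nn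
    field_simp
    ring
  have h2 : s * Real.log 2 ≤ Real.log (1 + s) := by
    have h := rpow_one_add_le_one_add_mul_self (s := 1) (by norm_num) h0.le h1
    have h' : Real.log ((1 + 1 : ℝ) ^ s) ≤ Real.log (1 + s * 1) :=
      Real.log_le_log (by positivity) h
    rw [Real.log_rpow (by norm_num)] at h'
    norm_num at h'
    exact h'
  have h3 : (1 - s) * Real.log (1 - s) ≤ 0 := by
    rcases eq_or_lt_of_le h1 with h | h
    · simp [h]
    · exact mul_nonpos_of_nonneg_of_nonpos (by linarith) (Real.log_nonpos (by linarith) (by linarith))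
  have h4 : 0 ≤ et s * s := by rw [e]; linarith
  exact nonneg_of_mul_nonneg_left h4 h0

theorem et_le {s : ℝ} (h0 : 0 < s) (h1 : s ≤ 1) : et s ≤ 2 := by
  unfold et
  have := La_nonpos h0 h1
  have h2 := Real.log_nonneg (x := 2) (by norm_num)
  have h3 := Real.log_nonneg (x := 1 + s) (by linarith)
  linarith

theorem et_one : et 1 = 0 := by
  unfold et La Nn
  norm_num
  ring

/-- `(log (1+s) - log (1-s)) / s` is monotone -/
theorem psi_mono {u v : ℝ} (hu : 0 < u) (huv : u ≤ v) (hv : v < 1) :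
    (Real.log (1 + u) - Real.log (1 - u)) / u ≤ (Real.log (1 + v) - Real.log (1 - v)) / v := by
  have key : ∀ x : ℝ, 0 < x → x < 1 → HasSum (fun k : ℕ => (2 : ℝ) * (1 / (2 * k + 1)) * x ^ (2 * k))
      ((Real.log (1 + x) - Real.log (1 - x)) / x) := by
    intro x hx hx1
    have := (Real.hasSum_log_sub_log_of_abs_lt_one (x := x) (by rw [abs_lt]; constructor <;> linarith)).div_const x
    have e : (fun k : ℕ => (2 : ℝ) * (1 / (2 * k + 1)) * x ^ (2 * k)) =
        fun i : ℕ => 2 * (1 / (2 * (i : ℝ) + 1)) * x ^ (2 * i + 1) / x := by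
      funext k
      rw [pow_succ]
      field_simp
    rw [e]
    exact this
  exact hasSum_le (fun k => by
    have : u ^ (2 * k) ≤ v ^ (2 * k) := pow_le_pow_left₀ hu.le huv _
    gcongr) (key u hu (by linarith)) (key v (by linarith) hv)

theorem hasDerivAt_La {s : ℝ} (h0 : 0 < s) (h1 : s < 1) :
    HasDerivAt La ((Real.log (1 + s) + Real.log (1 - s) - La s) / s) s := by
  have := ((hasDerivAt_Nn (by linarith) h1).div (hasDerivAt_id s) h0.ne').sub_const 2
  refine this.congr_deriv ?_
  unfold La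
  simp only [id]
  field_simp
  ring

theorem hasDerivAt_et {s : ℝ} (h0 : 0 < s) (h1 : s < 1) :
    HasDerivAt et (-((Real.log (1 + s) - Real.log (1 - s)) / s - 2 + s / (1 + s)) / s) s := by
  have a1 : HasDerivAt (fun s : ℝ => 1 + s) 1 s := (hasDerivAt_id s).const_add 1
  have := (((hasDerivAt_La h0 h1).add_const 2).sub_const (Real.log 2)).sub (a1.log (by linarith))
  refine this.congr_deriv ?_
  unfold La Nn
  have : (1 + s) ≠ 0 := by linarith
  field_simp
  ring

theorem continuousOn_La : ContinuousOn La (Ioc 0 1) := by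
  refine ContinuousOn.sub ?_ continuousOn_const
  exact continuous_Nn.continuousOn.div continuousOn_id fun x hx => hx.1.ne'

theorem continuousOn_et : ContinuousOn et (Ioc 0 1) := by
  refine ((continuousOn_La.add continuousOn_const).sub continuousOn_const).sub ?_
  exact (continuousOn_const.add continuousOn_id).log fun x hx => by
    have := hx.1
    show (1 : ℝ) + x ≠ 0
    linarith

/-- subadditivity -/
theorem et_mul {t r : ℝ} (ht0 : 0 < t) (ht1 : t ≤ 1) (hr0 : 0 < r) (hr1 : r < 1) :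
    et (t * r) ≤ et t + et r := by
  have hanti : AntitoneOn (fun t => et t - et (t * r)) (Ioc 0 1) := by
    have hd : ∀ x ∈ Ioo (0 : ℝ) 1, HasDerivAt (fun t => et t - et (t * r))
        (-((Real.log (1 + x) - Real.log (1 - x)) / x - 2 + x / (1 + x)) / x -
          (-((Real.log (1 + x * r) - Real.log (1 - x * r)) / (x * r) - 2 +
            x * r / (1 + x * r)) / (x * r)) * r) x := by
      intro x hx
      have hxr : x * r < 1 := by nlinarith [hx.1, hx.2]
      have hxr0 : 0 < x * r := mul_pos hx.1 hr0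
      have h1 := hasDerivAt_et hx.1 hx.2
      have h2 : HasDerivAt (fun t : ℝ => t * r) r x := by
        simpa using (hasDerivAt_id x).mul_const r
      have h3 := (hasDerivAt_et hxr0 hxr).comp x h2
      exact h1.sub h3
    refine antitoneOn_of_deriv_nonpos (convex_Ioc 0 1) ?_ ?_ ?_
    · refine continuousOn_et.sub (continuousOn_et.comp (continuousOn_id.mul continuousOn_const) ?_)
      intro x hx
      exact ⟨mul_pos hx.1 hr0, by nlinarith [hx.1, hx.2]⟩
    · rw [interior_Ioc]
      intro x hx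
      exact (hd x hx).differentiableAt.differentiableWithinAt
    · rw [interior_Ioc]
      intro x hx
      rw [(hd x hx).deriv]
      have hxr : x * r ≤ x := by nlinarith [hx.1, hx.2]
      have hxr0 : 0 < x * r := mul_pos hx.1 hr0
      have h1 := psi_mono hxr0 hxr hx.2
      have h2 : x * r / (1 + x * r) ≤ x / (1 + x) := by
        rw [div_le_div_iff₀ (by linarith) (by linarith [hx.1])]
        nlinarith
      have e : -((Real.log (1 + x) - Real.log (1 - x)) / x - 2 + x / (1 + x)) / x -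
          (-((Real.log (1 + x * r) - Real.log (1 - x * r)) / (x * r) - 2 +
            x * r / (1 + x * r)) / (x * r)) * r =
          ((Real.log (1 + x * r) - Real.log (1 - x * r)) / (x * r) + x * r / (1 + x * r) -
            ((Real.log (1 + x) - Real.log (1 - x)) / x + x / (1 + x))) / x := by
        have := hx.1.ne'
        have := hr0.ne'
        field_simp
        ring
      rw [e]
      exact div_nonpos_of_nonpos_of_nonneg (by linarith) hx.1.le
  have := hanti ⟨ht0, ht1⟩ (right_mem_Ioc.2 zero_lt_one) ht1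
  simp only [one_mul, et_one] at this
  linarith

/-! ### Integrals over `(0,1)` -/

theorem ftc {g g' : ℝ → ℝ} (hc : ContinuousOn g (Icc 0 1))
    (hd : ∀ x ∈ Ioo (0 : ℝ) 1, HasDerivAt g (g' x) x) (h : ∀ x ∈ Ioo (0 : ℝ) 1, 0 ≤ g' x) :
    IntegrableOn g' (Ioo 0 1) ∧ ∫ x in Ioo (0 : ℝ) 1, g' x = g 1 - g 0 := by
  have hi := intervalIntegral.integrableOn_deriv_of_nonneg hc hd h
  refine ⟨hi.mono_set Ioo_subset_Ioc_self, ?_⟩
  have := intervalIntegral.integral_eq_sub_of_hasDerivAt_of_le zero_le_one hc hd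
    ((intervalIntegrable_iff_integrableOn_Ioc_of_le zero_le_one).2 hi)
  rw [intervalIntegral.integral_of_le zero_le_one, integral_Ioc_eq_integral_Ioo] at this
  exact this

theorem bd_one (b : ℕ) (hb : 1 ≤ b) (t : ℝ) : bd b 1 t = b * t ^ (b - 1) := by
  obtain ⟨m, rfl⟩ : ∃ m, b = m + 1 := ⟨b - 1, by omega⟩
  unfold bd
  have h1 : (m + 1 + 1 - 1) = m + 1 := by omega
  have h2 : (m + 1 - 1) = m := by omega
  rw [h1, h2]
  simp only [Nat.sub_self, pow_zero, Nat.factorial_zero, Nat.cast_one, mul_one]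
  rw [Nat.factorial_succ]
  have : ((m.factorial : ℕ) : ℝ) ≠ 0 := by positivity
  push_cast
  field_simp

theorem meas_bd (b : ℕ) : Measurable fun t => ENNReal.ofReal (bd b 1 t) := by
  unfold bd
  fun_prop

theorem int_Bt {b : ℕ} (hb : 1 ≤ b) (f : ℝ → ℝ) :
    ∫ r, f r ∂(Bt b 1) = ∫ r in Ioo (0 : ℝ) 1, b * r ^ (b - 1) * f r := by
  unfold Bt
  rw [integral_withDensity_eq_integral_toReal_smul (meas_bd b)
    (Filter.Eventually.of_forall fun _ => ENNReal.ofReal_lt_top)]
  refine setIntegral_congr_fun measurableSet_Ioo fun r hr => ?_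
  have : 0 ≤ (b : ℝ) * r ^ (b - 1) := by have := hr.1; positivity
  simp only [smul_eq_mul, bd_one b hb, ENNReal.toReal_ofReal this]

theorem integrable_Bt {b : ℕ} (hb : 1 ≤ b) (f : ℝ → ℝ) :
    Integrable f (Bt b 1) ↔ IntegrableOn (fun r => b * r ^ (b - 1) * f r) (Ioo (0 : ℝ) 1) := by
  unfold Bt
  rw [integrable_withDensity_iff_integrable_smul' (meas_bd b)
    (Filter.Eventually.of_forall fun _ => ENNReal.ofReal_lt_top)]
  refine integrableOn_congr_fun (fun r hr => ?_) measurableSet_Ioo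
  have : 0 ≤ (b : ℝ) * r ^ (b - 1) := by have := hr.1; positivity
  simp only [smul_eq_mul, bd_one b hb, ENNReal.toReal_ofReal this]

theorem piece4 (m : ℕ) : IntegrableOn (fun r : ℝ => ((m + 1 : ℕ) : ℝ) * r ^ m) (Ioo 0 1) ∧
    ∫ r in Ioo (0 : ℝ) 1, ((m + 1 : ℕ) : ℝ) * r ^ m = 1 := by
  have := ftc (g := fun r => r ^ (m + 1)) (g' := fun r => ((m + 1 : ℕ) : ℝ) * r ^ m)
    (continuous_pow _).continuousOn (fun x _ => hasDerivAt_pow (m + 1) x)
    (fun x hx => by have := hx.1; positivity)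
  simpa using this

theorem prob_Bt {b : ℕ} (hb : 1 ≤ b) : IsProbabilityMeasure (Bt b 1) := by
  obtain ⟨m, rfl⟩ : ∃ m, b = m + 1 := ⟨b - 1, by omega⟩
  constructor
  unfold Bt
  rw [withDensity_apply _ MeasurableSet.univ, Measure.restrict_univ]
  have h := piece4 m
  have : ∫⁻ a in Ioo (0 : ℝ) 1, ENNReal.ofReal (bd (m + 1) 1 a) =
      ENNReal.ofReal (∫ r in Ioo (0 : ℝ) 1, ((m + 1 : ℕ) : ℝ) * r ^ m) := by
    rw [ofReal_integral_eq_lintegral_ofReal h.1]
    · refine setLIntegral_congr_fun measurableSet_Ioo fun r hr => ?_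
      simp only [bd_one (m + 1) hb, Nat.add_sub_cancel]
    · refine (ae_restrict_iff' measurableSet_Ioo).2 (Filter.Eventually.of_forall fun x hx => ?_)
      have := hx.1
      show (0 : ℝ) ≤ ((m + 1 : ℕ) : ℝ) * x ^ m
      positivity
  rw [this, h.2, ENNReal.ofReal_one]

theorem piece1 (m : ℕ) {t : ℝ} (ht0 : 0 < t) (ht1 : t ≤ 1) :
    IntegrableOn (fun r : ℝ => r ^ m * (m * La (t * r) + Real.log (1 + t * r) +
      Real.log (1 - t * r))) (Ioo 0 1) ∧
    ∫ r in Ioo (0 : ℝ) 1, r ^ m * (m * La (t * r) + Real.log (1 + t * r) +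
      Real.log (1 - t * r)) = La t := by
  have h := ftc (g := fun r => -(r ^ m * (Nn (t * r) / t - 2 * r)))
    (g' := fun r => -(r ^ m * (m * La (t * r) + Real.log (1 + t * r) + Real.log (1 - t * r))))
    ?_ ?_ ?_
  · constructor
    · simpa using h.1.neg
    · have h2 := h.2
      rw [integral_neg] at h2
      simp only [one_pow, mul_one, mul_zero, Nn_zero, zero_div, sub_zero, one_mul, neg_zero] at h2
      unfold La at h2 ⊢
      linarith
  · refine (Continuous.neg ?_).continuousOn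
    exact (continuous_pow m).mul (((continuous_Nn.comp (continuous_const.mul continuous_id)).div_const t).sub
      (continuous_const.mul continuous_id))
  · intro x hx
    have hxt : t * x < 1 := by nlinarith [hx.1, hx.2]
    have hxt0 : 0 < t * x := mul_pos ht0 hx.1
    have h1 : HasDerivAt (fun r : ℝ => t * r) t x := by simpa using (hasDerivAt_id x).const_mul t
    have h2 := (hasDerivAt_Nn (s := t * x) (by linarith) hxt).comp x h1
    have h3 := (h2.div_const t).sub ((hasDerivAt_id x).const_mul 2)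
    have h4 := ((hasDerivAt_pow m x).mul h3).neg
    refine h4.congr_deriv ?_
    have hx0 := hx.1.ne'
    have ht0' := ht0.ne'
    rcases m with _ | m
    · simp only [CharP.cast_eq_zero, pow_zero, Function.comp]
      field_simp
      ring
    · simp only [Nat.add_sub_cancel, Function.comp, La, id, Pi.sub_apply]
      field_simp
      ring
  · intro x hx
    have hxt : t * x < 1 := by nlinarith [hx.1, hx.2]
    have hxt0 : 0 < t * x := mul_pos ht0 hx.1
    have h1 := La_nonpos hxt0 hxt.le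
    have h2 := log_add_nonpos hxt0 hxt
    have h3 : 0 ≤ x ^ m := pow_nonneg hx.1.le _
    have h4 : (m : ℝ) * La (t * x) ≤ 0 := mul_nonpos_of_nonneg_of_nonpos (by positivity) h1
    have : x ^ m * (m * La (t * x) + Real.log (1 + t * x) + Real.log (1 - t * x)) ≤ 0 :=
      mul_nonpos_of_nonneg_of_nonpos h3 (by linarith)
    linarith

theorem piece2 (m : ℕ) : IntegrableOn (fun r : ℝ => -(r ^ m * Real.log r)) (Ioo 0 1) ∧
    ∫ r in Ioo (0 : ℝ) 1, -(r ^ m * Real.log r) = 1 / ((m : ℝ) + 1) ^ 2 := by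
  have h := ftc (g := fun r => -(r ^ m * (r * Real.log r)) / ((m : ℝ) + 1) +
      r ^ (m + 1) / ((m : ℝ) + 1) ^ 2) (g' := fun r => -(r ^ m * Real.log r)) ?_ ?_ ?_
  · refine ⟨h.1, ?_⟩
    rw [h.2]
    simp
  · refine Continuous.continuousOn ?_
    exact (((continuous_pow m).mul Real.continuous_mul_log).neg.div_const _).add
      ((continuous_pow _).div_const _)
  · intro x hx
    have hx0 := hx.1.ne'
    have h1 := ((hasDerivAt_pow (m + 1) x).mul (Real.hasDerivAt_log hx0)).neg.div_const ((m : ℝ) + 1)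
    have h2 := (hasDerivAt_pow (m + 1) x).div_const (((m : ℝ) + 1) ^ 2)
    have h3 := h1.add h2
    have e : (fun r : ℝ => -(r ^ m * (r * Real.log r)) / ((m : ℝ) + 1) +
        r ^ (m + 1) / ((m : ℝ) + 1) ^ 2) = fun r : ℝ => -(r ^ (m + 1) * Real.log r) / ((m : ℝ) + 1) +
        r ^ (m + 1) / ((m : ℝ) + 1) ^ 2 := by
      funext r
      rw [pow_succ]
      ring
    rw [e]
    refine h3.congr_deriv ?_
    have : (m : ℝ) + 1 ≠ 0 := by positivity
    simp only [Nat.add_sub_cancel]
    push_cast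
    field_simp
    ring
  · intro x hx
    have : Real.log x ≤ 0 := Real.log_nonpos hx.1.le hx.2.le
    have h3 : 0 ≤ x ^ m := pow_nonneg hx.1.le _
    nlinarith [mul_nonneg h3 (neg_nonneg.2 this)]

theorem piece3 (m : ℕ) : IntegrableOn (fun r : ℝ => -(((m + 1 : ℕ) : ℝ) * r ^ m *
      Real.log (1 - r))) (Ioo 0 1) ∧
    ∫ r in Ioo (0 : ℝ) 1, -(((m + 1 : ℕ) : ℝ) * r ^ m * Real.log (1 - r)) = hh (m + 1) := by
  have h := ftc (g := fun r => (∑ k ∈ Finset.range (m + 1), r ^ k) * ((1 - r) * Real.log (1 - r)) +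
      ∑ k ∈ Finset.range (m + 1), r ^ (k + 1) / ((k : ℝ) + 1))
    (g' := fun r => -(((m + 1 : ℕ) : ℝ) * r ^ m * Real.log (1 - r))) ?_ ?_ ?_
  · refine ⟨h.1, ?_⟩
    rw [h.2]
    simp [hh]
  · refine Continuous.continuousOn ?_
    refine Continuous.add (Continuous.mul ?_ ?_) ?_
    · fun_prop
    · exact Real.continuous_mul_log.comp (continuous_const.sub continuous_id)
    · fun_prop
  · intro x hx
    have hx0 := hx.1.ne'
    have hx1 : 1 - x ≠ 0 := by linarith [hx.2]
    have e : (fun r : ℝ => (∑ k ∈ Finset.range (m + 1), r ^ k) * ((1 - r) * Real.log (1 - r)) +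
        ∑ k ∈ Finset.range (m + 1), r ^ (k + 1) / ((k : ℝ) + 1)) =
        fun r : ℝ => (1 - r ^ (m + 1)) * Real.log (1 - r) +
        ∑ k ∈ Finset.range (m + 1), r ^ (k + 1) / ((k : ℝ) + 1) := by
      funext r
      rw [← mul_assoc, geom_sum_mul_neg]
    rw [e]
    have a2 : HasDerivAt (fun s : ℝ => 1 - s) (-1) x := (hasDerivAt_id x).const_sub 1
    have h1 := ((hasDerivAt_pow (m + 1) x).const_sub 1).mul (a2.log hx1)
    have h2 : HasDerivAt (fun r : ℝ => ∑ k ∈ Finset.range (m + 1), r ^ (k + 1) / ((k : ℝ) + 1))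
        (∑ k ∈ Finset.range (m + 1), x ^ k) x := by
      refine HasDerivAt.fun_sum fun k _ => ?_
      refine ((hasDerivAt_pow (k + 1) x).div_const ((k : ℝ) + 1)).congr_deriv ?_
      have : (k : ℝ) + 1 ≠ 0 := by positivity
      simp only [Nat.add_sub_cancel]
      push_cast
      field_simp
    refine (h1.add h2).congr_deriv ?_
    have h3 : ∑ k ∈ Finset.range (m + 1), x ^ k = (1 - x ^ (m + 1)) / (1 - x) := by
      rw [eq_div_iff hx1, geom_sum_mul_neg]
    rw [h3]
    simp only [Nat.add_sub_cancel]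
    field_simp
    ring
  · intro x hx
    have : Real.log (1 - x) ≤ 0 := Real.log_nonpos (by linarith [hx.2]) (by linarith [hx.1])
    have h3 : 0 ≤ ((m + 1 : ℕ) : ℝ) * x ^ m := mul_nonneg (by positivity) (pow_nonneg hx.1.le _)
    nlinarith [mul_nonneg h3 (neg_nonneg.2 this)]

/-- the integrand for `x = 0` -/
def FF (m : ℕ) (t r : ℝ) : ℝ :=
  (Real.log (1 + t * r) - Real.log 2 - Real.log (t * r)) +
    m * (La (t * r) + 2 - Real.log (t * r) - 2 * Real.log 2) + Real.log (1 - t * r) - Real.log (1 - r)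

theorem total (m : ℕ) {t : ℝ} (ht0 : 0 < t) (ht1 : t ≤ 1) :
    Integrable (FF m t) (Bt (m + 1) 1) ∧
    ∫ r, FF m t r ∂(Bt (m + 1) 1) = ((m : ℝ) + 1) * La t + 1 + hh (m + 1) +
      (-((m : ℝ) + 1) * Real.log t - Real.log 2 + 2 * m * (1 - Real.log 2)) := by
  have p1 := piece1 m ht0 ht1
  have p2 := piece2 m
  have p3 := piece3 m
  have p4 := piece4 m
  set C0 : ℝ := -((m : ℝ) + 1) * Real.log t - Real.log 2 + 2 * m * (1 - Real.log 2) with hC0
  have hfun : EqOn (fun r : ℝ => ((m + 1 : ℕ) : ℝ) * r ^ (m + 1 - 1) * FF m t r)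
      (fun r : ℝ => ((m : ℝ) + 1) * (r ^ m * (m * La (t * r) + Real.log (1 + t * r) +
        Real.log (1 - t * r))) + (((m : ℝ) + 1) ^ 2 * (-(r ^ m * Real.log r)) +
        (-(((m + 1 : ℕ) : ℝ) * r ^ m * Real.log (1 - r)) + C0 * (((m + 1 : ℕ) : ℝ) * r ^ m))))
      (Ioo 0 1) := by
    intro r hr
    simp only [FF, Nat.add_sub_cancel, hC0]
    rw [Real.log_mul ht0.ne' hr.1.ne']
    push_cast
    ring
  have i1 := p1.1.const_mul ((m : ℝ) + 1)
  have i2 := p2.1.const_mul (((m : ℝ) + 1) ^ 2)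
  have i4 := p4.1.const_mul C0
  have i34 : IntegrableOn (fun r : ℝ => -(((m + 1 : ℕ) : ℝ) * r ^ m * Real.log (1 - r)) +
      C0 * (((m + 1 : ℕ) : ℝ) * r ^ m)) (Ioo 0 1) := p3.1.add i4
  have i234 : IntegrableOn (fun r : ℝ => ((m : ℝ) + 1) ^ 2 * (-(r ^ m * Real.log r)) +
      (-(((m + 1 : ℕ) : ℝ) * r ^ m * Real.log (1 - r)) +
      C0 * (((m + 1 : ℕ) : ℝ) * r ^ m))) (Ioo 0 1) := i2.add i34
  constructor
  · rw [integrable_Bt (Nat.succ_pos m)]
    exact (integrableOn_congr_fun hfun measurableSet_Ioo).2 (i1.add i234)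
  · rw [int_Bt (Nat.succ_pos m), setIntegral_congr_fun measurableSet_Ioo hfun]
    rw [integral_add i1 i234, integral_add i2 i34, integral_add p3.1 i4, integral_const_mul,
      integral_const_mul, integral_const_mul, p1.2, p2.2, p3.2, p4.2]
    have : (m : ℝ) + 1 ≠ 0 := by positivity
    field_simp
    ring

theorem ae_mem (b : ℕ) : ∀ᵐ r ∂(Bt b 1), r ∈ Ioo (0 : ℝ) 1 :=
  (withDensity_absolutelyContinuous _ _).ae_le (ae_restrict_mem measurableSet_Ioo)

theorem measurable_et : Measurable et := by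
  unfold et La Nn
  fun_prop

theorem integrable_et {b : ℕ} (hb : 1 ≤ b) {t : ℝ} (ht0 : 0 < t) (ht1 : t ≤ 1) :
    Integrable (fun r => et (t * r)) (Bt b 1) := by
  have := prob_Bt hb
  refine (integrable_const (2 : ℝ)).mono' ?_ ?_
  · exact (measurable_et.comp (measurable_const_mul t)).aestronglyMeasurable
  · filter_upwards [ae_mem b] with r hr
    have h0 : 0 < t * r := mul_pos ht0 hr.1
    have h1 : t * r ≤ 1 := by nlinarith [hr.1, hr.2]
    rw [Real.norm_eq_abs, abs_of_nonneg (et_nonneg h0 h1)]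
    exact et_le h0 h1

theorem int_et_le {b : ℕ} (hb : 1 ≤ b) {t : ℝ} (ht0 : 0 < t) (ht1 : t ≤ 1) :
    ∫ r, et (t * r) ∂(Bt b 1) ≤ et t + ∫ r, et r ∂(Bt b 1) := by
  have := prob_Bt hb
  have h1 := integrable_et hb ht0 ht1
  have h2 : Integrable (fun r => et r) (Bt b 1) := by
    simpa using integrable_et hb zero_lt_one le_rfl
  have h3 : ∫ r, (et t + et r) ∂(Bt b 1) = et t + ∫ r, et r ∂(Bt b 1) := by
    rw [integral_add (integrable_const _) h2]
    simp
  rw [← h3]
  refine integral_mono_ae h1 ((integrable_const _).add h2) ?_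
  filter_upwards [ae_mem b] with r hr
  exact et_mul ht0 ht1 hr.1 hr.2

theorem La_one : La 1 = 2 * Real.log 2 - 2 := by
  unfold La Nn
  norm_num

theorem int_et (m : ℕ) :
    (m : ℝ) * ∫ r, et r ∂(Bt (m + 1) 1) ≤ hh (m + 1) - 3 / 2 + Real.log 2 := by
  have hp := prob_Bt (Nat.succ_pos m)
  have h1 := total m (t := 1) zero_lt_one le_rfl
  have h2 : Integrable (fun r => et r) (Bt (m + 1) 1) := by
    simpa using integrable_et (Nat.succ_pos m) zero_lt_one le_rfl
  have p2 := piece2 m
  have h3 : Integrable (fun r => -Real.log r) (Bt (m + 1) 1) := by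
    rw [integrable_Bt (Nat.succ_pos m)]
    refine (integrableOn_congr_fun ?_ measurableSet_Ioo).2 (p2.1.const_mul ((m : ℝ) + 1))
    intro r hr
    simp only [Nat.succ_eq_add_one, Nat.add_sub_cancel]
    push_cast
    ring
  have h4 : ∫ r, -Real.log r ∂(Bt (m + 1) 1) = 1 / ((m : ℝ) + 1) := by
    rw [int_Bt (Nat.succ_pos m)]
    have : EqOn (fun r : ℝ => ((m + 1 : ℕ) : ℝ) * r ^ (m + 1 - 1) * -Real.log r)
        (fun r => ((m : ℝ) + 1) * (-(r ^ m * Real.log r))) (Ioo 0 1) := by
      intro r hr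
      simp only [Nat.add_sub_cancel]
      push_cast
      ring
    rw [setIntegral_congr_fun measurableSet_Ioo this, integral_const_mul, p2.2]
    have : (m : ℝ) + 1 ≠ 0 := by positivity
    field_simp
  have h5 : ∫ r, (((m : ℝ) + 1) / 2 * (-Real.log r) + m * et r) ∂(Bt (m + 1) 1) ≤
      ∫ r, FF m 1 r ∂(Bt (m + 1) 1) := by
    refine integral_mono_ae ((h3.const_mul _).add (h2.const_mul _)) h1.1 ?_
    filter_upwards [ae_mem (m + 1)] with r hr
    have hr0 := hr.1
    have hlog : -Real.log r / 2 ≤ Real.log (1 + r) - Real.log 2 - Real.log r := by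
      have : Real.log (4 * r) ≤ Real.log ((1 + r) ^ 2) :=
        Real.log_le_log (by positivity) (by nlinarith [sq_nonneg (1 - r)])
      rw [Real.log_mul (by norm_num) hr0.ne', Real.log_pow,
        show (4 : ℝ) = 2 ^ 2 by norm_num, Real.log_pow] at this
      push_cast at this
      linarith
    have : 0 ≤ (m : ℝ) + 1 := by positivity
    have h6 := mul_le_mul_of_nonneg_left hlog this
    simp only [FF, one_mul, et]
    linarith
  rw [integral_add (h3.const_mul _) (h2.const_mul _), integral_const_mul, integral_const_mul, h4,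
    h1.2, La_one, Real.log_one] at h5
  have : ((m : ℝ) + 1) / 2 * (1 / ((m : ℝ) + 1)) = 1 / 2 := by
    have : (m : ℝ) + 1 ≠ 0 := by positivity
    field_simp
  rw [this] at h5
  linarith

theorem WW_eq (m : ℕ) (x : ℝ) {z : ℝ} (hz : 0 ≤ z) :
    WW (m + 1) x z = ((m : ℝ) + 1) * La (1 / (1 + z)) + 1 + hh (m + 1) +
      (-((m : ℝ) + 1) * Real.log (1 / (1 + z)) - Real.log 2 + 2 * m * (1 - Real.log 2)) -
      x * ∫ r, et (1 / (1 + z) * r) ∂(Bt (m + 1) 1) := by
  set t : ℝ := 1 / (1 + z) with ht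
  have h1z : 0 < 1 + z := by linarith
  have ht0 : 0 < t := by positivity
  have ht1 : t ≤ 1 := by rw [ht, div_le_one h1z]; linarith
  have h1 := total m ht0 ht1
  have h2 := integrable_et (b := m + 1) (Nat.succ_pos m) ht0 ht1
  rw [← h1.2, ← integral_const_mul, ← integral_sub h1.1 (h2.const_mul x)]
  unfold WW
  refine integral_congr_ae ?_
  filter_upwards [ae_mem (m + 1)] with r hr
  have hs0 : 0 < t * r := mul_pos ht0 hr.1
  have hs1 : t * r < 1 := by nlinarith [hr.1, hr.2]
  have e1 : (1 + z - r) / r = (1 - t * r) / (t * r) := by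
    have := hr.1.ne'
    rw [ht]
    field_simp
  have e2 : (1 + z - r) / ((1 + z) * (1 - r)) = (1 - t * r) / (1 - r) := by
    have : 1 - r ≠ 0 := by linarith [hr.2]
    rw [ht]
    field_simp
  rw [e1, e2, Real.log_div (by linarith) (by linarith [hr.2])]
  unfold mf
  rw [kap_sub hs0 hs1.le, lam_sub hs0]
  unfold FF et
  push_cast
  ring

/-- the statement of the job -/
theorem thm : S_WL := by
  intro b x z hb hx hxb hz
  obtain ⟨m, rfl⟩ : ∃ m, b = m + 1 := ⟨b - 1, by omega⟩
  rw [WW_eq m x hz]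
  set t : ℝ := 1 / (1 + z) with ht
  have h1z : 0 < 1 + z := by linarith
  have ht0 : 0 < t := by positivity
  have ht1 : t ≤ 1 := by rw [ht, div_le_one h1z]; linarith
  have hlt : Real.log (1 + z) = -Real.log t := by
    rw [ht, Real.log_div one_ne_zero h1z.ne', Real.log_one]; ring
  have ez : z = (1 - t) / t := by
    rw [ht]
    field_simp
    ring
  have ek : kap z = La t + 2 - Real.log t - 2 * Real.log 2 := by
    conv_lhs => rw [ez]
    exact kap_sub ht0 ht1
  have el : lam z = Real.log (1 + t) - Real.log 2 - Real.log t := by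
    conv_lhs => rw [ez]
    exact lam_sub ht0
  have ekl : kap z - lam z = et t := by
    rw [ek, el]
    unfold et
    ring
  have h5 := int_et_le (b := m + 1) (Nat.succ_pos m) ht0 ht1
  have h6 := int_et m
  have hI : 0 ≤ ∫ r, et r ∂(Bt (m + 1) 1) := by
    refine integral_nonneg_of_ae ?_
    filter_upwards [ae_mem (m + 1)] with r hr
    exact et_nonneg hr.1 hr.2.le
  set I := ∫ r, et r ∂(Bt (m + 1) 1) with hIdef
  set J := ∫ r, et (t * r) ∂(Bt (m + 1) 1) with hJ
  have hxJ : x * J ≤ x * et t + x * I := by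
    have := mul_le_mul_of_nonneg_left h5 hx
    linarith
  have hxI : x * I ≤ if m + 1 ≤ 2 then 0 else
      (2 / 5 - 1 / (20 * (((m + 1 : ℕ) : ℝ) - 1))) * (hh (m + 1) - 3 / 2 + Real.log 2) := by
    unfold bb at hxb
    split_ifs at hxb ⊢ with hm
    · have : x = 0 := le_antisymm hxb hx
      rw [this, zero_mul]
    · have hm2 : (2 : ℝ) ≤ m := by
        have : 2 ≤ m := by omega
        exact_mod_cast this
      push_cast at hxb ⊢
      have e : (2 / 5 - 1 / (20 * ((m : ℝ) + 1 - 1))) * m = 2 / 5 * ((m : ℝ) + 1) - 9 / 20 := by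
        have : (m : ℝ) ≠ 0 := by positivity
        have : (m : ℝ) + 1 - 1 = m := by ring
        rw [this]
        field_simp
        ring
      have hc : 0 ≤ 2 / 5 - 1 / (20 * ((m : ℝ) + 1 - 1)) := by
        have h7 : (m : ℝ) + 1 - 1 = m := by ring
        rw [h7, sub_nonneg, div_le_iff₀ (by positivity)]
        nlinarith
      calc x * I ≤ (2 / 5 * ((m : ℝ) + 1) - 9 / 20) * I := mul_le_mul_of_nonneg_right hxb hI
        _ = (2 / 5 - 1 / (20 * ((m : ℝ) + 1 - 1))) * (m * I) := by rw [← e]; ring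
        _ ≤ _ := mul_le_mul_of_nonneg_left h6 hc
  rw [ekl, ek, hlt]
  push_cast at hxI ⊢
  have e7 : (m : ℝ) + 1 - 1 = m := by ring
  rw [e7] at hxI ⊢
  nlinarith [hxI, hxJ]

end Pool.Agent.TH701.WL
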