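import Pool.Agent.TH701.Main

set_option autoImplicit false

noncomputable section

namespace Pool.Agent.TH701

open scoped Matrix.Norms.L2Operator
open Matrix WithLp

/-- divide the accuracy by `n ^ 11` -/
def shrink (p : In) : In := (p.1, p.2.1 / natR p.1 ^ 11, p.2.2)

theorem comp_shrink : ∃ K : ℕ, Comp shrink (fun p => K * (p.1 + 1)) := by
  have h0 : Comp (fun p : In => (p.1, 0, p.2)) (fun _ => 10) :=
    (Comp.fst.pair (Comp.zero.pair Comp.snd)).le fun _ => by simp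
  have hr : PC 1 0 (fun p : ℕ × ℕ × (ℝ × List (List ℝ) × List ℝ) => natR p.1) :=
    PC.pc_natR (a := 0)
  have h2 := hr.mul hr
  have h4 := h2.mul h2
  have h8 := h4.mul h4
  have h11 : PC 1 0 (fun p : ℕ × ℕ × (ℝ × List (List ℝ) × List ℝ) => natR p.1 ^ 11) :=
    (h8.mul (h2.mul hr)).congr fun p => by ring
  have h1 : PC 1 0 (fun p : ℕ × ℕ × (ℝ × List (List ℝ) × List ℝ) =>
      (p.1, (p.2.2.1 / natR p.1 ^ 11, p.2.2.2))) :=
    PC.n.pair ((PC.arg.fst.div h11).pair PC.arg.snd)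
  obtain ⟨K, hK⟩ := h1
  refine ⟨10 + K, (h0.comp hK).le fun p => ?_⟩
  simp only [bd]
  have : (p.1 + 1) ^ 1 * (0 + 1) ^ 0 = p.1 + 1 := by ring
  rw [this]
  nlinarith

/-- quantitative invertibility from the left gives quantitative invertibility from the right -/
theorem right_of_left {n : ℕ} (A : Matrix (Fin n) (Fin n) ℝ) (K : ℝ) (hK : 0 ≤ K)
    (h : ∀ x : Fin n → ℝ, ‖x‖ ≤ K * ‖x ᵥ* A‖) :
    IsUnit A ∧ ∀ y : Fin n → ℝ, nrm y ≤ (n : ℝ) ^ 2 * K * nrm (A *ᵥ y) := by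
  have hinj : Function.Injective A.vecMul := by
    intro x y hxy
    have h1 := h (x - y)
    have h2 : (x - y) ᵥ* A = 0 := by
      rw [Matrix.sub_vecMul]
      exact sub_eq_zero.2 hxy
    rw [h2, norm_zero, mul_zero] at h1
    exact sub_eq_zero.1 (norm_le_zero_iff.1 h1)
  have hu : IsUnit A := Matrix.vecMul_injective_iff_isUnit.1 hinj
  refine ⟨hu, fun y => ?_⟩
  have hdet : IsUnit A.det := (Matrix.isUnit_iff_isUnit_det A).1 hu
  have hent : ∀ i j, |A⁻¹ i j| ≤ K := by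
    intro i j
    have h1 := h (Pi.single i 1 ᵥ* A⁻¹)
    rw [Matrix.vecMul_vecMul, Matrix.nonsing_inv_mul A hdet, Matrix.vecMul_one] at h1
    have h2 : ‖(Pi.single i (1 : ℝ) : Fin n → ℝ)‖ ≤ 1 := by
      rw [pi_norm_le_iff_of_nonneg zero_le_one]
      intro k
      by_cases hk : k = i
      · subst hk; simp
      · simp [hk]
    have h3 : (Pi.single i (1 : ℝ) ᵥ* A⁻¹) j = A⁻¹ i j := by
      rw [Matrix.single_one_vecMul]; rfl
    have h4 := norm_le_pi_norm (Pi.single i (1 : ℝ) ᵥ* A⁻¹) j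
    rw [h3, Real.norm_eq_abs] at h4
    calc _ ≤ _ := h4
      _ ≤ _ := h1
      _ ≤ K * 1 := mul_le_mul_of_nonneg_left h2 hK
      _ = K := mul_one K
  have hy : y = A⁻¹ *ᵥ (A *ᵥ y) := by
    rw [Matrix.mulVec_mulVec, Matrix.nonsing_inv_mul A hdet, Matrix.one_mulVec]
  calc nrm y = nrm (A⁻¹ *ᵥ (A *ᵥ y)) := by rw [← hy]
    _ ≤ ‖A⁻¹‖ * nrm (A *ᵥ y) := nrm_mulVec _ _
    _ ≤ ((n : ℝ) ^ 2 * K) * nrm (A *ᵥ y) :=
        mul_le_mul_of_nonneg_right (opNorm_le_entries _ _ hent) (nrm_nonneg _)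

/-- the good matrices -/
def Good (n : ℕ) (A : Fin n → Fin n → ℝ) : Prop :=
  (∀ i j, |A i j| ≤ (n : ℝ) ^ 2) ∧ ∀ x : Fin n → ℝ, ‖x‖ ≤ (n : ℝ) ^ 5 * ‖x ᵥ* (Matrix.of A)‖

/-- **The solver for good matrices.** -/
theorem good_solver : ∃ (P : Prog In (List ℝ)) (C : ℝ), ∀ (n : ℕ) (A : Fin n → Fin n → ℝ)
    (b : Fin n → ℝ) (ε : ℝ), 2 ≤ n → Good n A → 0 < ε → ε < 1 →
    ∃ (x : Fin n → ℝ) (t : ℕ),
      Run P (n, ε, List.ofFn fun i => List.ofFn (A i), List.ofFn b) (List.ofFn x) t ∧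
      (t : ℝ) ≤ C * (n : ℝ) ^ 2 * Real.log (n / ε) ^ 3 ∧
      nrm (Matrix.of A *ᵥ x - b) ≤ ε * nrm b := by
  obtain ⟨P, K, hP⟩ := solver
  obtain ⟨K', P', hP'⟩ := comp_shrink
  refine ⟨Prog.seq P' P, (4 * K * 400 ^ 3 + 2 * K') * 10, ?_⟩
  intro n A b ε hn hA hε hε1
  have hn1 : 1 ≤ n := by omega
  have hn2 : (2 : ℝ) ≤ n := by exact_mod_cast hn
  have hn0 : (0 : ℝ) < n := by linarith
  set M : Matrix (Fin n) (Fin n) ℝ := Matrix.of A with hM
  obtain ⟨hu, hr⟩ := right_of_left M ((n : ℝ) ^ 5) (by positivity) hA.2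
  have hdet : IsUnit M.det := (Matrix.isUnit_iff_isUnit_det M).1 hu
  set S : ℝ := ∑ i, ∑ j, |M i j| with hS
  have hS1 : S ≤ (n : ℝ) ^ 4 := by
    calc S ≤ ∑ _i : Fin n, ∑ _j : Fin n, (n : ℝ) ^ 2 :=
          Finset.sum_le_sum fun i _ => Finset.sum_le_sum fun j _ => hA.1 i j
      _ = (n : ℝ) ^ 4 := by simp; ring
  have hnorm : ‖M‖ ≤ S := opNorm_le_sum M
  have hS0 : 0 < S := by
    have h1 := hr (Pi.single ⟨0, by omega⟩ 1)
    have h2 : (1 : ℝ) ≤ nrm (Pi.single (⟨0, by omega⟩ : Fin n) (1 : ℝ)) := by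
      have := abs_apply_le_nrm (Pi.single (⟨0, by omega⟩ : Fin n) (1 : ℝ)) ⟨0, by omega⟩
      simpa using this
    by_contra hneg
    have h3 : ‖M‖ ≤ 0 := hnorm.trans (not_lt.1 hneg)
    have h4 := nrm_mulVec M (Pi.single ⟨0, by omega⟩ 1)
    have h5 : ‖M‖ * nrm (Pi.single (⟨0, by omega⟩ : Fin n) (1 : ℝ)) ≤ 0 :=
      mul_nonpos_of_nonpos_of_nonneg h3 (nrm_nonneg _)
    have h6 : (n : ℝ) ^ 2 * (n : ℝ) ^ 5 * nrm (M *ᵥ Pi.single ⟨0, by omega⟩ 1) ≤ 0 :=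
      mul_nonpos_of_nonneg_of_nonpos (by positivity) (h4.trans h5)
    linarith
  set ε' : ℝ := ε / (n : ℝ) ^ 11 with hε'
  have hε'0 : 0 < ε' := by positivity
  have hε'1 : ε' ≤ 1 := by
    rw [hε', div_le_one (by positivity)]
    have : (1 : ℝ) ≤ (n : ℝ) ^ 11 := one_le_pow₀ (by linarith)
    linarith
  set σ : ℝ := 1 / (2 * (n : ℝ) ^ 11) with hσ
  have hσ0 : 0 < σ := by positivity
  have hσ1 : ∀ v, σ * (2 * S) * nrm v ≤ nrm (M *ᵥ v) := by
    intro v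
    have h1 := hr v
    have h2 : σ * (2 * S) ≤ 1 / (n : ℝ) ^ 7 := by
      rw [hσ]
      calc 1 / (2 * (n : ℝ) ^ 11) * (2 * S) ≤ 1 / (2 * (n : ℝ) ^ 11) * (2 * (n : ℝ) ^ 4) := by
            gcongr
        _ = 1 / (n : ℝ) ^ 7 := by field_simp
    calc σ * (2 * S) * nrm v ≤ 1 / (n : ℝ) ^ 7 * nrm v :=
          mul_le_mul_of_nonneg_right h2 (nrm_nonneg v)
      _ ≤ 1 / (n : ℝ) ^ 7 * ((n : ℝ) ^ 2 * (n : ℝ) ^ 5 * nrm (M *ᵥ v)) :=
          mul_le_mul_of_nonneg_left h1 (by positivity)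
      _ = nrm (M *ᵥ v) := by field_simp
  set Q : ℝ := 1024 * (n : ℝ) ^ 37 / ε with hQ
  have hQ1 : 1 ≤ Q := by
    rw [hQ, le_div_iff₀ hε]
    have h1 : (1 : ℝ) ≤ (n : ℝ) ^ 37 := one_le_pow₀ (by linarith)
    linarith
  set k : ℕ := ⌈Real.logb 2 Q⌉₊ with hk
  have hQk : Q ≤ 2 ^ (k + 1) := by
    have h1 : Real.logb 2 Q ≤ k := Nat.le_ceil _
    rw [Real.logb_le_iff_le_rpow (by norm_num) (by linarith), Real.rpow_natCast] at h1
    exact h1.trans (pow_le_pow_right₀ (by norm_num) (by omega))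
  have hlev : 256 * (n : ℝ) ^ 4 / (σ ^ 2 * ε') ≤ 2 ^ (k + 1) := by
    refine le_trans (le_of_eq ?_) hQk
    rw [hQ, hσ, hε']
    field_simp
    ring
  set x₀ : Fin n → ℝ := M⁻¹ *ᵥ b with hx₀
  have hx0 : M *ᵥ x₀ = b := by
    rw [hx₀, Matrix.mulVec_mulVec, Matrix.mul_nonsing_inv M hdet, Matrix.one_mulVec]
  obtain ⟨x, t, ht, hrun, hx⟩ := hP n M b x₀ ε' σ k hn1 hε'0 hε'1 hσ0 hσ1 hx0 hS0 hlev
  obtain ⟨t', ht', hrun'⟩ := hP' (n, ε, encM M, encV b)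
  have hsh : shrink (n, ε, encM M, encV b) = (n, ε', encM M, encV b) := by
    unfold shrink
    simp only [natR_eq, hε']
  rw [hsh] at hrun'
  refine ⟨x, t' + t, Run.seq hrun' hrun, ?_, ?_⟩
  · -- cost
    set Lg := Real.log (n / ε) with hLg
    have hlog2 : (0.69 : ℝ) < Real.log 2 := by
      have := Real.log_two_gt_d9
      linarith
    have hnε : (2 : ℝ) ≤ n / ε := by
      rw [le_div_iff₀ hε]; nlinarith
    have hLg1 : Real.log 2 ≤ Lg := Real.log_le_log (by norm_num) hnε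
    have hLge : Lg = Real.log n + Real.log (1 / ε) := by
      rw [hLg, div_eq_mul_one_div, Real.log_mul (by positivity) (by positivity)]
    have hlogε : 0 ≤ Real.log (1 / ε) := Real.log_nonneg (by
      rw [le_div_iff₀ hε]; linarith)
    have hlogn : 0 ≤ Real.log n := Real.log_nonneg (by linarith)
    have hk3 : ((k : ℝ) + 3) ≤ 400 * Lg := by
      have h1 : (k : ℝ) < Real.logb 2 Q + 1 :=
        Nat.ceil_lt_add_one (Real.logb_nonneg (by norm_num) hQ1)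
      have h2 : Real.log Q = Real.log 1024 + 37 * Real.log n + Real.log (1 / ε) := by
        rw [hQ, div_eq_mul_one_div, Real.log_mul (by positivity) (by positivity),
          Real.log_mul (by norm_num) (by positivity), Real.log_pow]
        push_cast
        ring
      have h3 : Real.log 1024 = 10 * Real.log 2 := by
        rw [show (1024 : ℝ) = 2 ^ 10 by norm_num, Real.log_pow]
        push_cast; ring
      have h4 : Real.logb 2 Q ≤ 200 * Lg := by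
        unfold Real.logb
        rw [div_le_iff₀ (by linarith), h2, h3]
        have h5 : 138 * Lg ≤ 200 * Lg * Real.log 2 := by
          have : 0 ≤ Lg := by linarith
          nlinarith
        have h6 : 37 * Real.log n + Real.log (1 / ε) ≤ 37 * Lg := by
          rw [hLge]; nlinarith
        linarith
      linarith
    have hLg0 : 0 < Lg := by linarith
    have ht1 : (t : ℝ) ≤ K * (((n : ℝ) + 1) ^ 2 * ((k : ℝ) + 3) ^ 3) := by exact_mod_cast ht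
    have ht2 : (t' : ℝ) ≤ K' * ((n : ℝ) + 1) := by exact_mod_cast ht'
    have hn4 : ((n : ℝ) + 1) ^ 2 ≤ 4 * (n : ℝ) ^ 2 := by nlinarith
    have hn5 : (n : ℝ) + 1 ≤ 2 * (n : ℝ) ^ 2 := by nlinarith
    have hK0 : (0 : ℝ) ≤ K := Nat.cast_nonneg K
    have hK'0 : (0 : ℝ) ≤ K' := Nat.cast_nonneg K'
    have hL3 : (1 : ℝ) ≤ 10 * Lg ^ 3 := by
      have h7 : (0.69 : ℝ) ≤ Lg := by linarith
      have h8 : (0.69 : ℝ) ^ 3 ≤ Lg ^ 3 := pow_le_pow_left₀ (by norm_num) h7 3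
      norm_num at h8 ⊢
      linarith
    have h9 : ((k : ℝ) + 3) ^ 3 ≤ (400 * Lg) ^ 3 := pow_le_pow_left₀ (by positivity) hk3 3
    push_cast
    calc (t' : ℝ) + t ≤ K' * ((n : ℝ) + 1) + K * (((n : ℝ) + 1) ^ 2 * ((k : ℝ) + 3) ^ 3) :=
          add_le_add ht2 ht1
      _ ≤ K' * (2 * (n : ℝ) ^ 2) + K * ((4 * (n : ℝ) ^ 2) * (400 * Lg) ^ 3) := by gcongr
      _ = (2 * K' * (n : ℝ) ^ 2) * 1 + (4 * K * 400 ^ 3) * (n : ℝ) ^ 2 * Lg ^ 3 := by ring
      _ ≤ (2 * K' * (n : ℝ) ^ 2) * (10 * Lg ^ 3)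
          + ((4 * K * 400 ^ 3) * (n : ℝ) ^ 2 * Lg ^ 3) * 10 := by
          apply add_le_add
          · exact mul_le_mul_of_nonneg_left hL3 (by positivity)
          · apply le_mul_of_one_le_right (by positivity) (by norm_num)
      _ = (4 * K * 400 ^ 3 + 2 * K') * 10 * (n : ℝ) ^ 2 * Lg ^ 3 := by ring
  · -- accuracy
    have h1 : M *ᵥ x - b = M *ᵥ (x - x₀) := by
      rw [Matrix.mulVec_sub, hx0]
    rw [h1]
    have h2 : nrm x₀ ≤ (n : ℝ) ^ 7 * nrm b := by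
      have := hr x₀
      rw [hx0] at this
      calc _ ≤ _ := this
        _ = _ := by ring
    calc nrm (M *ᵥ (x - x₀)) ≤ ‖M‖ * nrm (x - x₀) := nrm_mulVec _ _
      _ ≤ (n : ℝ) ^ 4 * (ε' * nrm x₀) :=
          mul_le_mul (hnorm.trans hS1) hx (nrm_nonneg _) (by positivity)
      _ ≤ (n : ℝ) ^ 4 * (ε' * ((n : ℝ) ^ 7 * nrm b)) := by gcongr
      _ = ε * nrm b := by
          rw [hε']
          field_simp

end Pool.Agent.TH701
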