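import Pool.Agent.TH701.Asym
import Pool.Agent.TH701.Wrap

set_option autoImplicit false

noncomputable section

namespace Pool.Agent.TH701

open Finset Filter Topology MeasureTheory ProbabilityTheory
open scoped ENNReal

/-- the law of an `n × n` matrix with independent entries with the law `μ` -/
def matLaw (μ : Measure ℝ) (n : ℕ) : Measure (Fin n → Fin n → ℝ) :=
  Measure.pi fun _ => Measure.pi fun _ => μ

/-! ### The good event is closed -/

theorem isClosed_good (n : ℕ) : IsClosed {A : Fin n → Fin n → ℝ | Good n A} := by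
  have h1 : {A : Fin n → Fin n → ℝ | Good n A}
      = (⋂ i, ⋂ j, {A : Fin n → Fin n → ℝ | |A i j| ≤ (n : ℝ) ^ 2}) ∩
        ⋂ x : Fin n → ℝ, {A : Fin n → Fin n → ℝ | ‖x‖ ≤ (n : ℝ) ^ 5 *
          ‖Matrix.vecMul x (Matrix.of A)‖} := by
    ext A
    simp [Good]
  rw [h1]
  refine IsClosed.inter (isClosed_iInter fun i => isClosed_iInter fun j => ?_)
    (isClosed_iInter fun x => ?_)
  · apply isClosed_le _ continuous_const
    exact (continuous_apply_apply i j).abs
  · apply isClosed_le continuous_const
    apply continuous_const.mul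
    apply Continuous.norm
    apply Continuous.matrix_vecMul continuous_const
    exact continuous_id

/-- if `A` is not good then it has a large entry or nearly kills a unit vector -/
theorem not_good {n : ℕ} (hn : 1 ≤ n) {A : Fin n → Fin n → ℝ} (h : ¬ Good n A) :
    (∃ i j, (n : ℝ) ^ 2 < |A i j|) ∨
      ∃ x : Fin n → ℝ, ‖x‖ = 1 ∧ ∀ j, |∑ i, x i * A i j| ≤ 1 / (n : ℝ) ^ 5 := by
  have hn0 : (0 : ℝ) < n := by exact_mod_cast hn
  by_contra hno
  push Not at hno
  obtain ⟨h1, h2⟩ := hno
  apply h
  refine ⟨h1, fun x => ?_⟩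
  by_cases hx : x = 0
  · subst hx; simp
  have hx0 : 0 < ‖x‖ := norm_pos_iff.2 hx
  obtain ⟨j, hj⟩ := h2 (‖x‖⁻¹ • x) (by rw [norm_smul, norm_inv, norm_norm, inv_mul_cancel₀ hx0.ne'])
  have h3 : ∑ i, (‖x‖⁻¹ • x) i * A i j = ‖x‖⁻¹ * (Matrix.vecMul x (Matrix.of A)) j := by
    simp only [Matrix.vecMul, dotProduct, Pi.smul_apply, smul_eq_mul, Matrix.of_apply]
    rw [mul_sum]
    exact sum_congr rfl fun i _ => by ring
  rw [h3, abs_mul, abs_of_pos (inv_pos.2 hx0)] at hj
  have h4 := norm_le_pi_norm (Matrix.vecMul x (Matrix.of A)) j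
  rw [Real.norm_eq_abs] at h4
  have h5 : 1 / (n : ℝ) ^ 5 < ‖x‖⁻¹ * ‖Matrix.vecMul x (Matrix.of A)‖ :=
    hj.trans_le (mul_le_mul_of_nonneg_left h4 (inv_pos.2 hx0).le)
  rw [inv_mul_eq_div, div_lt_div_iff₀ (by positivity) hx0] at h5
  linarith

/-! ### Sign matrices -/

/-- the law of a fair coin toss -/
def coin : Measure Bool := (1 / 2 : ℝ≥0∞) • Measure.dirac false + (1 / 2 : ℝ≥0∞) • Measure.dirac true

/-- the law of a random variable with the two values `e false`, `e true` with probability `1/2` -/
def twoPoint (e : Bool → ℝ) : Measure ℝ :=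
  (1 / 2 : ℝ≥0∞) • Measure.dirac (e false) + (1 / 2 : ℝ≥0∞) • Measure.dirac (e true)

instance : IsProbabilityMeasure coin := by
  constructor
  simp [coin, ENNReal.inv_two_add_inv_two]

theorem coin_singleton (b : Bool) : coin {b} = 1 / 2 := by
  cases b <;> simp [coin]

theorem measurable_bool (e : Bool → ℝ) : Measurable e := measurable_of_countable _

theorem twoPoint_eq (e : Bool → ℝ) : twoPoint e = coin.map e := by
  unfold twoPoint coin
  rw [Measure.map_add _ _ (measurable_bool e), Measure.map_smul, Measure.map_smul,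
    Measure.map_dirac' (measurable_bool e), Measure.map_dirac' (measurable_bool e)]

instance (e : Bool → ℝ) : IsProbabilityMeasure (twoPoint e) := by
  rw [twoPoint_eq]
  exact Measure.isProbabilityMeasure_map (measurable_bool e).aemeasurable

theorem matLaw_twoPoint (e : Bool → ℝ) (n : ℕ) : matLaw (twoPoint e) n
    = (Measure.pi fun _ : Fin n => Measure.pi fun _ : Fin n => coin).map
      (fun w i j => e (w i j)) := by
  have hm : Measurable fun (r : Fin n → Bool) (j : Fin n) => e (r j) :=
    measurable_pi_lambda _ fun j => (measurable_bool e).comp (measurable_pi_apply j)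
  have h1 : (Measure.pi fun _ : Fin n => twoPoint e)
      = (Measure.pi fun _ : Fin n => coin).map (fun r j => e (r j)) := by
    rw [twoPoint_eq]
    have : IsProbabilityMeasure (coin.map e) :=
      Measure.isProbabilityMeasure_map (measurable_bool e).aemeasurable
    exact (Measure.pi_map_pi (μ := fun _ : Fin n => coin) (f := fun _ => e)
      (fun _ => (measurable_bool e).aemeasurable)).symm
  unfold matLaw
  rw [h1]
  have : IsProbabilityMeasure ((Measure.pi fun _ : Fin n => coin).map
      (fun (r : Fin n → Bool) (j : Fin n) => e (r j))) :=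
    Measure.isProbabilityMeasure_map hm.aemeasurable
  exact (Measure.pi_map_pi (μ := fun _ : Fin n => Measure.pi fun _ : Fin n => coin)
    (f := fun _ (r : Fin n → Bool) (j : Fin n) => e (r j)) (fun _ => hm.aemeasurable)).symm

theorem coins_finset (n : ℕ) (F : Finset (Fin n → Fin n → Bool)) :
    (Measure.pi fun _ : Fin n => Measure.pi fun _ : Fin n => coin) (F : Set _)
      = ENNReal.ofReal ((#F : ℝ) / (2 ^ n) ^ n) := by
  rw [← sum_measure_singleton]
  have h1 : ∀ w : Fin n → Fin n → Bool,
      (Measure.pi fun _ : Fin n => Measure.pi fun _ : Fin n => coin) {w}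
        = ENNReal.ofReal (1 / (2 ^ n) ^ n) := by
    intro w
    rw [Measure.pi_singleton]
    have h2 : ∀ i, (Measure.pi fun _ : Fin n => coin) {w i} = ENNReal.ofReal (1 / 2 ^ n) := by
      intro i
      rw [Measure.pi_singleton]
      simp_rw [coin_singleton]
      rw [Finset.prod_const, card_univ, Fintype.card_fin]
      rw [ENNReal.ofReal_div_of_pos (by positivity), ENNReal.ofReal_pow (by norm_num)]
      simp [ENNReal.inv_pow]
    simp_rw [h2]
    rw [Finset.prod_const, card_univ, Fintype.card_fin, ← ENNReal.ofReal_pow (by positivity)]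
    congr 1
    rw [div_pow, one_pow]
  simp_rw [h1]
  rw [sum_const, nsmul_eq_mul, div_eq_mul_one_div (#F : ℝ), ENNReal.ofReal_mul (Nat.cast_nonneg _),
    ENNReal.ofReal_natCast]

/-- **Sign matrices are good with high probability.** -/
theorem tendsto_good_twoPoint {e : Bool → ℝ} (he : 1 ≤ e true - e false) (he1 : ∀ b, |e b| ≤ 1) :
    Tendsto (fun n => matLaw (twoPoint e) n {A | Good n A}ᶜ) atTop (𝓝 0) := by
  classical
  have h1 : ∀ n : ℕ, 1 ≤ n → matLaw (twoPoint e) n {A | Good n A}ᶜ ≤
      ENNReal.ofReal ((#{w : Fin n → Fin n → Bool | Bad n e (1 / (n : ℝ) ^ 5) w} : ℝ)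
        / (2 ^ n) ^ n) := by
    intro n hn
    have hm : Measurable fun (w : Fin n → Fin n → Bool) (i j : Fin n) => e (w i j) := by
      apply measurable_pi_lambda _ fun i => ?_
      apply measurable_pi_lambda _ fun j => ?_
      exact (measurable_bool e).comp ((measurable_pi_apply j).comp (measurable_pi_apply i))
    rw [matLaw_twoPoint, Measure.map_apply hm (isClosed_good n).measurableSet.compl,
      ← coins_finset]
    apply measure_mono
    intro w hw
    rw [Finset.mem_coe, mem_filter]
    refine ⟨mem_univ _, ?_⟩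
    rcases not_good hn hw with ⟨i, j, h2⟩ | h2
    · exfalso
      have h3 : |e (w i j)| ≤ 1 := he1 _
      have h4 : (1 : ℝ) ≤ (n : ℝ) ^ 2 := one_le_pow₀ (by exact_mod_cast hn)
      linarith
    · exact h2
  have h2 := ENNReal.tendsto_ofReal (tendsto_bad he he1)
  rw [ENNReal.ofReal_zero] at h2
  apply tendsto_of_tendsto_of_tendsto_of_le_of_le' tendsto_const_nhds h2
  · exact Eventually.of_forall fun _ => bot_le
  · filter_upwards [eventually_ge_atTop 1] with n hn
    convert h1 n hn

end Pool.Agent.TH701
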