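import Pool.Agent.TH701.Num2

set_option autoImplicit false

noncomputable section

namespace Pool.Agent.TH701

open scoped Matrix.Norms.L2Operator
open Matrix WithLp

/-- input of the solver: `(n, ε, A, b)` -/
abbrev In := ℕ × ℝ × List (List ℝ) × List ℝ

/-- the state of the main loop together with the right-hand side -/
abbrev SS := ℕ × ℕ × (St × List ℝ)

/-- one round at the (already increased) level -/
def body' (n L : ℕ) (q : St) : St :=
  (q.1, q.2.1 + q.2.1, level n L q.1 (q.2.1 + q.2.1) (base (q.2.1 + q.2.1)))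

/-- one round of the main loop -/
def stepS (p : SS) : SS := (p.1, p.2.1 + 1, (body' p.1 (p.2.1 + 1) p.2.2.1, p.2.2.2))

/-- the loop test -/
def testS (p : SS) : ℝ := p.2.2.1.2.2.2

theorem pc_base {a b : ℕ} {α : Type} {U : ℕ × ℕ × α → ℝ} (hU : PC a b U) :
    PC a b (fun p => base (U p)) := by
  have h2 : PC a b (fun p : ℕ × ℕ × α => (2 : ℝ)) := PC.two
  have h4 : PC a b (fun p : ℕ × ℕ × α => (16 : ℝ)) :=
    ((h2.mul h2).mul (h2.mul h2)).congr fun _ => by norm_num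
  exact h4.mul ((hU.mul hU).mul (hU.mul hU))

theorem pc_body' : PC 2 2 (fun p : ℕ × ℕ × (St × List ℝ) => body' p.1 p.2.1 p.2.2.1) := by
  have hU : PC 2 2 (fun p : ℕ × ℕ × (St × List ℝ) => p.2.2.1.2.1 + p.2.2.1.2.1) :=
    PC.arg.fst.snd.fst.add PC.arg.fst.snd.fst
  have h1 := PC.pc_level (a := 0) (b := 0) (c := fun p : ℕ × ℕ × (St × List ℝ) => p.2.2.1.1)
    (U := fun p => p.2.2.1.2.1 + p.2.2.1.2.1)
    (B := fun p => base (p.2.2.1.2.1 + p.2.2.1.2.1)) PC.arg.fst.fst hU (pc_base hU)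
  exact PC.arg.fst.fst.pair (hU.pair h1)

theorem comp_stepS : ∃ K : ℕ, Comp stepS (fun p => K * bd 2 2 p.1 (p.2.1 + 1)) := by
  obtain ⟨K, hK⟩ := pc_body'
  -- increase the counter
  have h1 : Comp (fun p : SS => (p.1, p.2.1 + 1, p.2.2)) (fun _ => 10) :=
    (Comp.fst.pair (((Comp.snd.comp Comp.fst).comp Comp.succ).pair
      (Comp.snd.comp Comp.snd))).le fun _ => by simp
  have h2 : Comp (fun p : SS => (p.1, p.2.1, (body' p.1 p.2.1 p.2.2.1, p.2.2.2)))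
      (fun p => 10 + K * bd 2 2 p.1 p.2.1) :=
    (Comp.fst.pair ((Comp.snd.comp Comp.fst).pair (hK.pair
      ((Comp.snd.comp Comp.snd).comp Comp.snd)))).le fun p => by omega
  refine ⟨K + 20, (h1.comp h2).le fun p => ?_⟩
  have h3 := one_le_bd 2 2 p.1 (p.2.1 + 1)
  simp only
  nlinarith

/-- preparation -/
def prep (p : In) : SS :=
  (p.1, 0, (((p.2.1, p.2.2.1, 2 * sumN p.1 p.2.2.1, 2 * 2 * 2 * (natR p.1 * natR p.1), eyeN p.1),
    1, [], 1), p.2.2.2))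

theorem comp_prep : ∃ K : ℕ, Comp prep (fun p => K * bd 2 0 p.1 0) := by
  have h0 : Comp (fun p : In => (p.1, 0, p.2)) (fun _ => 10) :=
    (Comp.fst.pair (Comp.zero.pair Comp.snd)).le fun _ => by simp
  have hN : PC 2 0 (fun p : ℕ × ℕ × (ℝ × List (List ℝ) × List ℝ) =>
      (2 : ℝ) * 2 * 2 * (natR p.1 * natR p.1)) :=
    ((PC.two.mul PC.two).mul PC.two).mul
      ((PC.pc_natR (a := 1)).mul (PC.pc_natR (a := 1)))
  have hS : PC 2 0 (fun p : ℕ × ℕ × (ℝ × List (List ℝ) × List ℝ) =>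
      (2 : ℝ) * sumN p.1 p.2.2.2.1) :=
    PC.two.mul (PC.pc_sumN (a := 0) PC.arg.snd.fst)
  have hI : PC 2 0 (fun p : ℕ × ℕ × (ℝ × List (List ℝ) × List ℝ) => eyeN p.1) :=
    PC.pc_eyeN (a := 0)
  have h1 : PC 2 0 (fun p : ℕ × ℕ × (ℝ × List (List ℝ) × List ℝ) =>
      ((((p.2.2.1, p.2.2.2.1, (2 : ℝ) * sumN p.1 p.2.2.2.1,
        (2 : ℝ) * 2 * 2 * (natR p.1 * natR p.1), eyeN p.1), (1 : ℝ), ([] : List (List ℝ)), (1 : ℝ)),
        p.2.2.2.2) : St × List ℝ)) :=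
    ((PC.arg.fst.pair (PC.arg.snd.fst.pair (hS.pair (hN.pair hI)))).pair
      (PC.one.pair (PC.nil.pair PC.one))).pair PC.arg.snd.snd
  have h2 : PC 2 0 (fun p : ℕ × ℕ × (ℝ × List (List ℝ) × List ℝ) =>
      (p.1, p.2.1, ((((p.2.2.1, p.2.2.2.1, (2 : ℝ) * sumN p.1 p.2.2.2.1,
        (2 : ℝ) * 2 * 2 * (natR p.1 * natR p.1), eyeN p.1), (1 : ℝ), ([] : List (List ℝ)), (1 : ℝ)),
        p.2.2.2.2) : St × List ℝ))) :=
    PC.n.pair (PC.L.pair h1)
  obtain ⟨K, hK⟩ := h2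
  refine ⟨10 + K, (h0.comp hK).le fun p => ?_⟩
  have h3 := one_le_bd 2 0 p.1 0
  simp only
  nlinarith

/-- the output -/
def outS (p : SS) : List ℝ :=
  mapN p.1 (fun row => dotN p.1 row p.2.2.2 / (p.2.2.1.2.1 * p.2.2.1.1.2.2.1)) p.2.2.1.2.2.1

theorem comp_outS : ∃ K : ℕ, Comp outS (fun p => K * bd 2 0 p.1 p.2.1) := by
  have h0 : PC 1 0 (fun p : ℕ × ℕ × ((List ℝ × ℝ) × List ℝ) =>
      dotN p.1 p.2.2.2 p.2.2.1.1 / p.2.2.1.2) :=
    (PC.dotP (a := 0) PC.arg.snd PC.arg.fst.fst).div PC.arg.fst.snd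
  have h1 := PC.mapP (a := 1) (e := fun p : ℕ × ℕ × (St × List ℝ) =>
      (p.2.2.2, p.2.2.1.2.1 * p.2.2.1.1.2.2.1)) (l := fun p => p.2.2.1.2.2.1) h0
    (PC.arg.snd.pair (PC.arg.fst.snd.fst.mul PC.arg.fst.fst.snd.snd.fst)) PC.arg.fst.snd.snd.fst
  exact h1

/-- the constants of the main loop -/
def cst {n : ℕ} (ε : ℝ) (A : Matrix (Fin n) (Fin n) ℝ) : Cst :=
  (ε, encM A, 2 * ∑ i, ∑ j, |A i j|, 8 * (n : ℝ) ^ 2, eyeN n)

theorem prep_eq {n : ℕ} (ε : ℝ) (A : Matrix (Fin n) (Fin n) ℝ) (b : Fin n → ℝ) :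
    prep (n, ε, encM A, encV b) = (n, 0, ((cst ε A, 1, [], 1), encV b)) := by
  unfold prep cst
  simp only
  have h : (2 : ℝ) * 2 * 2 * ((n : ℝ) * n) = 8 * (n : ℝ) ^ 2 := by ring
  rw [sumN_spec, natR_eq, h]

theorem iter_eq {n : ℕ} (c : Cst) (b : List ℝ) (k : ℕ) :
    stepS^[k + 1] (n, 0, ((c, 1, [], 1), b))
      = (n, k + 1, ((c, 2 ^ (k + 1), level n (k + 1) c (2 ^ (k + 1)) (base (2 ^ (k + 1)))), b)) := by
  induction k with
  | zero =>
    simp only [zero_add, Function.iterate_one, stepS, body']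
    norm_num
  | succ k ih =>
    rw [Function.iterate_succ_apply', ih]
    simp only [stepS, body']
    have : (2 : ℝ) ^ (k + 1) + 2 ^ (k + 1) = 2 ^ (k + 1 + 1) := by ring
    rw [this]

/-- **The program.**  It halts when the test is passed for the first time. -/
theorem main_run : ∃ (P : Prog In (List ℝ)) (K : ℕ), ∀ (n : ℕ) (A : Matrix (Fin n) (Fin n) ℝ)
    (b : Fin n → ℝ) (ε : ℝ) (k : ℕ),
    (∀ i < k, 0 ≤ (level n (i + 1) (cst ε A) (2 ^ (i + 1)) (base (2 ^ (i + 1)))).2) →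
    (level n (k + 1) (cst ε A) (2 ^ (k + 1)) (base (2 ^ (k + 1)))).2 < 0 →
    ∃ t, t ≤ K * ((n + 1) ^ 2 * (k + 3) ^ 3) ∧
      Run P (n, ε, encM A, encV b)
        (mapN n (fun row => dotN n row (encV b) / (2 ^ (k + 1) * (2 * ∑ i, ∑ j, |A i j|)))
          (level n (k + 1) (cst ε A) (2 ^ (k + 1)) (base (2 ^ (k + 1)))).1) t := by
  obtain ⟨K1, P1, h1⟩ := comp_prep
  obtain ⟨K2, P2, h2⟩ := comp_stepS
  obtain ⟨K3, P3, h3⟩ := comp_outS
  obtain ⟨PT, hT⟩ : Comp testS (fun _ => 10) :=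
    ((((Comp.snd.comp Comp.snd).comp Comp.fst).comp Comp.snd).comp
      (Comp.snd.comp Comp.snd)).le fun _ => by simp
  refine ⟨Prog.seq P1 (Prog.seq (Prog.whileLoop PT P2) P3), K1 + 2 * K2 + K3 + 40, ?_⟩
  intro n A b ε k hk1 hk2
  obtain ⟨t1, ht1, hr1⟩ := h1 (n, ε, encM A, encV b)
  rw [prep_eq] at hr1
  have hw := Run.whileIter (h := PT) (p := P2) (H := testS) (S := stepS)
    (c := fun p => 10 + K2 * bd 2 2 p.1 (p.2.1 + 1))
    (fun x => by
      obtain ⟨t, ht, hr⟩ := hT x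
      exact ⟨t, by simp only at ht ⊢; omega, hr⟩)
    (fun x => by
      obtain ⟨t, ht, hr⟩ := h2 x
      exact ⟨t, by simp only at ht ⊢; omega, hr⟩) (k + 1)
    (n, 0, ((cst ε A, 1, [], 1), encV b))
    (fun i hi => by
      cases i with
      | zero =>
        show (0 : ℝ) ≤ 1
        norm_num
      | succ i =>
        rw [iter_eq]
        exact hk1 i (by omega))
    (by rw [iter_eq]; exact hk2)
  obtain ⟨t2, ht2, hr2⟩ := hw
  rw [iter_eq] at hr2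
  obtain ⟨t3, ht3, hr3⟩ := h3 (n, k + 1, ((cst ε A, 2 ^ (k + 1),
    level n (k + 1) (cst ε A) (2 ^ (k + 1)) (base (2 ^ (k + 1)))), encV b))
  refine ⟨t1 + (t2 + t3), ?_, Run.seq hr1 (Run.seq hr2 hr3)⟩
  -- cost
  have hiter : ∀ i, (stepS^[i] ((n, 0, ((cst ε A, 1, [], 1), encV b)) : SS)).1 = n ∧
      (stepS^[i] ((n, 0, ((cst ε A, 1, [], 1), encV b)) : SS)).2.1 = i := by
    intro i
    cases i with
    | zero => exact ⟨rfl, rfl⟩
    | succ i => rw [iter_eq]; exact ⟨rfl, rfl⟩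
  have hsum : t2 ≤ (k + 2) * (21 + 2 * (K2 * bd 2 2 n (k + 2))) := by
    refine ht2.trans ?_
    have : ∀ i ∈ Finset.range (k + 1 + 1), (2 * (10 + K2 * bd 2 2
        (stepS^[i] ((n, 0, ((cst ε A, 1, [], 1), encV b)) : SS)).1
        ((stepS^[i] ((n, 0, ((cst ε A, 1, [], 1), encV b)) : SS)).2.1 + 1)) + 1)
        ≤ 21 + 2 * (K2 * bd 2 2 n (k + 2)) := by
      intro i hi
      rw [(hiter i).1, (hiter i).2]
      have hi' : i ≤ k + 1 := by
        have := Finset.mem_range.1 hi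
        omega
      have h4 : bd 2 2 n (i + 1) ≤ bd 2 2 n (k + 2) := by
        unfold bd
        apply Nat.mul_le_mul_left
        apply Nat.pow_le_pow_left
        omega
      have h5 := Nat.mul_le_mul_left K2 h4
      omega
    refine (Finset.sum_le_sum this).trans ?_
    rw [Finset.sum_const, Finset.card_range, smul_eq_mul]
  have hb1 : bd 2 0 n 0 ≤ (n + 1) ^ 2 * (k + 3) ^ 3 := by
    unfold bd
    apply Nat.mul_le_mul_left
    rw [pow_zero]
    exact Nat.one_le_pow _ _ (by omega)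
  have hb2 : bd 2 0 n (k + 1) ≤ (n + 1) ^ 2 * (k + 3) ^ 3 := by
    unfold bd
    apply Nat.mul_le_mul_left
    rw [pow_zero]
    exact Nat.one_le_pow _ _ (by omega)
  have hb3 : (k + 2) * bd 2 2 n (k + 2) ≤ (n + 1) ^ 2 * (k + 3) ^ 3 := by
    unfold bd
    have h6 : (k + 2) * (k + 2 + 1) ^ 2 ≤ (k + 3) ^ 3 := by
      rw [show (k + 3) ^ 3 = (k + 3) * (k + 3) ^ 2 by ring]
      exact Nat.mul_le_mul_right _ (by omega)
    calc (k + 2) * ((n + 1) ^ 2 * (k + 2 + 1) ^ 2) = (n + 1) ^ 2 * ((k + 2) * (k + 2 + 1) ^ 2) := by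
          ring
      _ ≤ (n + 1) ^ 2 * (k + 3) ^ 3 := Nat.mul_le_mul_left _ h6
  have hb4 : k + 2 ≤ (n + 1) ^ 2 * (k + 3) ^ 3 := by
    have h7 : 1 ≤ (n + 1) ^ 2 := Nat.one_le_pow _ _ (by omega)
    have h8 : k + 3 ≤ (k + 3) ^ 3 := Nat.le_self_pow (by norm_num) _
    nlinarith
  set M := (n + 1) ^ 2 * (k + 3) ^ 3 with hM
  have hc1 : t1 ≤ K1 * M := by
    refine le_trans ?_ (Nat.mul_le_mul_left _ hb1)
    exact ht1
  have hc3 : t3 ≤ K3 * M := by
    refine le_trans ?_ (Nat.mul_le_mul_left _ hb2)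
    exact ht3
  have hc2 : t2 ≤ 21 * M + 2 * (K2 * M) := by
    refine hsum.trans ?_
    have h9 : (k + 2) * (21 + 2 * (K2 * bd 2 2 n (k + 2)))
        = 21 * (k + 2) + 2 * (K2 * ((k + 2) * bd 2 2 n (k + 2))) := by ring
    rw [h9]
    have h10 := Nat.mul_le_mul_left K2 hb3
    omega
  have : (K1 + 2 * K2 + K3 + 40) * M = K1 * M + 2 * (K2 * M) + K3 * M + 40 * M := by ring
  rw [this]
  omega

/-- **The solver.**  There is one program which, for all `n ≥ 1`, all invertible real matrices `A`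
(`σ` is a lower bound for the smallest singular value of `A` divided by twice the sum of the
absolute values of the entries), all `b` and all accuracies `ε`, computes an approximate solution
with relative error at most `ε`, in `O(n² k³)` operations, where `k` is about
`log (n / (σ ε))`. -/
theorem solver : ∃ (P : Prog In (List ℝ)) (K : ℕ), ∀ (n : ℕ) (A : Matrix (Fin n) (Fin n) ℝ)
    (b x₀ : Fin n → ℝ) (ε σ : ℝ) (k : ℕ), 1 ≤ n → 0 < ε → ε ≤ 1 → 0 < σ →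
    (∀ v, σ * (2 * ∑ i, ∑ j, |A i j|) * nrm v ≤ nrm (A *ᵥ v)) → A *ᵥ x₀ = b →
    0 < ∑ i, ∑ j, |A i j| →
    256 * (n : ℝ) ^ 4 / (σ ^ 2 * ε) ≤ 2 ^ (k + 1) →
    ∃ (x : Fin n → ℝ) (t : ℕ), t ≤ K * ((n + 1) ^ 2 * (k + 3) ^ 3) ∧
      Run P (n, ε, encM A, encV b) (encV x) t ∧ nrm (x - x₀) ≤ ε * nrm x₀ := by
  obtain ⟨P, K, hP⟩ := main_run
  refine ⟨P, K, ?_⟩
  intro n A b x₀ ε σ k hn hε hε1 hσ0 hσ hx hs0 hk
  set s : ℝ := 2 * ∑ i, ∑ j, |A i j| with hs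
  have hs0' : 0 < s := by rw [hs]; linarith
  have hσ' : ∀ v, σ * nrm v ≤ nrm ((s⁻¹ • A) *ᵥ v) := by
    intro v
    rw [Matrix.smul_mulVec, nrm_smul, abs_of_pos (inv_pos.2 hs0')]
    have h1 := hσ v
    have h2 : σ * nrm v = s⁻¹ * (σ * s * nrm v) := by
      field_simp
    rw [h2]
    exact mul_le_mul_of_nonneg_left h1 (inv_pos.2 hs0').le
  have hlev : ∀ i, (level n (i + 1) (cst ε A) (2 ^ (i + 1)) (base (2 ^ (i + 1)))).2
      = test n ε (2 ^ (i + 1)) (8 * (n : ℝ) ^ 2)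
      (resid n (i + 1) (2 ^ (i + 1)) (2 ^ (4 * (i + 1) + 4)) (eyeN n)
        (inv n (i + 1) (2 ^ (i + 1)) (2 ^ (4 * (i + 1) + 4))
          (roundA n (i + 1) (2 ^ (i + 1)) (2 ^ (4 * (i + 1) + 4)) s (encM A)))
        (roundA n (i + 1) (2 ^ (i + 1)) (2 ^ (4 * (i + 1) + 4)) s (encM A)))
      (inv n (i + 1) (2 ^ (i + 1)) (2 ^ (4 * (i + 1) + 4))
        (roundA n (i + 1) (2 ^ (i + 1)) (2 ^ (4 * (i + 1) + 4)) s (encM A))) := by
    intro i
    rw [pow_base]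
    rfl
  have hpass : (level n (k + 1) (cst ε A) (2 ^ (k + 1)) (base (2 ^ (k + 1)))).2 < 0 := by
    rw [hlev]
    exact test_pass (k + 1) hn hs hs0' hσ0 hσ' hε hε1 hk
  -- the first level which passes
  classical
  have hex : ∃ j, (level n (j + 1) (cst ε A) (2 ^ (j + 1)) (base (2 ^ (j + 1)))).2 < 0 := ⟨k, hpass⟩
  set m := Nat.find hex with hm
  have hm1 : (level n (m + 1) (cst ε A) (2 ^ (m + 1)) (base (2 ^ (m + 1)))).2 < 0 :=
    Nat.find_spec hex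
  have hm2 : ∀ i < m, 0 ≤ (level n (i + 1) (cst ε A) (2 ^ (i + 1)) (base (2 ^ (i + 1)))).2 :=
    fun i hi => not_lt.1 (Nat.find_min hex hi)
  have hmk : m ≤ k := Nat.find_min' hex hpass
  obtain ⟨t, ht, hr⟩ := hP n A b ε m hm2 hm1
  have hm1' := hm1
  rw [hlev] at hm1'
  obtain ⟨Z, hZ, hZA⟩ := test_sound (m + 1) hn hs hs0' hε hε1 hm1'
  have hinv : (level n (m + 1) (cst ε A) (2 ^ (m + 1)) (base (2 ^ (m + 1)))).1 = encM (toR Z) := by
    rw [← hZ, pow_base]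
    rfl
  rw [hinv] at hr
  set X : Matrix (Fin n) (Fin n) ℝ := (((2 : ℝ) ^ (m + 1))⁻¹ * s⁻¹) • toR Z with hX
  refine ⟨X *ᵥ b, t, ?_, ?_, ?_⟩
  · refine ht.trans (Nat.mul_le_mul_left _ (Nat.mul_le_mul_left _ (Nat.pow_le_pow_left ?_ 3)))
    omega
  · have hout : mapN n (fun row => dotN n row (encV b) / (2 ^ (m + 1) * (2 * ∑ i, ∑ j, |A i j|)))
        (encM (toR Z)) = encV (X *ᵥ b) := by
      unfold encM encV
      rw [mapN_ofFn]
      congr 1
      funext i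
      rw [dotN_ofFn, ← hs]
      simp only [hX, Matrix.mulVec, dotProduct, Matrix.smul_apply, smul_eq_mul]
      rw [Finset.sum_div]
      apply Finset.sum_congr rfl
      intro j _
      rw [div_eq_mul_inv, mul_inv]
      ring
    rw [← hout]
    exact hr
  · have h1 : X *ᵥ b - x₀ = -((1 - X * A) *ᵥ x₀) := by
      rw [Matrix.sub_mulVec, Matrix.one_mulVec, ← Matrix.mulVec_mulVec, hx]
      abel
    rw [h1]
    have h2 : nrm (-((1 - X * A) *ᵥ x₀)) = nrm ((1 - X * A) *ᵥ x₀) := by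
      unfold nrm
      rw [WithLp.toLp_neg, norm_neg]
    rw [h2]
    exact (nrm_mulVec _ _).trans (mul_le_mul_of_nonneg_right hZA (nrm_nonneg _))

end Pool.Agent.TH701
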