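import Mathlib

/-!
# A uniform model of computation over the real numbers

`Prog α β` is the type of the programs of a small first-order programming language.  The data are
real numbers (exact), natural numbers (used only as loop counters), pairs and lists.  `Run p x y t`
says that the program `p`, started on the input `x`, halts with the output `y` after exactly `t`
operations.  Every operation costs one unit: an arithmetic operation on exact real numbers, a
comparison of a real number with `0` and the resulting branching, an increment of a counter, a
pairing or a projection, the construction of a list from a head and a tail or the decomposition of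
a list into its head and tail, and each control step of a loop.  In particular the number of
arithmetic operations and comparisons performed on real numbers is at most `t`.

The only constants are the natural number `0` and the real number `1`.  A program is a finite
object, and the same program is run on the inputs of all sizes.
-/

set_option autoImplicit false

namespace Pool.Agent.TH701

/-- The programs.  `Prog α β` has inputs of type `α` and outputs of type `β`. -/
inductive Prog : Type → Type → Type 1
  /-- do nothing -/
  | skip (α : Type) : Prog α α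
  /-- sequential composition: first `p`, then `q` -/
  | seq {α β γ : Type} (p : Prog α β) (q : Prog β γ) : Prog α γ
  /-- run two programs on the same input and pair their outputs -/
  | pair {α β γ : Type} (p : Prog α β) (q : Prog α γ) : Prog α (β × γ)
  /-- first projection -/
  | fst (α β : Type) : Prog (α × β) α
  /-- second projection -/
  | snd (α β : Type) : Prog (α × β) β
  /-- the counter value `0` -/
  | zero (α : Type) : Prog α ℕ
  /-- increment of a counter -/
  | succ : Prog ℕ ℕ
  /-- the real number `1` -/
  | one (α : Type) : Prog α ℝ
  /-- addition of real numbers -/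
  | add : Prog (ℝ × ℝ) ℝ
  /-- subtraction of real numbers -/
  | sub : Prog (ℝ × ℝ) ℝ
  /-- multiplication of real numbers -/
  | mul : Prog (ℝ × ℝ) ℝ
  /-- division of real numbers; the machine is stuck when the divisor is zero -/
  | div : Prog (ℝ × ℝ) ℝ
  /-- `if 0 ≤ h then p else q`, where `h` computes a real number -/
  | branch {α β : Type} (h : Prog α ℝ) (p q : Prog α β) : Prog α β
  /-- the empty list -/
  | nil (α β : Type) : Prog α (List β)
  /-- construction of a list from its head and its tail -/
  | cons (β : Type) : Prog (β × List β) (List β)
  /-- case distinction on a list: empty, or head and tail -/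
  | caseList {α β γ : Type} (p : Prog α γ) (q : Prog (α × β × List β) γ) : Prog (α × List β) γ
  /-- `for i in 1..k do p`; the number `k` of rounds is known when the loop starts -/
  | forLoop {α : Type} (p : Prog α α) : Prog (ℕ × α) α
  /-- `while 0 ≤ h do p` -/
  | whileLoop {α : Type} (h : Prog α ℝ) (p : Prog α α) : Prog α α

/-- `Run p x y t`: the program `p` with input `x` halts with output `y` after `t` operations. -/
inductive Run : {α β : Type} → Prog α β → α → β → ℕ → Prop
  | skip {α : Type} (x : α) : Run (Prog.skip α) x x 1
  | seq {α β γ : Type} {p : Prog α β} {q : Prog β γ} {x : α} {y : β} {z : γ} {s t : ℕ}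
      (hp : Run p x y s) (hq : Run q y z t) : Run (Prog.seq p q) x z (s + t)
  | pair {α β γ : Type} {p : Prog α β} {q : Prog α γ} {x : α} {y : β} {z : γ} {s t : ℕ}
      (hp : Run p x y s) (hq : Run q x z t) : Run (Prog.pair p q) x (y, z) (s + t + 1)
  | fst {α β : Type} (x : α) (y : β) : Run (Prog.fst α β) (x, y) x 1
  | snd {α β : Type} (x : α) (y : β) : Run (Prog.snd α β) (x, y) y 1
  | zero {α : Type} (x : α) : Run (Prog.zero α) x 0 1
  | succ (k : ℕ) : Run Prog.succ k (k + 1) 1
  | one {α : Type} (x : α) : Run (Prog.one α) x 1 1
  | add (a b : ℝ) : Run Prog.add (a, b) (a + b) 1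
  | sub (a b : ℝ) : Run Prog.sub (a, b) (a - b) 1
  | mul (a b : ℝ) : Run Prog.mul (a, b) (a * b) 1
  | div (a b : ℝ) (hb : b ≠ 0) : Run Prog.div (a, b) (a / b) 1
  | branchTrue {α β : Type} {h : Prog α ℝ} {p q : Prog α β} {x : α} {r : ℝ} {y : β} {s t : ℕ}
      (hh : Run h x r s) (hr : 0 ≤ r) (hp : Run p x y t) : Run (Prog.branch h p q) x y (s + t + 1)
  | branchFalse {α β : Type} {h : Prog α ℝ} {p q : Prog α β} {x : α} {r : ℝ} {y : β} {s t : ℕ}
      (hh : Run h x r s) (hr : r < 0) (hq : Run q x y t) : Run (Prog.branch h p q) x y (s + t + 1)
  | nil {α β : Type} (x : α) : Run (Prog.nil α β) x [] 1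
  | cons {β : Type} (b : β) (l : List β) : Run (Prog.cons β) (b, l) (b :: l) 1
  | caseNil {α β γ : Type} {p : Prog α γ} {q : Prog (α × β × List β) γ} {x : α} {y : γ} {t : ℕ}
      (hp : Run p x y t) : Run (Prog.caseList p q) (x, []) y (t + 1)
  | caseCons {α β γ : Type} {p : Prog α γ} {q : Prog (α × β × List β) γ} {x : α} {b : β}
      {l : List β} {y : γ} {t : ℕ}
      (hq : Run q (x, b, l) y t) : Run (Prog.caseList p q) (x, b :: l) y (t + 1)
  | forZero {α : Type} {p : Prog α α} (x : α) : Run (Prog.forLoop p) (0, x) x 1
  | forSucc {α : Type} {p : Prog α α} {k : ℕ} {x y z : α} {s t : ℕ}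
      (hp : Run p x y s) (hl : Run (Prog.forLoop p) (k, y) z t) :
      Run (Prog.forLoop p) (k + 1, x) z (s + t + 1)
  | whileStop {α : Type} {h : Prog α ℝ} {p : Prog α α} {x : α} {r : ℝ} {s : ℕ}
      (hh : Run h x r s) (hr : r < 0) : Run (Prog.whileLoop h p) x x (s + 1)
  | whileStep {α : Type} {h : Prog α ℝ} {p : Prog α α} {x y z : α} {r : ℝ} {s t u : ℕ}
      (hh : Run h x r s) (hr : 0 ≤ r) (hp : Run p x y t) (hw : Run (Prog.whileLoop h p) y z u) :
      Run (Prog.whileLoop h p) x z (s + t + u + 1)

end Pool.Agent.TH701
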