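import Mathlib

set_option autoImplicit false

noncomputable section

namespace Pool.Agent.TH701

open scoped Matrix.Norms.L2Operator
open Matrix WithLp

variable {n : ℕ}

/-- the Euclidean norm of a vector -/
def nrm (v : Fin n → ℝ) : ℝ := ‖(toLp 2 v : EuclideanSpace ℝ (Fin n))‖

theorem nrm_nonneg (v : Fin n → ℝ) : 0 ≤ nrm v := norm_nonneg _

theorem nrm_sq (v : Fin n → ℝ) : nrm v ^ 2 = ∑ i, v i ^ 2 := by
  unfold nrm
  rw [EuclideanSpace.norm_sq_eq]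
  simp

theorem nrm_eq_sqrt (v : Fin n → ℝ) : nrm v = Real.sqrt (∑ i, v i ^ 2) := by
  rw [← nrm_sq, Real.sqrt_sq (nrm_nonneg v)]

theorem nrm_add (u v : Fin n → ℝ) : nrm (u + v) ≤ nrm u + nrm v := norm_add_le _ _

theorem nrm_smul (c : ℝ) (v : Fin n → ℝ) : nrm (c • v) = |c| * nrm v := by
  unfold nrm
  rw [WithLp.toLp_smul, norm_smul, Real.norm_eq_abs]

theorem nrm_mulVec (M : Matrix (Fin n) (Fin n) ℝ) (v : Fin n → ℝ) :
    nrm (M *ᵥ v) ≤ ‖M‖ * nrm v :=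
  Matrix.l2_opNorm_mulVec M (toLp 2 v)

theorem opNorm_le (M : Matrix (Fin n) (Fin n) ℝ) (c : ℝ) (hc : 0 ≤ c)
    (h : ∀ v, nrm (M *ᵥ v) ≤ c * nrm v) : ‖M‖ ≤ c := by
  rw [Matrix.cstar_norm_def]
  apply ContinuousLinearMap.opNorm_le_bound _ hc
  intro x
  have := h (ofLp x)
  exact this

theorem abs_apply_le_nrm (v : Fin n → ℝ) (i : Fin n) : |v i| ≤ nrm v := by
  have := PiLp.norm_apply_le (toLp 2 v : EuclideanSpace ℝ (Fin n)) i
  simpa [Real.norm_eq_abs, nrm] using this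

theorem nrm_le_sum (v : Fin n → ℝ) : nrm v ≤ ∑ i, |v i| := by
  apply le_of_sq_le_sq _ (Finset.sum_nonneg fun i _ => abs_nonneg _)
  rw [nrm_sq]
  calc ∑ i, v i ^ 2 = ∑ i, |v i| ^ 2 := by simp
    _ ≤ (∑ i, |v i|) ^ 2 := Finset.sum_sq_le_sq_sum_of_nonneg fun i _ => abs_nonneg _

theorem opNorm_le_sum (M : Matrix (Fin n) (Fin n) ℝ) : ‖M‖ ≤ ∑ i, ∑ j, |M i j| := by
  apply opNorm_le _ _ (Finset.sum_nonneg fun i _ => Finset.sum_nonneg fun j _ => abs_nonneg _)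
  intro v
  refine (nrm_le_sum _).trans ?_
  rw [Finset.sum_mul]
  apply Finset.sum_le_sum
  intro i _
  rw [Finset.sum_mul]
  calc |(M *ᵥ v) i| = |∑ j, M i j * v j| := by rw [Matrix.mulVec_eq_sum]; simp [mul_comm]
    _ ≤ ∑ j, |M i j * v j| := Finset.abs_sum_le_sum_abs _ _
    _ ≤ ∑ j, |M i j| * nrm v := by
        apply Finset.sum_le_sum
        intro j _
        rw [abs_mul]
        exact mul_le_mul_of_nonneg_left (abs_apply_le_nrm v j) (abs_nonneg _)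

theorem opNorm_le_entries (M : Matrix (Fin n) (Fin n) ℝ) (c : ℝ) (h : ∀ i j, |M i j| ≤ c) :
    ‖M‖ ≤ (n : ℝ) ^ 2 * c := by
  refine (opNorm_le_sum M).trans ?_
  calc ∑ i, ∑ j, |M i j| ≤ ∑ _i : Fin n, ∑ _j : Fin n, c :=
        Finset.sum_le_sum fun i _ => Finset.sum_le_sum fun j _ => h i j
    _ = (n : ℝ) ^ 2 * c := by simp [sq, mul_assoc]

theorem entry_le_opNorm (M : Matrix (Fin n) (Fin n) ℝ) (i j : Fin n) : |M i j| ≤ ‖M‖ := by
  have h1 := nrm_mulVec M (Pi.single j 1)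
  have h2 : nrm (Pi.single j (1 : ℝ)) = 1 := by
    unfold nrm
    have : (toLp 2 (Pi.single j (1 : ℝ)) : EuclideanSpace ℝ (Fin n))
        = EuclideanSpace.single j (1 : ℝ) := rfl
    rw [this]
    simp
  have h3 := abs_apply_le_nrm (M *ᵥ Pi.single j 1) i
  rw [h2, mul_one] at h1
  simp only [Matrix.mulVec_single_one] at h1 h3
  exact h3.trans h1

/-- scalar product -/
theorem nrm_sq_dot (v : Fin n → ℝ) : nrm v ^ 2 = v ⬝ᵥ v := by
  rw [nrm_sq]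
  simp [dotProduct, sq]

/-- if `‖T‖ ≤ 1` and `σ ‖v‖ ≤ ‖T v‖` then `‖1 - Tᵀ T‖ ≤ 1 - σ²` -/
theorem norm_one_sub_transpose_mul_self (T : Matrix (Fin n) (Fin n) ℝ) (σ : ℝ) (h0 : 0 ≤ σ)
    (h1 : σ ≤ 1) (hT : ‖T‖ ≤ 1) (hσ : ∀ v, σ * nrm v ≤ nrm (T *ᵥ v)) :
    ‖1 - Tᵀ * T‖ ≤ 1 - σ ^ 2 := by
  set H : Matrix (Fin n) (Fin n) ℝ := 1 - Tᵀ * T with hH
  -- the quadratic form
  have hq : ∀ u v, u ⬝ᵥ (H *ᵥ v) = u ⬝ᵥ v - (T *ᵥ u) ⬝ᵥ (T *ᵥ v) := by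
    intro u v
    rw [hH, Matrix.sub_mulVec, Matrix.one_mulVec, dotProduct_sub, ← Matrix.mulVec_mulVec,
      Matrix.dotProduct_mulVec, Matrix.vecMul_transpose]
  have hnn : ∀ v, 0 ≤ v ⬝ᵥ (H *ᵥ v) := by
    intro v
    rw [hq, ← nrm_sq_dot, ← nrm_sq_dot]
    have h2 := nrm_mulVec T v
    have h3 : nrm (T *ᵥ v) ≤ nrm v := by
      calc _ ≤ ‖T‖ * nrm v := h2
        _ ≤ 1 * nrm v := mul_le_mul_of_nonneg_right hT (nrm_nonneg v)
        _ = nrm v := one_mul _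
    nlinarith [nrm_nonneg (T *ᵥ v), nrm_nonneg v]
  have hub : ∀ v, v ⬝ᵥ (H *ᵥ v) ≤ (1 - σ ^ 2) * nrm v ^ 2 := by
    intro v
    rw [hq, ← nrm_sq_dot, ← nrm_sq_dot]
    have h2 := hσ v
    have h3 : (σ * nrm v) ^ 2 ≤ nrm (T *ᵥ v) ^ 2 :=
      pow_le_pow_left₀ (mul_nonneg h0 (nrm_nonneg v)) h2 2
    nlinarith
  have hc : 0 ≤ 1 - σ ^ 2 := by nlinarith
  have hsymm : ∀ u v, u ⬝ᵥ (H *ᵥ v) = v ⬝ᵥ (H *ᵥ u) := by
    intro u v
    rw [hq, hq, dotProduct_comm u v, dotProduct_comm (T *ᵥ u)]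
  -- Cauchy-Schwarz for the quadratic form
  have hcs : ∀ u v, (u ⬝ᵥ (H *ᵥ v)) ^ 2 ≤ (u ⬝ᵥ (H *ᵥ u)) * (v ⬝ᵥ (H *ᵥ v)) := by
    intro u v
    have h2 : ∀ t : ℝ, 0 ≤ (v ⬝ᵥ (H *ᵥ v)) * (t * t) + (2 * (u ⬝ᵥ (H *ᵥ v))) * t
        + u ⬝ᵥ (H *ᵥ u) := by
      intro t
      have h3 := hnn (u + t • v)
      have h4 : (u + t • v) ⬝ᵥ (H *ᵥ (u + t • v)) = (v ⬝ᵥ (H *ᵥ v)) * (t * t)
          + (2 * (u ⬝ᵥ (H *ᵥ v))) * t + u ⬝ᵥ (H *ᵥ u) := by
        rw [Matrix.mulVec_add, Matrix.mulVec_smul, dotProduct_add, add_dotProduct, add_dotProduct,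
          dotProduct_smul, smul_dotProduct, smul_dotProduct, dotProduct_smul, hsymm v u]
        simp only [smul_eq_mul]
        ring
      rw [← h4]
      exact h3
    have h5 := discrim_le_zero h2
    unfold discrim at h5
    nlinarith
  apply opNorm_le _ _ hc
  intro v
  have h6 := hcs (H *ᵥ v) v
  rw [← nrm_sq_dot] at h6
  have h7 := hub (H *ᵥ v)
  have h8 := hub v
  have h9 := hnn v
  have h10 := hnn (H *ᵥ v)
  have h11 : (nrm (H *ᵥ v) ^ 2) ^ 2 ≤ ((1 - σ ^ 2) * nrm (H *ᵥ v) ^ 2) * ((1 - σ ^ 2) * nrm v ^ 2) :=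
    h6.trans (mul_le_mul h7 h8 h9 (by positivity))
  by_cases hz : nrm (H *ᵥ v) = 0
  · rw [hz]
    exact mul_nonneg hc (nrm_nonneg v)
  · have hpos : 0 < nrm (H *ᵥ v) := lt_of_le_of_ne (nrm_nonneg _) (Ne.symm hz)
    have h12 : nrm (H *ᵥ v) ^ 2 ≤ ((1 - σ ^ 2) * nrm v) ^ 2 := by
      have h13 : 0 < nrm (H *ᵥ v) ^ 2 := by positivity
      have h14 : nrm (H *ᵥ v) ^ 2 * nrm (H *ᵥ v) ^ 2 ≤
          nrm (H *ᵥ v) ^ 2 * ((1 - σ ^ 2) * nrm v) ^ 2 := by nlinarith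
      exact le_of_mul_le_mul_left h14 h13
    exact le_of_sq_le_sq h12 (mul_nonneg hc (nrm_nonneg v))

/-- a matrix bounded from below has an inverse with bounded norm -/
theorem exists_inverse (T : Matrix (Fin n) (Fin n) ℝ) (σ : ℝ) (h0 : 0 < σ)
    (hσ : ∀ v, σ * nrm v ≤ nrm (T *ᵥ v)) :
    ∃ S : Matrix (Fin n) (Fin n) ℝ, T * S = 1 ∧ ‖S‖ ≤ 1 / σ := by
  have hinj : Function.Injective T.mulVec := by
    intro u v huv
    have h1 : T *ᵥ (u - v) = 0 := by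
      rw [Matrix.mulVec_sub]
      exact sub_eq_zero.2 huv
    have h2 := hσ (u - v)
    rw [h1] at h2
    have h3 : nrm (0 : Fin n → ℝ) = 0 := by unfold nrm; simp
    rw [h3] at h2
    have h4 : nrm (u - v) = 0 := by
      have := nrm_nonneg (u - v)
      nlinarith
    have h5 : ∀ i, (u - v) i = 0 := by
      intro i
      have := abs_apply_le_nrm (u - v) i
      rw [h4] at this
      exact abs_eq_zero.1 (le_antisymm this (abs_nonneg _))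
    funext i
    have := h5 i
    simpa [sub_eq_zero] using this
  have hunit : IsUnit T := Matrix.mulVec_injective_iff_isUnit.1 hinj
  obtain ⟨S, hS⟩ := hunit.exists_right_inv
  refine ⟨S, hS, ?_⟩
  apply opNorm_le _ _ (by positivity)
  intro v
  have h1 := hσ (S *ᵥ v)
  rw [Matrix.mulVec_mulVec, hS, Matrix.one_mulVec] at h1
  rw [div_mul_eq_mul_div, one_mul, le_div_iff₀ h0]
  linarith

/-! ### the scalar recursion of the Newton iteration with errors -/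

theorem newton_phase1 (e : ℕ → ℝ) (η ρ : ℝ) (he : ∀ k, 0 ≤ e k) (h0 : e 0 ≤ 1 - η) (hη : 0 < η)
    (hη4 : η ≤ 1 / 4) (hρ : ρ ≤ η / 4) (hs : ∀ k, e (k + 1) ≤ e k ^ 2 + ρ) (k : ℕ) :
    e k ≤ 1 - min (1 / 4) ((3 / 2) ^ k * η) := by
  induction k with
  | zero =>
    have : min (1 / 4) ((3 / 2) ^ 0 * η) ≤ η := by simp
    linarith
  | succ k ih =>
    set m := min (1 / 4) ((3 / 2) ^ k * η) with hm
    have hm1 : m ≤ 1 / 4 := min_le_left _ _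
    have hm2 : η ≤ m := by
      apply le_min hη4
      have : (1 : ℝ) ≤ (3 / 2) ^ k := one_le_pow₀ (by norm_num)
      nlinarith
    have h1 : e (k + 1) ≤ 1 - 3 / 2 * m := by
      have h2 := hs k
      have h3 : e k ^ 2 ≤ (1 - m) ^ 2 := pow_le_pow_left₀ (he k) ih 2
      nlinarith
    have h4 : min (1 / 4) ((3 / 2) ^ (k + 1) * η) ≤ 3 / 2 * m := by
      rcases min_choice (1 / 4) ((3 / 2) ^ k * η) with h | h
      · rw [hm, h]
        exact (min_le_left _ _).trans (by norm_num)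
      · rw [hm, h]
        refine (min_le_right _ _).trans ?_
        rw [pow_succ]
        linarith
    linarith

theorem newton_phase2 (e : ℕ → ℝ) (ρ : ℝ) (he : ∀ k, 0 ≤ e k) (h0 : e 0 ≤ 3 / 4) (hρ0 : 0 ≤ ρ)
    (hρ : ρ ≤ 3 / 16) (hs : ∀ k, e (k + 1) ≤ e k ^ 2 + ρ) (k : ℕ) :
    e k ≤ 3 / 4 ∧ e k ≤ (3 / 4) ^ k + 4 * ρ := by
  induction k with
  | zero => exact ⟨h0, by simp; linarith⟩
  | succ k ih =>
    obtain ⟨h1, h2⟩ := ih
    have h3 := hs k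
    have h4 := he k
    have h5 : e k ^ 2 ≤ 3 / 4 * e k := by nlinarith
    constructor
    · nlinarith
    · rw [pow_succ]
      nlinarith

end Pool.Agent.TH701
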