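import Pool.Agent.TH701.Sem2
import Pool.Agent.TH701.Num1

set_option autoImplicit false

noncomputable section

namespace Pool.Agent.TH701

open scoped Matrix.Norms.L2Operator
open Matrix WithLp

variable {n : ℕ}

theorem toR_mul (p q : Matrix (Fin n) (Fin n) ℤ) : toR (p * q) = toR p * toR q := by
  ext i j
  simp [Matrix.mul_apply]

theorem toR_transpose (p : Matrix (Fin n) (Fin n) ℤ) : toR pᵀ = (toR p)ᵀ := by
  ext i j
  simp

/-- the Newton map on integer matrices -/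
def newtZ (U : ℝ) (A X : Matrix (Fin n) (Fin n) ℤ) : Matrix (Fin n) (Fin n) ℤ :=
  Matrix.of fun i j => ⌊(X i j : ℝ) + X i j - ((X * A * X) i j : ℝ) / (U * U)⌋

/-- the iterates of the Newton map -/
def seqZ (U : ℝ) (A : Matrix (Fin n) (Fin n) ℤ) : ℕ → Matrix (Fin n) (Fin n) ℤ
  | 0 => A.transpose
  | k + 1 => newtZ U A (seqZ U A k)

/-- the scaled iterates -/
def seqX (U : ℝ) (A : Matrix (Fin n) (Fin n) ℤ) (k : ℕ) : Matrix (Fin n) (Fin n) ℝ :=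
  U⁻¹ • toR (seqZ U A k)

theorem seqX_entry (U : ℝ) (A : Matrix (Fin n) (Fin n) ℤ) (k : ℕ) (i j : Fin n) :
    seqX U A k i j = U⁻¹ * (seqZ U A k i j : ℝ) := rfl

theorem seqX_step (U : ℝ) (hU : 0 < U) (A : Matrix (Fin n) (Fin n) ℤ) (k : ℕ) :
    ∃ D : Matrix (Fin n) (Fin n) ℝ, (∀ i j, |D i j| ≤ 1 / U) ∧
      seqX U A (k + 1) = seqX U A k + seqX U A k - seqX U A k * (U⁻¹ • toR A) * seqX U A k + D := by
  set Z := seqZ U A k with hZ
  have hUne : U ≠ 0 := hU.ne'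
  refine ⟨seqX U A (k + 1) - (seqX U A k + seqX U A k
    - seqX U A k * (U⁻¹ • toR A) * seqX U A k), fun i j => ?_, by abel⟩
  have h1 : (seqX U A k * (U⁻¹ • toR A) * seqX U A k) i j
      = U⁻¹ * (((Z * A * Z) i j : ℝ) / (U * U)) := by
    have : seqX U A k * (U⁻¹ • toR A) * seqX U A k = (U⁻¹ * U⁻¹ * U⁻¹) • toR (Z * A * Z) := by
      rw [toR_mul, toR_mul]
      unfold seqX
      rw [← hZ]
      simp only [Matrix.smul_mul, Matrix.mul_smul, smul_smul]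
      congr 1
      ring
    rw [this]
    simp only [Matrix.smul_apply, smul_eq_mul, toR_apply]
    field_simp
  simp only [Matrix.sub_apply, Matrix.add_apply]
  rw [h1, seqX_entry, seqX_entry, ← hZ]
  have h2 : seqZ U A (k + 1) i j
      = ⌊(Z i j : ℝ) + Z i j - ((Z * A * Z) i j : ℝ) / (U * U)⌋ := rfl
  rw [h2]
  set y := (Z i j : ℝ) + Z i j - ((Z * A * Z) i j : ℝ) / (U * U) with hy
  have h3 : U⁻¹ * (⌊y⌋ : ℝ) - (U⁻¹ * (Z i j : ℝ) + U⁻¹ * (Z i j : ℝ)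
      - U⁻¹ * (((Z * A * Z) i j : ℝ) / (U * U))) = U⁻¹ * (⌊y⌋ - y) := by
    rw [hy]; ring
  rw [h3, abs_mul, abs_of_pos (inv_pos.2 hU), one_div]
  have h4 : |(⌊y⌋ : ℝ) - y| ≤ 1 := by
    rw [abs_le]
    constructor
    · linarith [Int.lt_floor_add_one y]
    · linarith [Int.floor_le y]
  calc U⁻¹ * |(⌊y⌋ : ℝ) - y| ≤ U⁻¹ * 1 := mul_le_mul_of_nonneg_left h4 (inv_pos.2 hU).le
    _ = U⁻¹ := mul_one _

/-- the error recursion -/
theorem resid_step (U : ℝ) (hU : 0 < U) (A : Matrix (Fin n) (Fin n) ℤ)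
    (hT : ‖U⁻¹ • toR A‖ ≤ 1) (k : ℕ) :
    ‖1 - seqX U A (k + 1) * (U⁻¹ • toR A)‖
      ≤ ‖1 - seqX U A k * (U⁻¹ • toR A)‖ ^ 2 + (n : ℝ) ^ 2 / U := by
  obtain ⟨D, hD, hX⟩ := seqX_step U hU A k
  set T := U⁻¹ • toR A with hTdef
  set X := seqX U A k with hXdef
  have h1 : 1 - seqX U A (k + 1) * T = (1 - X * T) * (1 - X * T) - D * T := by
    rw [hX]
    noncomm_ring
  rw [h1]
  have h2 : ‖D‖ ≤ (n : ℝ) ^ 2 / U := by
    have := opNorm_le_entries D (1 / U) hD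
    rw [mul_one_div] at this
    exact this
  calc ‖(1 - X * T) * (1 - X * T) - D * T‖ ≤ ‖(1 - X * T) * (1 - X * T)‖ + ‖D * T‖ :=
        norm_sub_le _ _
    _ ≤ ‖1 - X * T‖ * ‖1 - X * T‖ + ‖D‖ * ‖T‖ := add_le_add (norm_mul_le _ _) (norm_mul_le _ _)
    _ ≤ ‖1 - X * T‖ ^ 2 + (n : ℝ) ^ 2 / U := by
        rw [sq]
        have h3 : ‖D‖ * ‖T‖ ≤ ‖D‖ * 1 := mul_le_mul_of_nonneg_left hT (norm_nonneg _)
        linarith

theorem pow_base (L : ℕ) : base ((2 : ℝ) ^ L) = 2 ^ (4 * L + 4) := by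
  unfold base
  rw [pow_add, pow_mul']
  ring

/-- the rounded matrix, as an integer matrix -/
def rndZ (U s : ℝ) (A : Matrix (Fin n) (Fin n) ℝ) : Matrix (Fin n) (Fin n) ℤ :=
  Matrix.of fun i j => ⌊U * A i j / s⌋

theorem entry_le_half {A : Matrix (Fin n) (Fin n) ℝ} {s : ℝ} (hs : s = 2 * ∑ i, ∑ j, |A i j|)
    (hs0 : 0 < s) (i j : Fin n) : |A i j / s| ≤ 1 / 2 := by
  rw [abs_div, abs_of_pos hs0, div_le_iff₀ hs0]
  have h1 : |A i j| ≤ ∑ i, ∑ j, |A i j| := by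
    calc |A i j| ≤ ∑ j, |A i j| :=
          Finset.single_le_sum (f := fun j => |A i j|) (fun _ _ => abs_nonneg _)
            (Finset.mem_univ j)
      _ ≤ ∑ i, ∑ j, |A i j| :=
          Finset.single_le_sum (f := fun i => ∑ j, |A i j|)
            (fun _ _ => Finset.sum_nonneg fun _ _ => abs_nonneg _) (Finset.mem_univ i)
  linarith

theorem roundA_eq {A : Matrix (Fin n) (Fin n) ℝ} {s : ℝ} (hs : s = 2 * ∑ i, ∑ j, |A i j|)
    (hs0 : 0 < s) (L : ℕ) :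
    roundA n L (2 ^ L) (2 ^ (4 * L + 4)) s (encM A) = encM (toR (rndZ (2 ^ L) s A)) := by
  apply roundA_spec
  intro i j
  rw [mul_div_assoc, abs_mul, abs_of_pos (by positivity : (0 : ℝ) < 2 ^ L)]
  have h1 := entry_le_half hs hs0 i j
  have h2 : (1 : ℝ) ≤ 2 ^ L := one_le_pow₀ (by norm_num)
  have h3 : (2 : ℝ) ^ L ≤ 2 ^ (4 * L + 4) := pow_le_pow_right₀ (by norm_num) (by omega)
  nlinarith [abs_nonneg (A i j / s)]

theorem rndZ_close (U s : ℝ) (hU : 0 < U) (A : Matrix (Fin n) (Fin n) ℝ) (i j : Fin n) :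
    |(U⁻¹ • toR (rndZ U s A) - s⁻¹ • A) i j| ≤ 1 / U := by
  simp only [Matrix.sub_apply, Matrix.smul_apply, smul_eq_mul, toR_apply, rndZ, Matrix.of_apply]
  set y := U * A i j / s with hy
  have h1 : U⁻¹ * (⌊y⌋ : ℝ) - s⁻¹ * A i j = U⁻¹ * (⌊y⌋ - y) := by
    rw [hy]; field_simp
  rw [h1, abs_mul, abs_of_pos (inv_pos.2 hU), one_div]
  have h4 : |(⌊y⌋ : ℝ) - y| ≤ 1 := by
    rw [abs_le]
    constructor
    · linarith [Int.lt_floor_add_one y]
    · linarith [Int.floor_le y]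
  calc U⁻¹ * |(⌊y⌋ : ℝ) - y| ≤ U⁻¹ * 1 := mul_le_mul_of_nonneg_left h4 (inv_pos.2 hU).le
    _ = U⁻¹ := mul_one _

theorem norm_scaled_le {A : Matrix (Fin n) (Fin n) ℝ} {s : ℝ} (hs : s = 2 * ∑ i, ∑ j, |A i j|)
    (hs0 : 0 < s) : ‖s⁻¹ • A‖ ≤ 1 / 2 := by
  refine (opNorm_le_sum _).trans ?_
  have h1 : ∑ i, ∑ j, |(s⁻¹ • A) i j| = s⁻¹ * ∑ i, ∑ j, |A i j| := by
    rw [Finset.mul_sum]
    apply Finset.sum_congr rfl
    intro i _
    rw [Finset.mul_sum]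
    apply Finset.sum_congr rfl
    intro j _
    rw [Matrix.smul_apply, smul_eq_mul, abs_mul, abs_of_pos (inv_pos.2 hs0)]
  rw [h1]
  have h2 : ∑ i, ∑ j, |A i j| = s / 2 := by linarith
  rw [h2]
  have : s ≠ 0 := hs0.ne'
  field_simp
  exact le_refl _

/-- **The test is passed when the precision is large enough.** -/
theorem test_pass (L : ℕ) (hn : 1 ≤ n) {A : Matrix (Fin n) (Fin n) ℝ} {s σ ε : ℝ}
    (hs : s = 2 * ∑ i, ∑ j, |A i j|) (hs0 : 0 < s) (hσ0 : 0 < σ)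
    (hσ : ∀ v, σ * nrm v ≤ nrm ((s⁻¹ • A) *ᵥ v)) (hε : 0 < ε) (hε1 : ε ≤ 1)
    (hU : 256 * (n : ℝ) ^ 4 / (σ ^ 2 * ε) ≤ 2 ^ L) :
    test n ε (2 ^ L) (8 * (n : ℝ) ^ 2)
      (resid n L (2 ^ L) (2 ^ (4 * L + 4)) (eyeN n)
        (inv n L (2 ^ L) (2 ^ (4 * L + 4)) (roundA n L (2 ^ L) (2 ^ (4 * L + 4)) s (encM A)))
        (roundA n L (2 ^ L) (2 ^ (4 * L + 4)) s (encM A)))
      (inv n L (2 ^ L) (2 ^ (4 * L + 4)) (roundA n L (2 ^ L) (2 ^ (4 * L + 4)) s (encM A))) < 0 := by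
  have hn' : (1 : ℝ) ≤ n := by exact_mod_cast hn
  rw [roundA_eq hs hs0]
  set U : ℝ := 2 ^ L with hUdef
  have hU0 : 0 < U := by positivity
  have hU1 : 1 ≤ U := one_le_pow₀ (by norm_num)
  have hB : (2 : ℝ) ^ (4 * L + 4) = 16 * U ^ 4 := by
    rw [hUdef, pow_add, pow_mul']; ring
  set A2 := rndZ U s A with hA2
  set T : Matrix (Fin n) (Fin n) ℝ := U⁻¹ • toR A2 with hT
  -- `σ ≤ 1 / 2`
  have hσ1 : σ ≤ 1 / 2 := by
    have i0 : Fin n := ⟨0, hn⟩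
    have h1 := hσ (Pi.single i0 1)
    have h2 : nrm (Pi.single i0 (1 : ℝ)) = 1 := by
      unfold nrm
      have : (toLp 2 (Pi.single i0 (1 : ℝ)) : EuclideanSpace ℝ (Fin n))
        = EuclideanSpace.single i0 (1 : ℝ) := rfl
      rw [this]
      simp
    have h3 := nrm_mulVec (s⁻¹ • A) (Pi.single i0 1)
    rw [h2, mul_one] at h1 h3
    exact h1.trans (h3.trans (norm_scaled_le hs hs0))
  set δ : ℝ := (n : ℝ) ^ 2 / U with hδ
  have hδ0 : 0 < δ := by positivity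
  have hn2 : (1 : ℝ) ≤ (n : ℝ) ^ 2 := one_le_pow₀ hn'
  have hn4 : (1 : ℝ) ≤ (n : ℝ) ^ 4 := one_le_pow₀ hn'
  have hUb : 256 * (n : ℝ) ^ 4 ≤ U * (σ ^ 2 * ε) := by
    rwa [div_le_iff₀ (by positivity)] at hU
  have hδb : δ * (256 * (n : ℝ) ^ 2) ≤ σ ^ 2 * ε := by
    rw [hδ, div_mul_eq_mul_div, div_le_iff₀ hU0]
    nlinarith
  have hδσ : 256 * δ ≤ σ ^ 2 := by
    have h1 : σ ^ 2 * ε ≤ σ ^ 2 := by nlinarith [sq_nonneg σ]
    nlinarith
  have hσ2 : σ ^ 2 ≤ σ / 2 := by nlinarith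
  have hTA : ‖T - s⁻¹ • A‖ ≤ δ := by
    have := opNorm_le_entries (T - s⁻¹ • A) (1 / U) (rndZ_close U s hU0 A)
    rw [mul_one_div] at this
    exact this
  have hT1 : ‖T‖ ≤ 1 := by
    have h1 : ‖T‖ ≤ ‖T - s⁻¹ • A‖ + ‖s⁻¹ • A‖ := by
      calc ‖T‖ = ‖(T - s⁻¹ • A) + s⁻¹ • A‖ := by rw [sub_add_cancel]
        _ ≤ _ := norm_add_le _ _
    have h2 := norm_scaled_le hs hs0
    nlinarith
  have hTσ : ∀ v, σ / 2 * nrm v ≤ nrm (T *ᵥ v) := by
    intro v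
    have h1 := hσ v
    have h2 : (s⁻¹ • A) *ᵥ v = T *ᵥ v + (s⁻¹ • A - T) *ᵥ v := by
      rw [← Matrix.add_mulVec]; congr 1; abel
    have h3 : nrm ((s⁻¹ • A) *ᵥ v) ≤ nrm (T *ᵥ v) + nrm ((s⁻¹ • A - T) *ᵥ v) := by
      rw [h2]; exact nrm_add _ _
    have h4 := nrm_mulVec (s⁻¹ • A - T) v
    rw [norm_sub_rev] at h4
    have h5 : ‖T - s⁻¹ • A‖ * nrm v ≤ δ * nrm v :=
      mul_le_mul_of_nonneg_right hTA (nrm_nonneg v)
    have h6 : δ * nrm v ≤ σ / 2 * nrm v :=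
      mul_le_mul_of_nonneg_right (by nlinarith) (nrm_nonneg v)
    linarith
  obtain ⟨S, hS, hSn⟩ := exists_inverse T (σ / 2) (by positivity) hTσ
  -- error sequence
  set e : ℕ → ℝ := fun k => ‖1 - seqX U A2 k * T‖ with he
  have he0 : ∀ k, 0 ≤ e k := fun k => norm_nonneg _
  have hes : ∀ k, e (k + 1) ≤ e k ^ 2 + δ := fun k => resid_step U hU0 A2 hT1 k
  have heinit : e 0 ≤ 1 - (σ / 2) ^ 2 := by
    have h1 := norm_one_sub_transpose_mul_self T (σ / 2) (by positivity) (by linarith) hT1 hTσ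
    have h2 : seqX U A2 0 = Tᵀ := by
      rw [hT, Matrix.transpose_smul, ← toR_transpose]
      rfl
    simp only [he, h2]
    exact h1
  have hη : 0 < (σ / 2) ^ 2 := by positivity
  have hη4 : (σ / 2) ^ 2 ≤ 1 / 4 := by nlinarith
  have hρ : δ ≤ (σ / 2) ^ 2 / 4 := by nlinarith
  have hp1 := newton_phase1 e ((σ / 2) ^ 2) δ he0 heinit hη hη4 hρ hes
  have he1 : ∀ k, e k ≤ 1 := by
    intro k
    have h1 := hp1 k
    have h2 : 0 ≤ min (1 / 4) ((3 / 2) ^ k * (σ / 2) ^ 2) := by positivity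
    linarith
  have hp2 : e (2 * L) ≤ 3 / 4 := by
    have h1 := hp1 (2 * L)
    have h2 : U ≤ (3 / 2) ^ (2 * L) := by
      rw [pow_mul, hUdef]
      exact pow_le_pow_left₀ (by norm_num) (by norm_num) L
    have h3 : 1 / 4 ≤ (3 / 2) ^ (2 * L) * (σ / 2) ^ 2 := by
      have h4 : U * (σ / 2) ^ 2 ≤ (3 / 2) ^ (2 * L) * (σ / 2) ^ 2 :=
        mul_le_mul_of_nonneg_right h2 hη.le
      have h5 : U * (σ ^ 2 * ε) ≤ U * σ ^ 2 := by
        apply mul_le_mul_of_nonneg_left _ hU0.le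
        nlinarith [sq_nonneg σ]
      nlinarith
    rw [min_eq_left h3] at h1
    linarith
  have hδ16 : δ ≤ 3 / 16 := by nlinarith
  have hp3 : e (5 * L) ≤ (3 / 4) ^ (3 * L) + 4 * δ := by
    have h1 := (newton_phase2 (fun k => e (2 * L + k)) δ (fun k => he0 _) hp2 hδ0.le hδ16
      (fun k => hes _) (3 * L)).2
    have h2 : 2 * L + 3 * L = 5 * L := by ring
    simp only [h2] at h1
    exact h1
  have hfin : e (5 * L) ≤ ε / (8 * (n : ℝ) ^ 2) := by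
    have h1 : ((3 : ℝ) / 4) ^ (3 * L) ≤ 1 / U := by
      rw [pow_mul, hUdef, ← _root_.one_div_pow]
      exact pow_le_pow_left₀ (by norm_num) (by norm_num) L
    have h2 : 1 / U ≤ δ := by
      rw [hδ]
      gcongr
    have h3 : e (5 * L) ≤ 5 * δ := by linarith
    refine h3.trans ?_
    rw [le_div_iff₀ (by positivity)]
    have h4 : σ ^ 2 * ε ≤ ε := by nlinarith
    nlinarith
  -- bounds for all iterates
  have hXT : ∀ k, ‖seqX U A2 k * T‖ ≤ 2 := by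
    intro k
    have h1 : seqX U A2 k * T = 1 - (1 - seqX U A2 k * T) := by abel
    have h2 : ‖(1 : Matrix (Fin n) (Fin n) ℝ)‖ ≤ 1 := by
      apply opNorm_le _ _ zero_le_one
      intro v
      rw [Matrix.one_mulVec, one_mul]
    calc ‖seqX U A2 k * T‖ = ‖1 - (1 - seqX U A2 k * T)‖ := by rw [← h1]
      _ ≤ ‖(1 : Matrix (Fin n) (Fin n) ℝ)‖ + ‖1 - seqX U A2 k * T‖ := norm_sub_le _ _
      _ ≤ 1 + 1 := add_le_add h2 (he1 k)
      _ = 2 := by norm_num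
  have hXn : ∀ k, ‖seqX U A2 k‖ ≤ 4 / σ := by
    intro k
    have h1 : seqX U A2 k = seqX U A2 k * T * S := by
      rw [Matrix.mul_assoc, hS, Matrix.mul_one]
    calc ‖seqX U A2 k‖ = ‖seqX U A2 k * T * S‖ := by rw [← h1]
      _ ≤ ‖seqX U A2 k * T‖ * ‖S‖ := norm_mul_le _ _
      _ ≤ 2 * (1 / (σ / 2)) := mul_le_mul (hXT k) hSn (norm_nonneg _) (by norm_num)
      _ = 4 / σ := by field_simp; norm_num
  have hUσ : 256 * (n : ℝ) ^ 4 / σ ≤ U * ε := by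
    rw [div_le_iff₀ hσ0]
    have h1 : U * (σ ^ 2 * ε) ≤ U * ε * σ := by
      have : σ ^ 2 ≤ σ := by nlinarith
      have h2 : 0 < U * ε := by positivity
      nlinarith
    linarith
  have hUσ' : 256 / σ ≤ U := by
    have h1 : 256 / σ ≤ 256 * (n : ℝ) ^ 4 / σ := by
      apply div_le_div_of_nonneg_right _ hσ0.le
      nlinarith
    have h2 : U * ε ≤ U := by nlinarith
    linarith
  have hZb : ∀ k i j, |(seqZ U A2 k i j : ℝ)| ≤ 4 * U / σ := by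
    intro k i j
    have h1 := (entry_le_opNorm (seqX U A2 k) i j).trans (hXn k)
    rw [seqX_entry, abs_mul, abs_of_pos (inv_pos.2 hU0)] at h1
    have h2 : |(seqZ U A2 k i j : ℝ)| = U * (U⁻¹ * |(seqZ U A2 k i j : ℝ)|) := by
      field_simp
    rw [h2]
    calc U * (U⁻¹ * |(seqZ U A2 k i j : ℝ)|) ≤ U * (4 / σ) := mul_le_mul_of_nonneg_left h1 hU0.le
      _ = 4 * U / σ := by ring
  have h4σ : 4 / σ ≤ U / 64 := by
    have : 4 / σ = (256 / σ) / 64 := by ring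
    rw [this]
    linarith
  have hZAb : ∀ k i j, |(((seqZ U A2 k * A2) i j : ℤ) : ℝ)| ≤ 2 * U ^ 2 := by
    intro k i j
    have h1 := (entry_le_opNorm (seqX U A2 k * T) i j).trans (hXT k)
    have h2 : (seqX U A2 k * T) = (U⁻¹ * U⁻¹) • toR (seqZ U A2 k * A2) := by
      rw [toR_mul, hT]
      unfold seqX
      simp only [Matrix.smul_mul, Matrix.mul_smul, smul_smul]
    rw [h2, Matrix.smul_apply, smul_eq_mul, toR_apply, abs_mul,
      abs_of_pos (mul_pos (inv_pos.2 hU0) (inv_pos.2 hU0))] at h1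
    have h3 : |(((seqZ U A2 k * A2) i j : ℤ) : ℝ)|
        = U ^ 2 * (U⁻¹ * U⁻¹ * |(((seqZ U A2 k * A2) i j : ℤ) : ℝ)|) := by
      field_simp
    rw [h3]
    nlinarith [sq_nonneg U]
  have hZAZb : ∀ k i j, |(((seqZ U A2 k * A2 * seqZ U A2 k) i j : ℤ) : ℝ)| ≤ U ^ 4 := by
    intro k i j
    have h0 : ‖seqX U A2 k * T * seqX U A2 k‖ ≤ 2 * (4 / σ) :=
      (norm_mul_le _ _).trans (mul_le_mul (hXT k) (hXn k) (norm_nonneg _) (by norm_num))
    have h1 := (entry_le_opNorm (seqX U A2 k * T * seqX U A2 k) i j).trans h0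
    have h2 : (seqX U A2 k * T * seqX U A2 k)
        = (U⁻¹ * U⁻¹ * U⁻¹) • toR (seqZ U A2 k * A2 * seqZ U A2 k) := by
      rw [toR_mul, toR_mul, hT]
      unfold seqX
      simp only [Matrix.smul_mul, Matrix.mul_smul, smul_smul]
      congr 1
      ring
    rw [h2, Matrix.smul_apply, smul_eq_mul, toR_apply, abs_mul,
      abs_of_pos (mul_pos (mul_pos (inv_pos.2 hU0) (inv_pos.2 hU0)) (inv_pos.2 hU0))] at h1
    have h3 : |(((seqZ U A2 k * A2 * seqZ U A2 k) i j : ℤ) : ℝ)|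
        = U ^ 3 * (U⁻¹ * U⁻¹ * U⁻¹ * |(((seqZ U A2 k * A2 * seqZ U A2 k) i j : ℤ) : ℝ)|) := by
      field_simp
    rw [h3]
    have h5 : U ^ 3 * (U⁻¹ * U⁻¹ * U⁻¹ * |(((seqZ U A2 k * A2 * seqZ U A2 k) i j : ℤ) : ℝ)|)
        ≤ U ^ 3 * (2 * (4 / σ)) := mul_le_mul_of_nonneg_left h1 (by positivity)
    have h6 : U ^ 3 * (2 * (4 / σ)) ≤ U ^ 3 * U := by
      apply mul_le_mul_of_nonneg_left _ (by positivity)
      linarith
    calc _ ≤ _ := h5
      _ ≤ _ := h6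
      _ = U ^ 4 := by ring
  -- no overflow
  have hU24 : U ^ 2 ≤ U ^ 4 := pow_le_pow_right₀ hU1 (by norm_num)
  have hU14 : 1 ≤ U ^ 4 := one_le_pow₀ hU1
  have hnewt : ∀ k < 5 * L, newt n L U (2 ^ (4 * L + 4)) (encM (toR A2)) (encM (toR (seqZ U A2 k)))
      = encM (toR (seqZ U A2 (k + 1))) := by
    intro k _
    rw [newt_spec n L U A2 (seqZ U A2 k)]
    · rfl
    · intro i j
      have h1 := hZAb k i j
      rw [hB]
      linarith
    · intro i j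
      have h1 := hZAZb k i j
      rw [hB]
      linarith
    · intro i j
      have h1 := hZb k i j
      have h2 := hZAZb k i j
      have h3 : 4 * U / σ ≤ U ^ 2 / 64 := by
        have : 4 * U / σ = U * (4 / σ) := by ring
        rw [this]
        nlinarith
      have h4 : |(((seqZ U A2 k * A2 * seqZ U A2 k) i j : ℤ) : ℝ) / (U * U)| ≤ U ^ 2 := by
        rw [abs_div, abs_of_pos (mul_pos hU0 hU0), div_le_iff₀ (mul_pos hU0 hU0)]
        calc _ ≤ U ^ 4 := h2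
          _ = U ^ 2 * (U * U) := by ring
      rw [hB]
      have h5 := abs_le.1 h1
      have h6 := abs_le.1 h4
      rw [abs_le]
      constructor <;> linarith [h5.1, h5.2, h6.1, h6.2]
  have hinv : inv n L U (2 ^ (4 * L + 4)) (encM (toR A2)) = encM (toR (seqZ U A2 (5 * L))) := by
    unfold inv
    rw [trN_spec, newt5_iter, ← toR_transpose]
    exact newt_iter_spec n L U A2 (seqZ U A2) (5 * L) hnewt (5 * L) le_rfl
  rw [hinv, test_neg_iff, resid_spec]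
  · have hN : (0 : ℝ) < 8 * (n : ℝ) ^ 2 := by positivity
    constructor
    · rw [← le_div_iff₀ hN, maxN_le]
      refine ⟨by positivity, fun i j => ?_⟩
      have h1 := (entry_le_opNorm (1 - seqX U A2 (5 * L) * T) i j).trans hfin
      have h2 : (U * U) • (1 : Matrix (Fin n) (Fin n) ℝ) - toR (seqZ U A2 (5 * L) * A2)
          = (U * U) • (1 - seqX U A2 (5 * L) * T) := by
        rw [smul_sub, toR_mul, hT]
        unfold seqX
        simp only [Matrix.smul_mul, Matrix.mul_smul, smul_smul]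
        have : U * U * (U⁻¹ * U⁻¹) = 1 := by field_simp
        rw [this, one_smul]
      rw [h2, Matrix.smul_apply, smul_eq_mul, abs_mul, abs_of_pos (mul_pos hU0 hU0)]
      calc U * U * |(1 - seqX U A2 (5 * L) * T) i j| ≤ U * U * (ε / (8 * (n : ℝ) ^ 2)) :=
            mul_le_mul_of_nonneg_left h1 (mul_pos hU0 hU0).le
        _ = ε * (U * U) / (8 * (n : ℝ) ^ 2) := by ring
    · rw [← le_div_iff₀ (mul_pos hN hN), maxN_le]
      refine ⟨by positivity, fun i j => ?_⟩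
      refine (hZb (5 * L) i j).trans ?_
      rw [le_div_iff₀ (mul_pos hN hN)]
      have h1 : 4 * U / σ * (8 * (n : ℝ) ^ 2 * (8 * (n : ℝ) ^ 2))
          = U * (256 * (n : ℝ) ^ 4 / σ) := by ring
      rw [h1]
      calc U * (256 * (n : ℝ) ^ 4 / σ) ≤ U * (U * ε) := mul_le_mul_of_nonneg_left hUσ hU0.le
        _ = ε * (U * U) := by ring
  · intro i j
    have h1 := hZAb (5 * L) i j
    rw [hB]
    linarith

/-- **Soundness of the test.** -/
theorem test_sound (L : ℕ) (hn : 1 ≤ n) {A : Matrix (Fin n) (Fin n) ℝ} {s ε : ℝ}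
    (hs : s = 2 * ∑ i, ∑ j, |A i j|) (hs0 : 0 < s) (hε : 0 < ε) (hε1 : ε ≤ 1)
    (htest : test n ε (2 ^ L) (8 * (n : ℝ) ^ 2)
      (resid n L (2 ^ L) (2 ^ (4 * L + 4)) (eyeN n)
        (inv n L (2 ^ L) (2 ^ (4 * L + 4)) (roundA n L (2 ^ L) (2 ^ (4 * L + 4)) s (encM A)))
        (roundA n L (2 ^ L) (2 ^ (4 * L + 4)) s (encM A)))
      (inv n L (2 ^ L) (2 ^ (4 * L + 4)) (roundA n L (2 ^ L) (2 ^ (4 * L + 4)) s (encM A)))
        < 0) :
    ∃ Z : Matrix (Fin n) (Fin n) ℤ,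
      inv n L (2 ^ L) (2 ^ (4 * L + 4)) (roundA n L (2 ^ L) (2 ^ (4 * L + 4)) s (encM A))
        = encM (toR Z) ∧
      ‖1 - ((((2 : ℝ) ^ L)⁻¹ * s⁻¹) • toR Z) * A‖ ≤ ε := by
  have hn' : (1 : ℝ) ≤ n := by exact_mod_cast hn
  rw [roundA_eq hs hs0] at htest ⊢
  set U : ℝ := 2 ^ L with hUdef
  have hU0 : 0 < U := by positivity
  have hU1 : 1 ≤ U := one_le_pow₀ (by norm_num)
  have hB : (2 : ℝ) ^ (4 * L + 4) = 16 * U ^ 4 := by
    rw [hUdef, pow_add, pow_mul']; ring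
  set A2 := rndZ U s A with hA2
  obtain ⟨Z, hZ⟩ := inv_int n L U A2
  refine ⟨Z, hZ, ?_⟩
  rw [hZ, test_neg_iff] at htest
  obtain ⟨ht1, ht2⟩ := htest
  have hN : (0 : ℝ) < 8 * (n : ℝ) ^ 2 := by positivity
  rw [← le_div_iff₀ (mul_pos hN hN), maxN_le] at ht2
  obtain ⟨-, ht2⟩ := ht2
  have hn2 : (1 : ℝ) ≤ (n : ℝ) ^ 2 := one_le_pow₀ hn'
  -- bounds for the product
  have hA2b : ∀ i j, |(A2 i j : ℝ)| ≤ 2 * U := by
    intro i j
    have h1 := rndZ_close U s hU0 A i j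
    have h2 := entry_le_half hs hs0 i j
    simp only [Matrix.sub_apply, Matrix.smul_apply, smul_eq_mul, toR_apply] at h1
    rw [← hA2] at h1
    have h3 : |U⁻¹ * (A2 i j : ℝ)| ≤ 1 / U + 1 / 2 := by
      have h4 : U⁻¹ * (A2 i j : ℝ) = (U⁻¹ * (A2 i j : ℝ) - s⁻¹ * A i j) + A i j / s := by
        rw [div_eq_inv_mul]; ring
      rw [h4]
      exact (abs_add_le _ _).trans (add_le_add h1 h2)
    rw [abs_mul, abs_of_pos (inv_pos.2 hU0)] at h3
    have h5 : |(A2 i j : ℝ)| = U * (U⁻¹ * |(A2 i j : ℝ)|) := by field_simp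
    rw [h5]
    calc U * (U⁻¹ * |(A2 i j : ℝ)|) ≤ U * (1 / U + 1 / 2) := mul_le_mul_of_nonneg_left h3 hU0.le
      _ = 1 + U / 2 := by field_simp
      _ ≤ 2 * U := by linarith
  have hZb : ∀ i j, |(Z i j : ℝ)| ≤ U ^ 2 / (64 * (n : ℝ) ^ 4) := by
    intro i j
    refine (ht2 i j).trans ?_
    have h1 : 8 * (n : ℝ) ^ 2 * (8 * (n : ℝ) ^ 2) = 64 * (n : ℝ) ^ 4 := by ring
    rw [h1]
    apply div_le_div_of_nonneg_right _ (by positivity)
    nlinarith [mul_pos hU0 hU0]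
  have hZA : ∀ i j, |(((Z * A2) i j : ℤ) : ℝ)| ≤ ((2 : ℝ) ^ (4 * L + 4) - 1) / 2 := by
    intro i j
    have h1 : (((Z * A2) i j : ℤ) : ℝ) = ∑ k, (Z i k : ℝ) * (A2 k j : ℝ) := by
      rw [Matrix.mul_apply]; push_cast; rfl
    rw [h1]
    have h2 : |∑ k, (Z i k : ℝ) * (A2 k j : ℝ)| ≤ ∑ _k : Fin n, U ^ 2 / (64 * (n : ℝ) ^ 4) * (2 * U) := by
      refine (Finset.abs_sum_le_sum_abs _ _).trans (Finset.sum_le_sum fun k _ => ?_)
      rw [abs_mul]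
      exact mul_le_mul (hZb i k) (hA2b k j) (abs_nonneg _) (by positivity)
    refine h2.trans ?_
    rw [Finset.sum_const, Finset.card_univ, Fintype.card_fin, nsmul_eq_mul, hB]
    have h3 : (n : ℝ) * (U ^ 2 / (64 * (n : ℝ) ^ 4) * (2 * U)) = U ^ 3 / (32 * (n : ℝ) ^ 3) := by
      field_simp
      ring
    rw [h3]
    have h4 : U ^ 3 / (32 * (n : ℝ) ^ 3) ≤ U ^ 3 := by
      rw [div_le_iff₀ (by positivity)]
      have h5 : (1 : ℝ) ≤ (n : ℝ) ^ 3 := one_le_pow₀ hn'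
      have h6 : 0 < U ^ 3 := by positivity
      nlinarith
    have h7 : U ^ 3 ≤ U ^ 4 := pow_le_pow_right₀ hU1 (by norm_num)
    have h8 : 1 ≤ U ^ 4 := one_le_pow₀ hU1
    linarith
  rw [resid_spec _ _ _ _ _ hZA, ← le_div_iff₀ hN, maxN_le] at ht1
  obtain ⟨-, ht1⟩ := ht1
  set T : Matrix (Fin n) (Fin n) ℝ := U⁻¹ • toR A2 with hT
  set X : Matrix (Fin n) (Fin n) ℝ := U⁻¹ • toR Z with hX
  -- the computed residual
  have hR : ‖1 - X * T‖ ≤ ε / 8 := by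
    have h1 : ∀ i j, |(1 - X * T) i j| ≤ ε / (8 * (n : ℝ) ^ 2) := by
      intro i j
      have h2 := ht1 i j
      have h3 : (U * U) • (1 : Matrix (Fin n) (Fin n) ℝ) - toR (Z * A2)
          = (U * U) • (1 - X * T) := by
        rw [smul_sub, toR_mul, hT, hX]
        simp only [Matrix.smul_mul, Matrix.mul_smul, smul_smul]
        have : U * U * (U⁻¹ * U⁻¹) = 1 := by field_simp
        rw [this, one_smul]
      rw [h3, Matrix.smul_apply, smul_eq_mul, abs_mul, abs_of_pos (mul_pos hU0 hU0)] at h2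
      have h4 : U * U * |(1 - X * T) i j| ≤ U * U * (ε / (8 * (n : ℝ) ^ 2)) := by
        calc _ ≤ _ := h2
          _ = U * U * (ε / (8 * (n : ℝ) ^ 2)) := by ring
      exact le_of_mul_le_mul_left h4 (mul_pos hU0 hU0)
    refine (opNorm_le_entries _ _ h1).trans (le_of_eq ?_)
    field_simp
  have hXn : ‖X‖ ≤ ε * U / (64 * (n : ℝ) ^ 2) := by
    have h1 : ∀ i j, |X i j| ≤ ε * U / (64 * (n : ℝ) ^ 4) := by
      intro i j
      rw [hX, Matrix.smul_apply, smul_eq_mul, toR_apply, abs_mul, abs_of_pos (inv_pos.2 hU0)]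
      calc U⁻¹ * |(Z i j : ℝ)| ≤ U⁻¹ * (ε * (U * U) / (8 * (n : ℝ) ^ 2 * (8 * (n : ℝ) ^ 2))) :=
            mul_le_mul_of_nonneg_left (ht2 i j) (inv_pos.2 hU0).le
        _ = ε * U / (64 * (n : ℝ) ^ 4) := by
            field_simp
            ring
    refine (opNorm_le_entries _ _ h1).trans (le_of_eq ?_)
    field_simp
  have hTA : ‖T - s⁻¹ • A‖ ≤ (n : ℝ) ^ 2 / U := by
    have := opNorm_le_entries (T - s⁻¹ • A) (1 / U) (rndZ_close U s hU0 A)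
    rw [mul_one_div] at this
    exact this
  have hfinal : 1 - ((U⁻¹ * s⁻¹) • toR Z) * A = (1 - X * T) + X * (T - s⁻¹ • A) := by
    rw [Matrix.mul_sub, hX, mul_comm U⁻¹ s⁻¹]
    simp only [Matrix.smul_mul, Matrix.mul_smul, smul_smul]
    abel
  rw [hfinal]
  calc ‖(1 - X * T) + X * (T - s⁻¹ • A)‖ ≤ ‖1 - X * T‖ + ‖X * (T - s⁻¹ • A)‖ := norm_add_le _ _
    _ ≤ ε / 8 + (ε * U / (64 * (n : ℝ) ^ 2)) * ((n : ℝ) ^ 2 / U) := by
        refine add_le_add hR ((norm_mul_le _ _).trans ?_)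
        exact mul_le_mul hXn hTA (norm_nonneg _) (by positivity)
    _ = ε / 8 + ε / 64 := by field_simp
    _ ≤ ε := by linarith

end Pool.Agent.TH701
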