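import Pool.Agent.TH701.Comp

set_option autoImplicit false

namespace Pool.Agent.TH701

/-- the cost bound `(n+1)^a (L+1)^b` -/
def bd (a b : ℕ) (n L : ℕ) : ℕ := (n + 1) ^ a * (L + 1) ^ b

theorem one_le_bd (a b n L : ℕ) : 1 ≤ bd a b n L := by
  unfold bd
  exact Nat.mul_pos (Nat.pow_pos (by omega)) (Nat.pow_pos (by omega))

theorem bd_mono {a b a' b' : ℕ} (n L : ℕ) (ha : a ≤ a') (hb : b ≤ b') :
    bd a b n L ≤ bd a' b' n L := by
  unfold bd
  exact Nat.mul_le_mul (Nat.pow_le_pow_right (by omega) ha) (Nat.pow_le_pow_right (by omega) hb)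

/-- `PC a b f`: the function `f` of `(n, L, x)` is computed with `O((n+1)^a (L+1)^b)` operations. -/
def PC (a b : ℕ) {α β : Type} (f : ℕ × ℕ × α → β) : Prop :=
  ∃ K : ℕ, Comp f (fun p => K * bd a b p.1 p.2.1)

namespace PC

variable {α β γ δ ε : Type} {a b : ℕ}

theorem of_const {f : ℕ × ℕ × α → β} {K : ℕ} (h : Comp f (fun _ => K)) : PC a b f :=
  ⟨K, h.le fun _ => Nat.le_mul_of_pos_right _ (one_le_bd _ _ _ _)⟩

theorem mono {a' b' : ℕ} {f : ℕ × ℕ × α → β} (h : PC a b f) (ha : a ≤ a') (hb : b ≤ b') :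
    PC a' b' f := by
  obtain ⟨K, hK⟩ := h
  exact ⟨K, hK.le fun p => Nat.mul_le_mul_left _ (bd_mono _ _ ha hb)⟩

theorem congr {f g : ℕ × ℕ × α → β} (h : PC a b f) (hfg : ∀ p, f p = g p) : PC a b g := by
  have : f = g := funext hfg
  rwa [← this]

theorem n : PC a b (fun p : ℕ × ℕ × α => p.1) := of_const Comp.fst

theorem L : PC a b (fun p : ℕ × ℕ × α => p.2.1) := of_const (Comp.snd.comp Comp.fst)

theorem arg : PC a b (fun p : ℕ × ℕ × α => p.2.2) := of_const (Comp.snd.comp Comp.snd)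

theorem comp {f : ℕ × ℕ × α → β} {g : ℕ × ℕ × β → γ} (hf : PC a b f) (hg : PC a b g) :
    PC a b (fun p => g (p.1, p.2.1, f p)) := by
  obtain ⟨K, hK⟩ := hf
  obtain ⟨M, hM⟩ := hg
  refine ⟨10 + K + M, ((Comp.fst.pair ((Comp.snd.comp Comp.fst).pair hK)).comp hM).le fun p => ?_⟩
  have h1 := one_le_bd a b p.1 p.2.1
  simp only
  nlinarith

/-- composition with a function of constant cost -/
theorem map {f : ℕ × ℕ × α → β} {g : β → γ} {K : ℕ} (hf : PC a b f)
    (hg : Comp g (fun _ => K)) : PC a b (fun p => g (f p)) := by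
  obtain ⟨M, hM⟩ := hf
  refine ⟨M + K, (hM.comp hg).le fun p => ?_⟩
  have h1 := one_le_bd a b p.1 p.2.1
  nlinarith

theorem pair {f : ℕ × ℕ × α → β} {g : ℕ × ℕ × α → γ} (hf : PC a b f) (hg : PC a b g) :
    PC a b (fun p => (f p, g p)) := by
  obtain ⟨K, hK⟩ := hf
  obtain ⟨M, hM⟩ := hg
  refine ⟨K + M + 1, (hK.pair hM).le fun p => ?_⟩
  have h1 := one_le_bd a b p.1 p.2.1
  nlinarith

theorem fst {f : ℕ × ℕ × α → β × γ} (hf : PC a b f) : PC a b (fun p => (f p).1) :=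
  hf.map Comp.fst

theorem snd {f : ℕ × ℕ × α → β × γ} (hf : PC a b f) : PC a b (fun p => (f p).2) :=
  hf.map Comp.snd

theorem one : PC a b (fun _ : ℕ × ℕ × α => (1 : ℝ)) := of_const Comp.one

theorem nil : PC a b (fun _ : ℕ × ℕ × α => ([] : List β)) := of_const Comp.nil

theorem natZero : PC a b (fun _ : ℕ × ℕ × α => (0 : ℕ)) := of_const Comp.zero

theorem natSucc {f : ℕ × ℕ × α → ℕ} (hf : PC a b f) : PC a b (fun p => f p + 1) :=
  hf.map Comp.succ

theorem add {f g : ℕ × ℕ × α → ℝ} (hf : PC a b f) (hg : PC a b g) : PC a b (fun p => f p + g p) :=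
  (hf.pair hg).map Comp.add

theorem sub {f g : ℕ × ℕ × α → ℝ} (hf : PC a b f) (hg : PC a b g) : PC a b (fun p => f p - g p) :=
  (hf.pair hg).map Comp.sub

theorem mul {f g : ℕ × ℕ × α → ℝ} (hf : PC a b f) (hg : PC a b g) : PC a b (fun p => f p * g p) :=
  (hf.pair hg).map Comp.mul

theorem zero : PC a b (fun _ : ℕ × ℕ × α => (0 : ℝ)) :=
  (sub (α := α) one one).congr fun _ => by simp

theorem two : PC a b (fun _ : ℕ × ℕ × α => (2 : ℝ)) :=
  (add (α := α) one one).congr fun _ => by norm_num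

theorem neg {f : ℕ × ℕ × α → ℝ} (hf : PC a b f) : PC a b (fun p => - f p) :=
  (zero.sub hf).congr fun _ => by simp

theorem cons {f : ℕ × ℕ × α → β} {g : ℕ × ℕ × α → List β} (hf : PC a b f) (hg : PC a b g) :
    PC a b (fun p => f p :: g p) :=
  (hf.pair hg).map Comp.cons

theorem branch {h : ℕ × ℕ × α → ℝ} {f g : ℕ × ℕ × α → β} (hh : PC a b h) (hf : PC a b f)
    (hg : PC a b g) : PC a b (fun p => if 0 ≤ h p then f p else g p) := by
  obtain ⟨K, hK⟩ := hh
  obtain ⟨M, hM⟩ := hf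
  obtain ⟨N, hN⟩ := hg
  refine ⟨K + M + N + 1, (Comp.branch hK hM hN).le fun p => ?_⟩
  have h1 := one_le_bd a b p.1 p.2.1
  have h2 := Nat.zero_le (M * bd a b p.1 p.2.1)
  have h3 := Nat.zero_le (N * bd a b p.1 p.2.1)
  split_ifs <;> nlinarith

/-- branching with the comparison of two computed reals -/
theorem ifLe {u v : ℕ × ℕ × α → ℝ} {f g : ℕ × ℕ × α → β} (hu : PC a b u) (hv : PC a b v)
    (hf : PC a b f) (hg : PC a b g) : PC a b (fun p => if u p ≤ v p then f p else g p) :=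
  (branch (hv.sub hu) hf hg).congr fun p => by simp only [sub_nonneg]

theorem caseL {f : ℕ × ℕ × α → List β} {g : ℕ × ℕ × α → γ}
    {h : ℕ × ℕ × (α × β × List β) → γ} (hf : PC a b f) (hg : PC a b g) (hh : PC a b h) :
    PC a b (fun p => cList (f p) (g p) (fun x t => h (p.1, p.2.1, (p.2.2, x, t)))) := by
  obtain ⟨K, hK⟩ := hf
  obtain ⟨M, hM⟩ := hg
  obtain ⟨N, hN⟩ := hh
  have h1 : Comp (fun q : (ℕ × ℕ × α) × β × List β => h (q.1.1, q.1.2.1, (q.1.2.2, q.2)))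
      (fun q => 30 + N * bd a b q.1.1 q.1.2.1) := by
    refine ((Comp.pair (Comp.fst.comp Comp.fst)
      (Comp.pair ((Comp.fst.comp Comp.snd).comp Comp.fst)
        (Comp.pair ((Comp.fst.comp Comp.snd).comp Comp.snd) Comp.snd))).comp hN).le fun q => ?_
    simp only
    omega
  have h2 := Comp.caseL (β := β) hM h1
  refine ⟨K + M + N + 40, (Comp.comp (Comp.pair Comp.id hK) h2).le fun p => ?_⟩
  have h3 := one_le_bd a b p.1 p.2.1
  have h4 := Nat.zero_le (M * bd a b p.1 p.2.1)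
  have h5 := Nat.zero_le (N * bd a b p.1 p.2.1)
  simp only
  cases f p with
  | nil =>
    simp only [cList_nil]
    nlinarith
  | cons x t =>
    simp only [cList_cons]
    nlinarith

/-- division; `x / 0 = 0` is tested for -/
theorem div {f g : ℕ × ℕ × α → ℝ} (hf : PC a b f) (hg : PC a b g) :
    PC a b (fun p => f p / g p) := by
  obtain ⟨K, hK⟩ := hf
  obtain ⟨M, hM⟩ := hg
  obtain ⟨p, hp⟩ := hK
  obtain ⟨q, hq⟩ := hM
  obtain ⟨r, hr⟩ := (zero (a := 0) (b := 0) (α := α))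
  obtain ⟨z, hz⟩ := hr
  -- test `0 ≤ - g * g`
  refine ⟨4 * K + 8 * M + 8 * r + 100, ?_⟩
  refine ⟨Prog.branch (Prog.seq (Prog.pair z (Prog.seq (Prog.pair q q) Prog.mul)) Prog.sub) z
    (Prog.seq (Prog.pair p q) Prog.div), fun x => ?_⟩
  obtain ⟨s, hs, h1⟩ := hp x
  obtain ⟨t, ht, h2⟩ := hq x
  obtain ⟨u, hu, h3⟩ := hz x
  have hB := one_le_bd a b x.1 x.2.1
  have hu' : u ≤ r := by
    have : bd 0 0 x.1 x.2.1 = 1 := by simp [bd]
    simp only [this] at hu
    simpa using hu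
  have hh : Run (Prog.seq (Prog.pair z (Prog.seq (Prog.pair q q) Prog.mul)) Prog.sub) x
      (0 - g x * g x) (u + (t + t + 1 + 1) + 1 + 1) :=
    Run.seq (Run.pair h3 (Run.seq (Run.pair h2 h2) (Run.mul _ _))) (Run.sub _ _)
  have hr1 : r ≤ r * bd a b x.1 x.2.1 := Nat.le_mul_of_pos_right r hB
  have hs' : s ≤ K * bd a b x.1 x.2.1 := hs
  have ht' : t ≤ M * bd a b x.1 x.2.1 := ht
  have hC : (4 * K + 8 * M + 8 * r + 100) * bd a b x.1 x.2.1 = 4 * (K * bd a b x.1 x.2.1)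
      + 8 * (M * bd a b x.1 x.2.1) + 8 * (r * bd a b x.1 x.2.1) + 100 * bd a b x.1 x.2.1 := by
    ring
  by_cases h0 : g x = 0
  · have h5 : f x / g x = 0 := by rw [h0]; simp
    refine ⟨(u + (t + t + 1 + 1) + 1 + 1) + u + 1, ?_, ?_⟩
    · show (u + (t + t + 1 + 1) + 1 + 1) + u + 1 ≤
        (4 * K + 8 * M + 8 * r + 100) * bd a b x.1 x.2.1
      rw [hC]
      omega
    · simp only [h5]
      exact Run.branchTrue (q := Prog.seq (Prog.pair p q) Prog.div) hh (by rw [h0]; simp) h3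
  · refine ⟨(u + (t + t + 1 + 1) + 1 + 1) + (s + t + 1 + 1) + 1, ?_, ?_⟩
    · show (u + (t + t + 1 + 1) + 1 + 1) + (s + t + 1 + 1) + 1 ≤
        (4 * K + 8 * M + 8 * r + 100) * bd a b x.1 x.2.1
      rw [hC]
      omega
    · exact Run.branchFalse hh (by
        have : 0 < g x * g x := mul_self_pos.2 h0
        linarith) (Run.seq (Run.pair h1 h2) (Run.div _ _ h0))

/-- A loop with `m` rounds, body depending on an environment; the number of rounds is the first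
component of the argument. -/
theorem loopAux {s : ℕ × ℕ × (ε × α) → α} (hs : PC a b s) :
    ∃ K : ℕ, Comp (fun p : ℕ × (ℕ × ℕ × (ε × α)) =>
        (fun x => s (p.2.1, p.2.2.1, (p.2.2.2.1, x)))^[p.1] p.2.2.2.2)
      (fun p => K * (p.1 + 1) * bd a b p.2.1 p.2.2.1) := by
  obtain ⟨K, hK⟩ := hs
  -- body on the state `(n, L, e, x)`
  have hb : Comp (fun q : ℕ × ℕ × (ε × α) => (q.1, (q.2.1, (q.2.2.1, s q))))
      (fun q => 30 + K * bd a b q.1 q.2.1) := by
    refine (Comp.pair Comp.fst (Comp.pair (Comp.snd.comp Comp.fst)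
      (Comp.pair ((Comp.snd.comp Comp.snd).comp Comp.fst) hK))).le fun q => ?_
    omega
  have hl := Comp.loop hb
  have hit : ∀ (i : ℕ) (n L : ℕ) (e : ε) (x : α),
      (fun q : ℕ × ℕ × (ε × α) => (q.1, (q.2.1, (q.2.2.1, s q))))^[i] (n, (L, (e, x)))
        = (n, (L, (e, (fun x => s (n, (L, (e, x))))^[i] x))) := by
    intro i
    induction i with
    | zero => intro n L e x; rfl
    | succ i ih =>
      intro n L e x
      rw [Function.iterate_succ_apply, Function.iterate_succ_apply]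
      exact ih n L e _
  refine ⟨K + 50, ?_⟩
  have h2 := ((hl.comp Comp.snd).comp Comp.snd).comp Comp.snd
  have h3 : (fun p : ℕ × (ℕ × ℕ × (ε × α)) =>
        (fun x => s (p.2.1, p.2.2.1, (p.2.2.2.1, x)))^[p.1] p.2.2.2.2)
      = fun p : ℕ × (ℕ × ℕ × (ε × α)) =>
        (((((fun q : ℕ × ℕ × (ε × α) => (q.1, (q.2.1, (q.2.2.1, s q))))^[p.1] p.2)).2).2).2 := by
    funext p
    obtain ⟨m, n, L, e, x⟩ := p
    simp only [hit]
  rw [h3]
  refine h2.le ?_
  rintro ⟨m, n, L, e, x⟩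
  simp only [hit]
  rw [Finset.sum_const, Finset.card_range, smul_eq_mul]
  have h1 := one_le_bd a b n L
  have h5 : m * (30 + K * bd a b n L + 1) ≤ (m + 1) * ((31 + K) * bd a b n L) := by
    apply Nat.mul_le_mul (by omega)
    nlinarith
  have h6 : 4 ≤ (m + 1) * (4 * bd a b n L) := by nlinarith
  nlinarith

/-- A loop with `n` rounds. -/
theorem loopN {s : ℕ × ℕ × (ε × α) → α} {e : ℕ × ℕ × γ → ε} {x : ℕ × ℕ × γ → α} (hs : PC a b s)
    (he : PC (a + 1) b e) (hx : PC (a + 1) b x) :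
    PC (a + 1) b (fun p : ℕ × ℕ × γ => (fun y => s (p.1, p.2.1, (e p, y)))^[p.1] (x p)) := by
  obtain ⟨K, hK⟩ := loopAux hs
  have h0 : PC (a + 1) b (fun p : ℕ × ℕ × (ε × α) =>
      (fun y => s (p.1, p.2.1, (p.2.2.1, y)))^[p.1] p.2.2.2) := by
    refine ⟨K + 3, (Comp.comp (Comp.pair Comp.fst Comp.id) hK).le ?_⟩
    rintro ⟨n, L, e, x⟩
    simp only
    have h1 := one_le_bd a b n L
    have h2 : bd (a + 1) b n L = (n + 1) * bd a b n L := by
      unfold bd; ring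
    rw [h2]
    nlinarith [Nat.zero_le (K * (n + 1) * bd a b n L)]
  exact comp (he.pair hx) h0

/-- A loop with `L` rounds. -/
theorem loopL {s : ℕ × ℕ × (ε × α) → α} {e : ℕ × ℕ × γ → ε} {x : ℕ × ℕ × γ → α} (hs : PC a b s)
    (he : PC a (b + 1) e) (hx : PC a (b + 1) x) :
    PC a (b + 1) (fun p : ℕ × ℕ × γ => (fun y => s (p.1, p.2.1, (e p, y)))^[p.2.1] (x p)) := by
  obtain ⟨K, hK⟩ := loopAux hs
  have h0 : PC a (b + 1) (fun p : ℕ × ℕ × (ε × α) =>
      (fun y => s (p.1, p.2.1, (p.2.2.1, y)))^[p.2.1] p.2.2.2) := by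
    refine ⟨K + 4, (Comp.comp (Comp.pair (Comp.snd.comp Comp.fst) Comp.id) hK).le ?_⟩
    rintro ⟨n, L, e, x⟩
    simp only
    have h1 := one_le_bd a b n L
    have h2 : bd a (b + 1) n L = (L + 1) * bd a b n L := by
      unfold bd; ring
    rw [h2]
    nlinarith [Nat.zero_le (K * (L + 1) * bd a b n L)]
  exact comp (he.pair hx) h0

end PC

end Pool.Agent.TH701
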