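import Pool.Agent.TH701.Main

set_option autoImplicit false

noncomputable section

namespace Pool.Agent.TH701

open Matrix WithLp Module

/-- The singular values `σ_1 ≥ ... ≥ σ_n` of a real `n × n` matrix are `sv A 0, ..., sv A (n-1)`. -/
def sv {n : ℕ} (A : Matrix (Fin n) (Fin n) ℝ) (i : ℕ) : ℝ :=
  (Matrix.toEuclideanLin A).singularValues i

theorem sq_norm_eq {E : Type*} [NormedAddCommGroup E] [InnerProductSpace ℝ E]
    [FiniteDimensional ℝ E] (T : E →ₗ[ℝ] E) {n : ℕ} (hn : finrank ℝ E = n) (v : E) :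
    ‖T v‖ ^ 2 = ∑ i : Fin n, T.singularValues i ^ 2 *
      (T.isSymmetric_adjoint_comp_self.eigenvectorBasis hn).repr v i ^ 2 := by
  set hS := T.isSymmetric_adjoint_comp_self with hSdef
  set b := hS.eigenvectorBasis hn with hb
  have h1 : ‖T v‖ ^ 2 = inner ℝ (LinearMap.adjoint T (T v)) v := by
    rw [LinearMap.adjoint_inner_left, real_inner_self_eq_norm_sq]
  have h2 : inner ℝ (LinearMap.adjoint T (T v)) v
      = inner ℝ (b.repr (LinearMap.adjoint T (T v))) (b.repr v) := by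
    rw [LinearIsometryEquiv.inner_map_map]
  rw [h1, h2, PiLp.inner_apply]
  apply Finset.sum_congr rfl
  intro i _
  have h3 : b.repr (LinearMap.adjoint T (T v)) i = hS.eigenvalues hn i * b.repr v i :=
    hS.eigenvectorBasis_apply_self_apply hn v i
  rw [h3, ← T.sq_singularValues_fin hn i]
  simp
  ring

theorem sum_repr_sq {E : Type*} [NormedAddCommGroup E] [InnerProductSpace ℝ E]
    [FiniteDimensional ℝ E] {n : ℕ} (b : OrthonormalBasis (Fin n) ℝ E) (v : E) :
    ∑ i, b.repr v i ^ 2 = ‖v‖ ^ 2 := by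
  rw [← b.repr.norm_map v, EuclideanSpace.norm_sq_eq]
  simp

theorem sv_lower {n : ℕ} (hn : 1 ≤ n) (A : Matrix (Fin n) (Fin n) ℝ) (v : Fin n → ℝ) :
    sv A (n - 1) * nrm v ≤ nrm (A *ᵥ v) := by
  have hfr : finrank ℝ (EuclideanSpace ℝ (Fin n)) = n := by simp
  set T := Matrix.toEuclideanLin A with hT
  have h1 := sq_norm_eq T hfr (toLp 2 v)
  have h2 : T (toLp 2 v) = toLp 2 (A *ᵥ v) := rfl
  rw [h2] at h1
  have h3 : sv A (n - 1) ^ 2 * nrm v ^ 2 ≤ nrm (A *ᵥ v) ^ 2 := by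
    have h4 : nrm v ^ 2 = ∑ i : Fin n,
      (T.isSymmetric_adjoint_comp_self.eigenvectorBasis hfr).repr (toLp 2 v) i ^ 2 :=
      (sum_repr_sq _ _).symm
    rw [h4, Finset.mul_sum]
    unfold nrm
    rw [h1]
    apply Finset.sum_le_sum
    intro i _
    apply mul_le_mul_of_nonneg_right _ (sq_nonneg _)
    apply pow_le_pow_left₀ (T.singularValues_nonneg _)
    apply T.singularValues_antitone
    omega
  rw [← mul_pow] at h3
  exact le_of_sq_le_sq h3 (nrm_nonneg _)

theorem sv_upper {n : ℕ} (A : Matrix (Fin n) (Fin n) ℝ) (v : Fin n → ℝ) :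
    nrm (A *ᵥ v) ≤ sv A 0 * nrm v := by
  have hfr : finrank ℝ (EuclideanSpace ℝ (Fin n)) = n := by simp
  set T := Matrix.toEuclideanLin A with hT
  have h1 := sq_norm_eq T hfr (toLp 2 v)
  have h2 : T (toLp 2 v) = toLp 2 (A *ᵥ v) := rfl
  rw [h2] at h1
  have h3 : nrm (A *ᵥ v) ^ 2 ≤ sv A 0 ^ 2 * nrm v ^ 2 := by
    have h4 : nrm v ^ 2 = ∑ i : Fin n,
      (T.isSymmetric_adjoint_comp_self.eigenvectorBasis hfr).repr (toLp 2 v) i ^ 2 :=
      (sum_repr_sq _ _).symm
    rw [h4, Finset.mul_sum]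
    unfold nrm
    rw [h1]
    apply Finset.sum_le_sum
    intro i _
    apply mul_le_mul_of_nonneg_right _ (sq_nonneg _)
    apply pow_le_pow_left₀ (T.singularValues_nonneg _)
    apply T.singularValues_antitone
    omega
  rw [← mul_pow] at h3
  exact le_of_sq_le_sq h3 (mul_nonneg (T.singularValues_nonneg _) (nrm_nonneg _))

theorem sv_pos {n : ℕ} (hn : 1 ≤ n) (A : Matrix (Fin n) (Fin n) ℝ) (hA : IsUnit A) :
    0 < sv A (n - 1) := by
  have hfr : finrank ℝ (EuclideanSpace ℝ (Fin n)) = n := by simp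
  have hinj : Function.Injective (Matrix.toEuclideanLin A) := by
    intro u v huv
    have h1 : A *ᵥ (ofLp u) = A *ᵥ (ofLp v) := congrArg ofLp huv
    have h2 := Matrix.mulVec_injective_iff_isUnit.2 hA h1
    exact congrArg (toLp 2) h2
  exact ((Matrix.toEuclideanLin A).injective_iff_forall_lt_finrank_singularValues_pos.1 hinj)
    (n - 1) (by rw [hfr]; omega)

theorem sv_antitone {n : ℕ} (A : Matrix (Fin n) (Fin n) ℝ) : Antitone (sv A) :=
  (Matrix.toEuclideanLin A).singularValues_antitone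

theorem sum_abs_le {n : ℕ} (A : Matrix (Fin n) (Fin n) ℝ) :
    ∑ i, ∑ j, |A i j| ≤ (n : ℝ) ^ 2 * sv A 0 := by
  have h1 : ∀ i j, |A i j| ≤ sv A 0 := by
    intro i j
    have h2 := sv_upper A (Pi.single j 1)
    have h3 : nrm (Pi.single j (1 : ℝ)) = 1 := by
      unfold nrm
      have : (toLp 2 (Pi.single j (1 : ℝ)) : EuclideanSpace ℝ (Fin n))
        = EuclideanSpace.single j (1 : ℝ) := rfl
      rw [this]
      simp
    rw [h3, mul_one] at h2
    have h4 := abs_apply_le_nrm (A *ᵥ Pi.single j 1) i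
    simp only [Matrix.mulVec_single_one] at h2 h4
    exact h4.trans h2
  calc ∑ i, ∑ j, |A i j| ≤ ∑ _i : Fin n, ∑ _j : Fin n, sv A 0 :=
        Finset.sum_le_sum fun i _ => Finset.sum_le_sum fun j _ => h1 i j
    _ = (n : ℝ) ^ 2 * sv A 0 := by simp [sq, mul_assoc]

end Pool.Agent.TH701
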