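import Pool.Agent.TH701.Alg

set_option autoImplicit false

noncomputable section

namespace Pool.Agent.TH701

/-! ### integer part -/

theorem floStep4_iter (L : ℕ) : floStep4^[L] = floStep^[4 * L] := by
  rw [Function.iterate_mul]
  rfl

theorem flo_eq (L : ℕ) (B z : ℝ) : flo L B z = (floStep^[4 * L + 5] (z + B, 0 - B, B)).2.1 := by
  unfold flo
  rw [floStep4_iter, show 4 * L + 5 = 5 + 4 * L by ring, Function.iterate_add_apply]
  rfl

theorem floStep_inv (T : ℕ) (z : ℝ) (j : ℕ) :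
    (floStep^[j] (z + 2 ^ T, 0 - 2 ^ T, 2 ^ T)).2.2 = 2 ^ T / 2 ^ j ∧
    (floStep^[j] (z + 2 ^ T, 0 - 2 ^ T, 2 ^ T)).1 + (floStep^[j] (z + 2 ^ T, 0 - 2 ^ T, 2 ^ T)).2.1
      = z ∧
    (j ≤ T + 1 → ∃ m : ℤ, (floStep^[j] (z + 2 ^ T, 0 - 2 ^ T, 2 ^ T)).2.1 = m) ∧
    (|z| ≤ 2 ^ T - 1 / 2 → 0 ≤ (floStep^[j] (z + 2 ^ T, 0 - 2 ^ T, 2 ^ T)).1 ∧
      (floStep^[j] (z + 2 ^ T, 0 - 2 ^ T, 2 ^ T)).1 < 2 * (2 ^ T / 2 ^ j)) := by
  induction j with
  | zero =>
    refine ⟨by simp, by simp, fun _ => ⟨-(2 ^ T), by push_cast; simp⟩, fun h => ?_⟩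
    have := abs_le.1 h
    show 0 ≤ z + 2 ^ T ∧ z + 2 ^ T < 2 * (2 ^ T / 2 ^ 0)
    rw [pow_zero, div_one]
    constructor <;> linarith
  | succ j ih =>
    obtain ⟨h1, h2, h3, h4⟩ := ih
    rw [Function.iterate_succ_apply']
    set s := floStep^[j] (z + 2 ^ T, 0 - 2 ^ T, 2 ^ T) with hs
    have hp : (2 : ℝ) ^ T / 2 ^ j / 2 = 2 ^ T / 2 ^ (j + 1) := by
      rw [pow_succ]; field_simp
    unfold floStep
    split_ifs with h0
    · refine ⟨by simp only; rw [h1, hp], by simp only; linarith, fun hj => ?_, fun hz => ?_⟩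
      · obtain ⟨m, hm⟩ := h3 (by omega)
        refine ⟨m + 2 ^ (T - j), ?_⟩
        simp only
        rw [hm, h1]
        push_cast
        congr 1
        rw [div_eq_iff (by positivity), ← pow_add]
        congr 1
        omega
      · obtain ⟨h5, h6⟩ := h4 hz
        simp only
        rw [h1] at h0 ⊢
        refine ⟨h0, ?_⟩
        rw [← hp]
        linarith
    · refine ⟨by simp only; rw [h1, hp], by simp only; linarith, fun hj => ?_, fun hz => ?_⟩
      · obtain ⟨m, hm⟩ := h3 (by omega)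
        exact ⟨m, hm⟩
      · obtain ⟨h5, h6⟩ := h4 hz
        simp only
        rw [h1] at h0
        refine ⟨h5, ?_⟩
        rw [← hp]
        linarith

/-- the result of `flo` is always an integer -/
theorem flo_int (L : ℕ) (z : ℝ) : ∃ m : ℤ, flo L (2 ^ (4 * L + 4)) z = m := by
  rw [flo_eq]
  exact (floStep_inv (4 * L + 4) z (4 * L + 5)).2.2.1 (by omega)

theorem flo_floor (L : ℕ) (z : ℝ) (hz : |z| ≤ 2 ^ (4 * L + 4) - 1 / 2) :
    flo L (2 ^ (4 * L + 4)) z = ⌊z⌋ := by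
  rw [flo_eq]
  obtain ⟨h1, h2, h3, h4⟩ := floStep_inv (4 * L + 4) z (4 * L + 5)
  obtain ⟨m, hm⟩ := h3 (by omega)
  obtain ⟨h5, h6⟩ := h4 hz
  rw [hm]
  congr 1
  symm
  rw [Int.floor_eq_iff]
  rw [hm] at h2
  have h7 : 2 * ((2 : ℝ) ^ (4 * L + 4) / 2 ^ (4 * L + 5)) = 1 := by
    rw [pow_succ _ (4 * L + 4)]; field_simp
  rw [h7] at h6
  constructor <;> linarith

/-! ### encodings -/

/-- a vector as a list -/
def encV {n : ℕ} (v : Fin n → ℝ) : List ℝ := List.ofFn v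

/-- a matrix as the list of its rows -/
def encM {n : ℕ} (A : Matrix (Fin n) (Fin n) ℝ) : List (List ℝ) :=
  List.ofFn fun i => List.ofFn fun j => A i j

/-- an integer matrix as a real matrix -/
def toR {n : ℕ} (Z : Matrix (Fin n) (Fin n) ℤ) : Matrix (Fin n) (Fin n) ℝ :=
  Matrix.of fun i j => (Z i j : ℝ)

@[simp] theorem toR_apply {n : ℕ} (Z : Matrix (Fin n) (Fin n) ℤ) (i j : Fin n) :
    toR Z i j = (Z i j : ℝ) := rfl

@[simp] theorem length_encM {n : ℕ} (A : Matrix (Fin n) (Fin n) ℝ) : (encM A).length = n := by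
  simp [encM]

theorem zipWith_ofFn {β γ δ : Type} {n : ℕ} (f : β → γ → δ) (u : Fin n → β) (v : Fin n → γ) :
    List.zipWith f (List.ofFn u) (List.ofFn v) = List.ofFn fun i => f (u i) (v i) := by
  induction n with
  | zero => simp
  | succ n ih =>
    simp only [List.ofFn_succ, List.zipWith_cons_cons]
    rw [ih]

theorem mapN_ofFn {β γ : Type} {n : ℕ} (f : β → γ) (u : Fin n → β) :
    mapN n f (List.ofFn u) = List.ofFn fun i => f (u i) := by
  rw [mapN_eq _ _ _ (by simp), List.map_ofFn]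
  rfl

theorem zipN_ofFn {β γ δ : Type} {n : ℕ} (f : β → γ → δ) (u : Fin n → β) (v : Fin n → γ) :
    zipN n f (List.ofFn u) (List.ofFn v) = List.ofFn fun i => f (u i) (v i) := by
  rw [zipN_eq _ _ _ _ (by simp), zipWith_ofFn]

theorem dotN_ofFn {n : ℕ} (u v : Fin n → ℝ) :
    dotN n (List.ofFn u) (List.ofFn v) = ∑ i, u i * v i := by
  rw [dotN_eq _ _ _ (by simp), zipWith_ofFn, List.sum_ofFn]

/-- value of a list of digits -/
def ev (B : ℝ) : List ℝ → ℝ
  | [] => 0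
  | x :: t => x + B * ev B t

theorem foldl_pack (B : ℝ) (l : List ℝ) (s w : ℝ) :
    (l.foldl (fun (q : ℝ × ℝ) x => (q.1 + x * q.2, q.2 * B)) (s, w)).1 = s + w * ev B l := by
  induction l generalizing s w with
  | nil => simp [ev]
  | cons x t ih =>
    simp only [List.foldl_cons]
    rw [ih, ev]
    ring

theorem ev_ofFn {n : ℕ} (B : ℝ) (r : Fin n → ℝ) :
    ev B (List.ofFn r) = ∑ j : Fin n, r j * B ^ (j : ℕ) := by
  induction n with
  | zero => simp [ev]
  | succ n ih =>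
    rw [List.ofFn_succ, ev, ih, Fin.sum_univ_succ, Finset.mul_sum]
    simp only [Fin.val_zero, pow_zero, mul_one, Fin.val_succ]
    congr 1
    apply Finset.sum_congr rfl
    intro j _
    rw [pow_succ]
    ring

theorem pack_ofFn {n : ℕ} (B : ℝ) (r : Fin n → ℝ) :
    pack n B (List.ofFn r) = ∑ j : Fin n, r j * B ^ (j : ℕ) := by
  rw [pack, foldN_eq _ _ _ _ (by simp), foldl_pack, ev_ofFn]
  ring

theorem powN_eq (n : ℕ) (B : ℝ) : powN n B = B ^ n := by
  unfold powN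
  induction n with
  | zero => simp
  | succ n ih => rw [Function.iterate_succ_apply', ih, pow_succ]

theorem unBody_int (L n : ℕ) (w y : ℝ) (acc : List ℝ) :
    ∃ f : Fin n → ℤ, ((unBody L (2 ^ (4 * L + 4)))^[n] (y, w, acc)).2.2
      = (List.ofFn fun i => (f i : ℝ)) ++ acc := by
  induction n generalizing w y acc with
  | zero => exact ⟨fun i => i.elim0, by simp⟩
  | succ n ih =>
    rw [Function.iterate_succ_apply]
    obtain ⟨m, hm⟩ := flo_int L (y / w + 1 / 2)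
    obtain ⟨f, hf⟩ := ih (w / 2 ^ (4 * L + 4)) (y - flo L (2 ^ (4 * L + 4)) (y / w + 1 / 2) * w)
      (flo L (2 ^ (4 * L + 4)) (y / w + 1 / 2) :: acc)
    refine ⟨Fin.snoc f m, ?_⟩
    rw [unBody]
    simp only
    rw [hf, hm, List.ofFn_succ']
    simp [List.concat_eq_append]

theorem unpack_int (n L : ℕ) (w y : ℝ) :
    ∃ f : Fin n → ℤ, unpack n L (2 ^ (4 * L + 4)) w y = List.ofFn fun i => (f i : ℝ) := by
  obtain ⟨f, hf⟩ := unBody_int L n w y []
  exact ⟨f, by rw [unpack, hf, List.append_nil]⟩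

theorem digits_bound {n : ℕ} {B : ℝ} (hB : 1 < B) (c : Fin n → ℤ)
    (hc : ∀ i, |(c i : ℝ)| ≤ (B - 1) / 2) :
    |∑ j : Fin n, (c j : ℝ) * B ^ (j : ℕ)| ≤ (B ^ n - 1) / 2 := by
  induction n with
  | zero => simp
  | succ n ih =>
    rw [Fin.sum_univ_castSucc]
    have h1 := ih (fun i => c i.castSucc) (fun i => hc _)
    have h2 := hc (Fin.last n)
    simp only [Fin.val_castSucc, Fin.val_last] at *
    calc |∑ j : Fin n, (c j.castSucc : ℝ) * B ^ (j : ℕ) + (c (Fin.last n) : ℝ) * B ^ n|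
        ≤ |∑ j : Fin n, (c j.castSucc : ℝ) * B ^ (j : ℕ)| + |(c (Fin.last n) : ℝ) * B ^ n| :=
          abs_add_le _ _
      _ ≤ (B ^ n - 1) / 2 + (B - 1) / 2 * B ^ n := by
          refine add_le_add h1 ?_
          rw [abs_mul, abs_of_pos (show (0 : ℝ) < B ^ n by positivity)]
          gcongr
      _ = (B ^ (n + 1) - 1) / 2 := by rw [pow_succ]; ring

theorem unBody_spec (L n : ℕ) (c : Fin n → ℤ) (acc : List ℝ)
    (hc : ∀ i, |(c i : ℝ)| ≤ ((2 : ℝ) ^ (4 * L + 4) - 1) / 2) :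
    ((unBody L (2 ^ (4 * L + 4)))^[n]
      (∑ j : Fin n, (c j : ℝ) * ((2 : ℝ) ^ (4 * L + 4)) ^ (j : ℕ),
        ((2 : ℝ) ^ (4 * L + 4)) ^ n / 2 ^ (4 * L + 4), acc)).2.2
      = (List.ofFn fun i => (c i : ℝ)) ++ acc := by
  have hB : (1 : ℝ) < 2 ^ (4 * L + 4) := by
    apply one_lt_pow₀ (by norm_num) (by omega)
  set B : ℝ := (2 : ℝ) ^ (4 * L + 4) with hBdef
  induction n generalizing acc with
  | zero => simp
  | succ n ih =>
    rw [Function.iterate_succ_apply, Fin.sum_univ_castSucc]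
    simp only [Fin.val_castSucc, Fin.val_last]
    have hw : B ^ (n + 1) / B = B ^ n := by
      rw [pow_succ]; field_simp
    have hBn : (0 : ℝ) < B ^ n := by positivity
    set S := ∑ j : Fin n, (c j.castSucc : ℝ) * B ^ (j : ℕ) with hS
    have hSb : |S| ≤ (B ^ n - 1) / 2 := digits_bound hB (fun i => c i.castSucc) (fun i => hc _)
    have hq : (S + (c (Fin.last n) : ℝ) * B ^ n) / B ^ n = c (Fin.last n) + S / B ^ n := by
      field_simp
      ring
    have hSq : |S / B ^ n| < 1 / 2 := by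
      rw [abs_div, abs_of_pos hBn, div_lt_iff₀ hBn]
      linarith
    have h2 := abs_lt.1 hSq
    have hfl : flo L B ((S + (c (Fin.last n) : ℝ) * B ^ n) / B ^ n + 1 / 2)
        = (c (Fin.last n) : ℝ) := by
      rw [hq, hBdef, flo_floor]
      · rw [← hBdef]
        congr 1
        rw [Int.floor_eq_iff]
        constructor <;> linarith
      · rw [← hBdef]
        have h3 := hc (Fin.last n)
        have h4 := abs_le.1 h3
        have h16 : (16 : ℝ) ≤ B := by
          rw [hBdef]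
          calc (16 : ℝ) = 2 ^ 4 := by norm_num
            _ ≤ 2 ^ (4 * L + 4) := pow_le_pow_right₀ (by norm_num) (by omega)
        rw [abs_le]
        constructor <;> linarith
    have hstep : unBody L B (S + (c (Fin.last n) : ℝ) * B ^ n, B ^ (n + 1) / B, acc)
        = (S, B ^ n / B, (c (Fin.last n) : ℝ) :: acc) := by
      rw [unBody]
      simp only
      rw [hw, hfl]
      congr 1
      ring
    rw [hstep, ih (fun i => c i.castSucc) _ (fun i => hc _), List.ofFn_succ']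
    simp [List.concat_eq_append]

theorem unpack_spec (L n : ℕ) (c : Fin n → ℤ)
    (hc : ∀ i, |(c i : ℝ)| ≤ ((2 : ℝ) ^ (4 * L + 4) - 1) / 2) :
    unpack n L (2 ^ (4 * L + 4)) (((2 : ℝ) ^ (4 * L + 4)) ^ n / 2 ^ (4 * L + 4))
      (∑ j : Fin n, (c j : ℝ) * ((2 : ℝ) ^ (4 * L + 4)) ^ (j : ℕ))
      = List.ofFn fun i => (c i : ℝ) := by
  rw [unpack, unBody_spec L n c [] hc, List.append_nil]

/-! ### the product -/

theorem mulI_int (n L : ℕ) (P : Matrix (Fin n) (Fin n) ℝ) (Q : List (List ℝ)) :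
    ∃ r : Matrix (Fin n) (Fin n) ℤ, mulI n L (2 ^ (4 * L + 4)) (encM P) Q = encM (toR r) := by
  unfold mulI encM
  rw [mapN_ofFn]
  choose f hf using fun i : Fin n => unpack_int n L (powN n (2 ^ (4 * L + 4)) / 2 ^ (4 * L + 4))
    (dotN n (List.ofFn fun j => P i j) (mapN n (fun r => pack n (2 ^ (4 * L + 4)) r) Q))
  refine ⟨Matrix.of f, ?_⟩
  congr 1
  funext i
  rw [hf i]
  rfl

theorem mulI_spec (n L : ℕ) (p q : Matrix (Fin n) (Fin n) ℤ)
    (h : ∀ i j, |((p * q) i j : ℝ)| ≤ ((2 : ℝ) ^ (4 * L + 4) - 1) / 2) :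
    mulI n L (2 ^ (4 * L + 4)) (encM (toR p)) (encM (toR q)) = encM (toR (p * q)) := by
  unfold mulI encM
  rw [mapN_ofFn, mapN_ofFn, powN_eq]
  congr 1
  funext i
  have h1 : dotN n (List.ofFn fun j => toR p i j)
      (List.ofFn fun k => pack n (2 ^ (4 * L + 4)) (List.ofFn fun j => toR q k j))
      = ∑ j : Fin n, (((p * q) i j : ℤ) : ℝ) * ((2 : ℝ) ^ (4 * L + 4)) ^ (j : ℕ) := by
    rw [dotN_ofFn]
    simp only [pack_ofFn, toR_apply, Matrix.mul_apply]
    push_cast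
    simp only [Finset.mul_sum, Finset.sum_mul]
    rw [Finset.sum_comm]
    apply Finset.sum_congr rfl
    intro j _
    apply Finset.sum_congr rfl
    intro k _
    ring
  rw [h1, unpack_spec L n _ (fun j => h i j)]
  rfl

end Pool.Agent.TH701
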