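import Pool.Agent.TH701.Sem1

set_option autoImplicit false

noncomputable section

namespace Pool.Agent.TH701

theorem zipNN {n : ℕ} (f : ℝ → ℝ → ℝ) (P Q : Matrix (Fin n) (Fin n) ℝ) :
    zipN n (fun u v => zipN n f u v) (encM P) (encM Q)
      = encM (Matrix.of fun i j => f (P i j) (Q i j)) := by
  unfold encM
  rw [zipN_ofFn]
  congr 1
  funext i
  rw [zipN_ofFn]
  rfl

/-! ### Newton step -/

theorem newt_int (n L : ℕ) (U : ℝ) (A X : Matrix (Fin n) (Fin n) ℤ) :
    ∃ r : Matrix (Fin n) (Fin n) ℤ,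
      newt n L U (2 ^ (4 * L + 4)) (encM (toR A)) (encM (toR X)) = encM (toR r) := by
  obtain ⟨p, hp⟩ := mulI_int n L (toR X) (encM (toR A))
  obtain ⟨q, hq⟩ := mulI_int n L (toR p) (encM (toR X))
  unfold newt
  rw [hp, hq, zipNN]
  choose g hg using fun (i j : Fin n) => flo_int L (toR X i j + toR X i j - toR q i j / (U * U))
  refine ⟨Matrix.of g, ?_⟩
  congr 1
  ext i j
  simp only [Matrix.of_apply, toR_apply] at hg ⊢
  exact hg i j

theorem newt_spec (n L : ℕ) (U : ℝ) (A X : Matrix (Fin n) (Fin n) ℤ)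
    (h1 : ∀ i j, |((X * A) i j : ℝ)| ≤ ((2 : ℝ) ^ (4 * L + 4) - 1) / 2)
    (h2 : ∀ i j, |((X * A * X) i j : ℝ)| ≤ ((2 : ℝ) ^ (4 * L + 4) - 1) / 2)
    (h3 : ∀ i j, |(X i j : ℝ) + X i j - ((X * A * X) i j : ℝ) / (U * U)|
      ≤ (2 : ℝ) ^ (4 * L + 4) - 1 / 2) :
    newt n L U (2 ^ (4 * L + 4)) (encM (toR A)) (encM (toR X))
      = encM (toR (Matrix.of fun i j =>
          ⌊(X i j : ℝ) + X i j - ((X * A * X) i j : ℝ) / (U * U)⌋)) := by
  unfold newt
  rw [mulI_spec n L X A h1, mulI_spec n L (X * A) X h2, zipNN]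
  congr 1
  ext i j
  simp only [Matrix.of_apply, toR_apply]
  exact flo_floor L _ (h3 i j)

theorem newt5_int (n L : ℕ) (U : ℝ) (A X : Matrix (Fin n) (Fin n) ℤ) :
    ∃ r : Matrix (Fin n) (Fin n) ℤ,
      newt5 n L U (2 ^ (4 * L + 4)) (encM (toR A)) (encM (toR X)) = encM (toR r) := by
  unfold newt5
  obtain ⟨r1, h1⟩ := newt_int n L U A X
  obtain ⟨r2, h2⟩ := newt_int n L U A r1
  obtain ⟨r3, h3⟩ := newt_int n L U A r2
  obtain ⟨r4, h4⟩ := newt_int n L U A r3
  obtain ⟨r5, h5⟩ := newt_int n L U A r4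
  exact ⟨r5, by rw [h1, h2, h3, h4, h5]⟩

/-! ### transpose -/

theorem tl_ofFn {n : ℕ} (f : Fin (n + 1) → ℝ) : tl (List.ofFn f) = List.ofFn fun i => f i.succ := by
  rw [List.ofFn_succ]
  rfl

theorem trAux (n k : ℕ) (hk : k ≤ n) (A : Fin n → ℕ → ℝ) (acc : List (List ℝ)) (m : ℕ) :
    ((fun q : List (List ℝ) × List (List ℝ) => (mapN n tl q.1, mapN n hd q.1 :: q.2))^[k]
      (List.ofFn (fun i : Fin n => List.ofFn fun j : Fin k => A i (m + j)), acc)).2
      = (List.ofFn fun j : Fin k => List.ofFn fun i : Fin n => A i (m + j)).reverse ++ acc := by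
  induction k generalizing m acc with
  | zero => simp
  | succ k ih =>
    rw [Function.iterate_succ_apply]
    simp only
    rw [mapN_ofFn, mapN_ofFn]
    have h1 : (fun i : Fin n => tl (List.ofFn fun j : Fin (k + 1) => A i (m + j)))
        = fun i : Fin n => List.ofFn fun j : Fin k => A i ((m + 1) + j) := by
      funext i
      rw [tl_ofFn]
      congr 1
      funext j
      simp only [Fin.val_succ]
      congr 1
      ring
    have h2 : (fun i : Fin n => hd (List.ofFn fun j : Fin (k + 1) => A i (m + j)))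
        = fun i : Fin n => A i m := by
      funext i
      rw [List.ofFn_succ]
      simp [hd]
    rw [h1, h2, ih (by omega)]
    rw [List.ofFn_succ (n := k)]
    simp only [List.reverse_cons, List.append_assoc, List.singleton_append, Fin.val_zero,
      Fin.val_succ, add_zero]
    congr 2
    congr 1
    funext j
    congr 1
    funext i
    congr 1
    ring

theorem trN_spec {n : ℕ} (A : Matrix (Fin n) (Fin n) ℝ) : trN n (encM A) = encM A.transpose := by
  unfold trN encM
  have h1 := trAux n n le_rfl (fun i j => if h : j < n then A i ⟨j, h⟩ else 0) [] 0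
  simp only [zero_add, Fin.is_lt, dite_true, Fin.eta, List.append_nil] at h1
  rw [h1, revN_eq _ _ (by simp), List.reverse_reverse]
  rfl

/-! ### maximum and sum -/

theorem maxB_le (s x c : ℝ) : maxB s x ≤ c ↔ s ≤ c ∧ |x| ≤ c := by
  unfold maxB
  rw [abs_le]
  split_ifs with h1 h2 h2
  all_goals
    constructor
    · intro h
      refine ⟨?_, ?_, ?_⟩ <;> linarith
    · rintro ⟨h, h', h''⟩
      linarith

theorem foldl_maxB_le (l : List ℝ) (s c : ℝ) :
    l.foldl (fun t x => maxB t x) s ≤ c ↔ s ≤ c ∧ ∀ x ∈ l, |x| ≤ c := by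
  induction l generalizing s with
  | nil => simp
  | cons x t ih =>
    simp only [List.foldl_cons, List.mem_cons, forall_eq_or_imp]
    rw [ih, maxB_le]
    tauto

theorem foldl_max2_le {n : ℕ} (l : List (List ℝ)) (hl : ∀ r ∈ l, r.length ≤ n) (s c : ℝ) :
    l.foldl (fun s row => foldN n (fun t x => maxB t x) s row) s ≤ c ↔
      s ≤ c ∧ ∀ r ∈ l, ∀ x ∈ r, |x| ≤ c := by
  induction l generalizing s with
  | nil => simp
  | cons r t ih =>
    simp only [List.foldl_cons, List.mem_cons, forall_eq_or_imp]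
    rw [ih (fun r hr => hl r (List.mem_cons_of_mem _ hr)),
      foldN_eq _ _ _ _ (hl r List.mem_cons_self), foldl_maxB_le]
    tauto

theorem maxN_le {n : ℕ} (A : Matrix (Fin n) (Fin n) ℝ) (c : ℝ) :
    maxN n (encM A) ≤ c ↔ 0 ≤ c ∧ ∀ i j, |A i j| ≤ c := by
  unfold maxN
  rw [foldN_eq _ _ _ _ (by simp), foldl_max2_le]
  · simp only [encM, List.mem_ofFn, forall_exists_index, forall_apply_eq_imp_iff]
  · simp only [encM, List.mem_ofFn, forall_exists_index, forall_apply_eq_imp_iff, List.length_ofFn,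
      le_refl, implies_true]

theorem addB_eq (s x : ℝ) : addB s x = s + |x| := by
  unfold addB
  split_ifs with h
  · rw [abs_of_nonneg h]
  · rw [abs_of_neg (not_le.1 h)]; ring

theorem foldl_addB (l : List ℝ) (s : ℝ) :
    l.foldl (fun t x => addB t x) s = s + (l.map fun x => |x|).sum := by
  induction l generalizing s with
  | nil => simp
  | cons x t ih =>
    simp only [List.foldl_cons, List.map_cons, List.sum_cons]
    rw [ih, addB_eq]
    ring

theorem foldl_add2 {n : ℕ} (l : List (List ℝ)) (hl : ∀ r ∈ l, r.length ≤ n) (s : ℝ) :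
    l.foldl (fun s row => foldN n (fun t x => addB t x) s row) s
      = s + (l.map fun r => (r.map fun x => |x|).sum).sum := by
  induction l generalizing s with
  | nil => simp
  | cons r t ih =>
    simp only [List.foldl_cons, List.map_cons, List.sum_cons]
    rw [ih (fun r hr => hl r (List.mem_cons_of_mem _ hr)),
      foldN_eq _ _ _ _ (hl r List.mem_cons_self), foldl_addB]
    ring

theorem sumN_spec {n : ℕ} (A : Matrix (Fin n) (Fin n) ℝ) :
    sumN n (encM A) = ∑ i, ∑ j, |A i j| := by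
  unfold sumN
  rw [foldN_eq _ _ _ _ (by simp), foldl_add2]
  · simp only [encM, List.map_ofFn, List.sum_ofFn, Function.comp_def, zero_add]
  · simp only [encM, List.mem_ofFn, forall_exists_index, forall_apply_eq_imp_iff, List.length_ofFn,
      le_refl, implies_true]

/-! ### the identity matrix -/

theorem natR_eq (n : ℕ) : natR n = n := by
  unfold natR
  induction n with
  | zero => simp
  | succ n ih => rw [Function.iterate_succ_apply', ih]; push_cast; ring

theorem idxAux (k : ℕ) (acc : List ℝ) :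
    ((fun q : ℝ × List ℝ => (q.1 - 1, (q.1 - 1) :: q.2))^[k] ((k : ℝ), acc)).2
      = (List.ofFn fun i : Fin k => ((i : ℕ) : ℝ)) ++ acc := by
  induction k generalizing acc with
  | zero => simp
  | succ k ih =>
    rw [Function.iterate_succ_apply]
    simp only
    have h : ((k + 1 : ℕ) : ℝ) - 1 = (k : ℝ) := by push_cast; ring
    rw [h, ih, List.ofFn_succ']
    simp [List.concat_eq_append]

theorem idxN_spec (n : ℕ) : idxN n = List.ofFn fun i : Fin n => ((i : ℕ) : ℝ) := by
  unfold idxN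
  rw [natR_eq, idxAux, List.append_nil]

theorem eyeN_spec (n : ℕ) : eyeN n = encM (1 : Matrix (Fin n) (Fin n) ℝ) := by
  unfold eyeN encM
  rw [idxN_spec, mapN_ofFn]
  congr 1
  funext i
  rw [mapN_ofFn]
  congr 1
  funext j
  rw [Matrix.one_apply]
  by_cases h : i = j
  · subst h; simp
  · rw [if_neg h]
    have h' : (i : ℕ) ≠ j := fun h2 => h (Fin.ext h2)
    rcases Nat.lt_or_gt_of_ne h' with h2 | h2
    · rw [if_pos (by exact_mod_cast h2.le), if_neg (by push Not; exact_mod_cast h2)]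
    · rw [if_neg (by push Not; exact_mod_cast h2)]

/-! ### rounding -/

theorem roundA_int (n L : ℕ) (U s : ℝ) (A : Matrix (Fin n) (Fin n) ℝ) :
    ∃ r : Matrix (Fin n) (Fin n) ℤ,
      roundA n L U (2 ^ (4 * L + 4)) s (encM A) = encM (toR r) := by
  unfold roundA encM
  rw [mapN_ofFn]
  choose g hg using fun (i j : Fin n) => flo_int L (U * A i j / s)
  refine ⟨Matrix.of g, ?_⟩
  congr 1
  funext i
  rw [mapN_ofFn]
  congr 1
  funext j
  exact hg i j

theorem roundA_spec (n L : ℕ) (U s : ℝ) (A : Matrix (Fin n) (Fin n) ℝ)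
    (h : ∀ i j, |U * A i j / s| ≤ (2 : ℝ) ^ (4 * L + 4) - 1 / 2) :
    roundA n L U (2 ^ (4 * L + 4)) s (encM A)
      = encM (toR (Matrix.of fun i j => ⌊U * A i j / s⌋)) := by
  unfold roundA encM
  rw [mapN_ofFn]
  congr 1
  funext i
  rw [mapN_ofFn]
  congr 1
  funext j
  exact flo_floor L _ (h i j)

/-! ### the approximate inverse and the residual -/

theorem newt5_iter_int (n L : ℕ) (U : ℝ) (A X : Matrix (Fin n) (Fin n) ℤ) (k : ℕ) :
    ∃ r : Matrix (Fin n) (Fin n) ℤ,
      (newt5 n L U (2 ^ (4 * L + 4)) (encM (toR A)))^[k] (encM (toR X)) = encM (toR r) := by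
  induction k generalizing X with
  | zero => exact ⟨X, rfl⟩
  | succ k ih =>
    obtain ⟨r, hr⟩ := newt5_int n L U A X
    obtain ⟨r', hr'⟩ := ih r
    exact ⟨r', by rw [Function.iterate_succ_apply, hr, hr']⟩

theorem inv_int (n L : ℕ) (U : ℝ) (A : Matrix (Fin n) (Fin n) ℤ) :
    ∃ r : Matrix (Fin n) (Fin n) ℤ, inv n L U (2 ^ (4 * L + 4)) (encM (toR A)) = encM (toR r) := by
  unfold inv
  rw [trN_spec]
  exact newt5_iter_int n L U A A.transpose L

/-- iteration of the Newton map on integer matrices, as long as no overflow occurs -/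
theorem newt_iter_spec (n L : ℕ) (U : ℝ) (A : Matrix (Fin n) (Fin n) ℤ)
    (X : ℕ → Matrix (Fin n) (Fin n) ℤ) (K : ℕ)
    (hX : ∀ k < K, newt n L U (2 ^ (4 * L + 4)) (encM (toR A)) (encM (toR (X k)))
      = encM (toR (X (k + 1)))) (k : ℕ) (hk : k ≤ K) :
    (newt n L U (2 ^ (4 * L + 4)) (encM (toR A)))^[k] (encM (toR (X 0))) = encM (toR (X k)) := by
  induction k with
  | zero => rfl
  | succ k ih => rw [Function.iterate_succ_apply', ih (by omega), hX k (by omega)]

theorem newt5_iter (n L : ℕ) (U B : ℝ) (A : List (List ℝ)) (k : ℕ) :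
    (newt5 n L U B A)^[k] = (newt n L U B A)^[5 * k] := by
  rw [Function.iterate_mul]
  rfl

theorem resid_spec (n L : ℕ) (U : ℝ) (X A : Matrix (Fin n) (Fin n) ℤ)
    (h1 : ∀ i j, |((X * A) i j : ℝ)| ≤ ((2 : ℝ) ^ (4 * L + 4) - 1) / 2) :
    resid n L U (2 ^ (4 * L + 4)) (eyeN n) (encM (toR X)) (encM (toR A))
      = encM ((U * U) • (1 : Matrix (Fin n) (Fin n) ℝ) - toR (X * A)) := by
  unfold resid
  rw [mulI_spec n L X A h1, eyeN_spec, zipNN]
  congr 1

theorem test_neg_iff (n : ℕ) (ε U N : ℝ) (R X : List (List ℝ)) :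
    test n ε U N R X < 0 ↔ maxN n R * N ≤ ε * (U * U) ∧ maxN n X * (N * N) ≤ ε * (U * U) := by
  unfold test
  split_ifs with h1 h2
  · simp [h1, h2]
  · simp [h2]
  · simp [h1]

end Pool.Agent.TH701
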